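import Pool.Agent.N61.AC.Loc
import Pool.Agent.N459.AC.NRM

set_option autoImplicit false

/-!
# Specialisation of the local data of a cover, uniformly in the field of the point
-/

namespace Pool.Agent.D0H60.VDR

open NumberField IsDedekindDomain
open Pool.Agent.N753.AC (SheetsLE StmLOC)
open Pool.Agent.N459.AC (mem_Ow Ow mem_of_monic above norm_eq_det)

section ev

variable {k : Type} [Field k] [NumberField k]

/-- a property of the primes of all extensions of `k` -/
abbrev PrP (k : Type) [Field k] [NumberField k] : Type 1 :=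
  ∀ (K : Type) [Field K] [NumberField K], (k →+* K) → HeightOneSpectrum (𝓞 K) → Prop

/-- a property of the primes of all extensions of `k` which holds away from a natural number -/
def Ev (P : PrP k) : Prop :=
  ∃ n : ℕ, n ≠ 0 ∧ ∀ (K : Type) [Field K] [NumberField K] (ι : k →+* K)
    (v : HeightOneSpectrum (𝓞 K)), (n : 𝓞 K) ∉ v.asIdeal → P K ι v

lemma Ev.mono {P P' : PrP k} (h : Ev P) (hPP : ∀ (K : Type) [Field K] [NumberField K]
    (ι : k →+* K) (v : HeightOneSpectrum (𝓞 K)), P K ι v → P' K ι v) : Ev P' := by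
  obtain ⟨n, hn, h⟩ := h
  exact ⟨n, hn, fun K _ _ ι v hv => hPP K ι v (h K ι v hv)⟩

lemma Ev.and {P P' : PrP k} (h : Ev P) (h' : Ev P') : Ev (k := k) fun K _ _ ι v =>
    P K ι v ∧ P' K ι v := by
  obtain ⟨n, hn, h⟩ := h
  obtain ⟨n', hn', h'⟩ := h'
  refine ⟨n * n', Nat.mul_ne_zero hn hn', fun K _ _ ι v hv => ?_⟩
  rw [Nat.cast_mul] at hv
  exact ⟨h K ι v fun hc => hv (Ideal.mul_mem_right _ _ hc),
    h' K ι v fun hc => hv (Ideal.mul_mem_left _ _ hc)⟩

lemma Ev.all {α : Type} (s : Finset α) {P : α → PrP k} (h : ∀ a ∈ s, Ev (P a)) :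
    Ev (k := k) fun K _ _ ι v => ∀ a ∈ s, P a K ι v := by
  classical
  induction s using Finset.induction_on with
  | empty =>
    exact ⟨1, one_ne_zero, fun K _ _ ι v _ a ha => absurd ha (Finset.notMem_empty a)⟩
  | insert a s ha ih =>
    refine ((h a (Finset.mem_insert_self a s)).and
      (ih fun i hi => h i (Finset.mem_insert_of_mem hi))).mono ?_
    intro K _ _ ι v hv i hi
    rcases Finset.mem_insert.1 hi with rfl | hi
    · exact hv.1
    · exact hv.2 i hi

theorem ev_const (c : k) : Ev (k := k) fun K _ _ ι v => FinitePlace.mk v (ι c) ≤ 1 := by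
  have halg : IsAlgebraic ℤ c :=
    (IsFractionRing.isAlgebraic_iff ℤ ℚ k).2 (Algebra.IsAlgebraic.isAlgebraic c)
  obtain ⟨y, hy, hint⟩ := halg.exists_integral_multiple
  refine ⟨y.natAbs, Int.natAbs_ne_zero.2 hy, fun K _ _ ι v hv => ?_⟩
  have h1 : (y : 𝓞 K) ∉ v.asIdeal := by
    intro hc
    apply hv
    rcases Int.natAbs_eq y with h | h
    · rw [h, Int.cast_natCast] at hc
      exact hc
    · rw [h, Int.cast_neg, Int.cast_natCast, neg_mem_iff] at hc
      exact hc
  have h2 : FinitePlace.mk v ((y : 𝓞 K) : K) = 1 :=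
    (FinitePlace.norm_eq_one_iff_notMem K v _).2 h1
  have h3 : IsIntegral ℤ (ι (y • c)) := map_isIntegral_int ι hint
  obtain ⟨z, hz⟩ : ∃ z : 𝓞 K, (z : K) = ι (y • c) := ⟨⟨_, h3⟩, rfl⟩
  have h4 : FinitePlace.mk v (z : K) ≤ 1 := FinitePlace.norm_le_one K v z
  have h5 : ι (y • c) = ((y : 𝓞 K) : K) * ι c := by
    rw [zsmul_eq_mul, map_mul, map_intCast]
    simp
  rw [hz, h5, map_mul, h2, one_mul] at h4
  exact h4

theorem ev_poly {m : ℕ} (f : MvPolynomial (Fin m) k) :
    Ev (k := k) fun K _ _ ι v => ∀ x : Fin m → K,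
      (∀ i, FinitePlace.mk v (x i) ≤ 1) → FinitePlace.mk v (MvPolynomial.eval₂ ι x f) ≤ 1 := by
  refine (Ev.all f.support (P := fun d K _ _ ι v => FinitePlace.mk v (ι (f.coeff d)) ≤ 1)
    fun d _ => ev_const _).mono ?_
  intro K _ _ ι v hv x hx
  rw [← mem_Ow, MvPolynomial.eval₂_eq']
  refine sum_mem fun d hd => mul_mem (hv d hd) (prod_mem fun i _ => pow_mem (hx i) _)

variable {m : ℕ} {A : Type} [CommRing A] [Algebra (MvPolynomial (Fin m) k) A]

/-- the values of `a` are integral above `v` -/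
def AInt (a : A) : PrP k := fun K _ _ ι v =>
  ∀ (L : Type) [Field L] [NumberField L] [Algebra K L] (φ : A →+* L) (x : Fin m → K),
    (∀ f : MvPolynomial (Fin m) k, φ (algebraMap (MvPolynomial (Fin m) k) A f) =
      algebraMap K L (MvPolynomial.eval₂ ι x f)) → (∀ i, FinitePlace.mk v (x i) ≤ 1) →
    ∀ w : HeightOneSpectrum (𝓞 L), v.asIdeal.map (algebraMap (𝓞 K) (𝓞 L)) ≤ w.asIdeal →
      FinitePlace.mk w (φ a) ≤ 1

theorem ev_int {a : A} (ha : IsIntegral (MvPolynomial (Fin m) k) a) :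
    Ev (AInt (k := k) (m := m) a) := by
  obtain ⟨p, hp, hpa⟩ := ha
  refine (Ev.all (Finset.range (p.natDegree + 1)) (P := fun n K _ _ ι v => ∀ x : Fin m → K,
    (∀ i, FinitePlace.mk v (x i) ≤ 1) →
      FinitePlace.mk v (MvPolynomial.eval₂ ι x (p.coeff n)) ≤ 1) fun n _ => ev_poly _).mono ?_
  intro K _ _ ι v hv L _ _ _ φ x hφ hx w hw
  rw [← mem_Ow]
  have hcomp : φ.comp (algebraMap (MvPolynomial (Fin m) k) A) =
      (algebraMap K L).comp (MvPolynomial.eval₂Hom ι x) := RingHom.ext hφ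
  refine mem_of_monic (q := p.map (φ.comp (algebraMap (MvPolynomial (Fin m) k) A)))
    (hp.map _) (fun n => ?_) ?_
  · rw [Polynomial.coeff_map, hcomp]
    by_cases hn : n ∈ Finset.range (p.natDegree + 1)
    · exact (above hw (hv n hn x hx)).1
    · have h2 : p.coeff n = 0 := by
        apply Polynomial.coeff_eq_zero_of_natDegree_lt
        rw [Finset.mem_range] at hn
        omega
      rw [h2, map_zero]
      exact zero_mem _
  · rw [Polynomial.eval_map, ← Polynomial.hom_eval₂, hpa, map_zero]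

end ev

/-- **specialisation of the local data, uniformly in the field of the point** -/
theorem nrm (hLOC : StmLOC) (k : Type) [Field k] [NumberField k] (m : ℕ) (A : Type) [CommRing A]
    [IsDomain A] [IsIntegrallyClosed A] [Algebra (MvPolynomial (Fin m) k) A]
    [FaithfulSMul (MvPolynomial (Fin m) k) A] [Module.Finite (MvPolynomial (Fin m) k) A]
    (F : MvPolynomial (Fin m) k) (Y : Finset A) (s : ℕ) (hF : Irreducible F)
    (hs : SheetsLE A F Y s) :
    ∃ (g : MvPolynomial (Fin m) k) (n : ℕ), n ≠ 0 ∧ ¬ F ∣ g ∧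
    ∀ (K : Type) [Field K] [NumberField K] (ι : k →+* K) (L : Type) [Field L] [NumberField L]
      [Algebra K L] (φ : A →+* L) (x : Fin m → K),
      Function.Surjective φ →
      Module.finrank K L = Module.finrank (MvPolynomial (Fin m) k) A →
      (∀ f : MvPolynomial (Fin m) k, φ (algebraMap (MvPolynomial (Fin m) k) A f) =
        algebraMap K L (MvPolynomial.eval₂ ι x f)) →
      ∀ v : HeightOneSpectrum (𝓞 K), (n : 𝓞 K) ∉ v.asIdeal → (∀ i, FinitePlace.mk v (x i) ≤ 1) →
        FinitePlace.mk v (MvPolynomial.eval₂ ι x F) = (Ideal.absNorm v.asIdeal : ℝ)⁻¹ →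
        FinitePlace.mk v (MvPolynomial.eval₂ ι x g) = 1 →
        ∃ ζ : L, ((Ideal.absNorm v.asIdeal : ℝ) ^ s)⁻¹ ≤ FinitePlace.mk v (Algebra.norm K ζ) ∧
          ∀ w : HeightOneSpectrum (𝓞 L), v.asIdeal.map (algebraMap (𝓞 K) (𝓞 L)) ≤ w.asIdeal →
            FinitePlace.mk w ζ ≤ 1 ∧ (∀ y ∈ Y, FinitePlace.mk w (φ y) ≤ 1) ∧
              ((∃ y ∈ Y, FinitePlace.mk w (φ y) = 1) → FinitePlace.mk w ζ < 1) := by
  classical
  obtain ⟨ω, z, g₀, M, E, b, hg₀, hM, hdet, hspan, hzE⟩ :=
    hLOC (MvPolynomial (Fin m) k) A F Y s (Module.finrank (MvPolynomial (Fin m) k) A) hF.prime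
      rfl hs
  -- the multiplicity of `F` in the determinant
  obtain ⟨t, ht, h, hdeth, hFh⟩ : ∃ t ≤ s, ∃ h, M.det = F ^ t * h ∧ ¬ F ∣ h := by
    have hfin : FiniteMultiplicity F M.det := ⟨s, hdet⟩
    obtain ⟨h, h1, h2⟩ := hfin.exists_eq_pow_mul_and_not_dvd
    refine ⟨_, ?_, h, h1, h2⟩
    by_contra hcon
    exact hdet ((pow_dvd_pow _ (by omega)).trans ⟨h, h1⟩)
  have hint : ∀ a : A, IsIntegral (MvPolynomial (Fin m) k) a := fun a =>
    Algebra.IsIntegral.isIntegral a
  obtain ⟨n, hn, hev⟩ := ((ev_poly g₀).and (ev_poly h)).and ((ev_int (k := k) (m := m) (hint z)).and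
      ((Ev.all Y (P := fun y => AInt (k := k) (m := m) y) fun y _ => ev_int (hint y)).and
        (Ev.all Y (P := fun y => AInt (k := k) (m := m) (b y)) fun y _ => ev_int (hint (b y)))))
  refine ⟨g₀ * h, n, hn, fun hd => ?_, ?_⟩
  · rcases hF.prime.dvd_or_dvd hd with h1 | h1
    · exact hg₀ h1
    · exact hFh h1
  intro K _ _ ι L _ _ _ φ x hφs hfr hφ v hv hx hFx hgx
  obtain ⟨⟨hvg, hvh⟩, hvz, hvY, hvb⟩ := hev K ι v hv
  rw [MvPolynomial.eval₂_mul, map_mul] at hgx
  have hg1 : FinitePlace.mk v (MvPolynomial.eval₂ ι x g₀) = 1 := by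
    have h1 := hvg x hx
    have h2 := hvh x hx
    have h3 : (0 : ℝ) ≤ FinitePlace.mk v (MvPolynomial.eval₂ ι x g₀) := apply_nonneg _ _
    refine le_antisymm h1 ?_
    rw [← hgx]
    exact mul_le_of_le_one_right h3 h2
  have hh1 : FinitePlace.mk v (MvPolynomial.eval₂ ι x h) = 1 := by
    rw [hg1, one_mul] at hgx
    exact hgx
  have hNv : (1 : ℝ) < (Ideal.absNorm v.asIdeal : ℝ) := by
    exact_mod_cast HeightOneSpectrum.one_lt_absNorm v
  have hFlt : FinitePlace.mk v (MvPolynomial.eval₂ ι x F) < 1 := by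
    rw [hFx]
    exact inv_lt_one_of_one_lt₀ hNv
  have hg0 : MvPolynomial.eval₂ ι x g₀ ≠ 0 := by
    intro h0
    rw [h0, map_zero] at hg1
    exact zero_ne_one hg1
  refine ⟨φ z, ?_, fun w hw => ⟨hvz L φ x hφ hx w hw, fun y hy => hvY y hy L φ x hφ hx w hw,
    ?_⟩⟩
  · -- the norm
    have hnorm : Algebra.norm K (algebraMap K L (MvPolynomial.eval₂ ι x g₀) * φ z) =
        MvPolynomial.eval₂Hom ι x M.det := by
      have h1 := norm_eq_det hfr (fun i => φ (ω i)) (MvPolynomial.eval₂ ι x g₀) hg0 (by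
        intro y
        obtain ⟨a, rfl⟩ := hφs y
        obtain ⟨r, hr⟩ := hspan a
        refine ⟨fun i => MvPolynomial.eval₂ ι x (r i), ?_⟩
        have h2 := congrArg φ hr
        rw [map_mul, hφ, map_sum] at h2
        rw [h2]
        refine Finset.sum_congr rfl fun i _ => ?_
        rw [map_mul, hφ]) (algebraMap K L (MvPolynomial.eval₂ ι x g₀) * φ z)
        ((MvPolynomial.eval₂Hom ι x).mapMatrix M) (by
        intro i
        have h2 := congrArg φ (hM i)
        rw [map_mul, map_mul, hφ, map_sum] at h2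
        rw [h2]
        refine Finset.sum_congr rfl fun j _ => ?_
        rw [map_mul, hφ]
        rfl)
      rw [h1, RingHom.map_det]
    rw [map_mul, Algebra.norm_algebraMap, hdeth, map_mul, map_pow] at hnorm
    have h1 := congrArg (FinitePlace.mk v) hnorm
    rw [map_mul, map_mul, map_pow, map_pow, hg1, one_pow, one_mul, MvPolynomial.coe_eval₂Hom, hh1,
      mul_one, hFx] at h1
    rw [h1, ← inv_pow]
    exact pow_le_pow_of_le_one (inv_nonneg.2 (by positivity)) (inv_le_one_of_one_le₀ hNv.le) ht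
  · rintro ⟨y, hy, hy1⟩
    have h1 := congrArg φ (hzE y hy)
    rw [map_mul, map_mul, map_pow, map_mul, hφ, hφ] at h1
    have h2 := congrArg (FinitePlace.mk w) h1
    rw [map_mul, map_mul, map_pow, map_mul, hy1, one_mul] at h2
    have h3 := (above hw hg1.le).2.2 hg1
    have h4 := (above hw hFlt.le).2.1 hFlt
    rw [h3, one_mul] at h2
    have h5 : FinitePlace.mk w (φ (b y)) ≤ 1 := hvb y hy L φ x hφ hx w hw
    have h6 : FinitePlace.mk w (φ z) ^ E < 1 := by
      rw [h2]
      have h7 : (0 : ℝ) ≤ FinitePlace.mk w (algebraMap K L (MvPolynomial.eval₂ ι x F)) :=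
        apply_nonneg _ _
      exact lt_of_le_of_lt (mul_le_of_le_one_right h7 h5) h4
    by_contra h7
    exact absurd (one_le_pow₀ (not_lt.1 h7)) (not_le.2 h6)

end Pool.Agent.D0H60.VDR
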