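import Pool.Agent.N752.CP.Cov
import Pool.Agent.D0H60.VDR.Nrm

set_option autoImplicit false
set_option linter.unusedSectionVars false

/-!
# One cover of projective space, uniformly in the field of the point
-/

namespace Pool.Agent.D0H60.VDR

open NumberField IsDedekindDomain MvPolynomial Module Height
open Pool.Agent.H691R3 (fv fv_na fv_support_finite log_fv Nv log_Nv_pos)
open Pool.Agent.N752.HY
open Pool.Agent.N752.HY.Ext
open Pool.Agent.N753.AC (SheetsLE StmLOC StmRAM Ab ab_unique disc_bound)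
open Pool.Agent.N752.CP (deh deh_mul deh_X0 deh_dvd deh_eval exists_hom good mem_good lam_factor
  fv_of_lam)

variable {k : Type} [Field k] [NumberField k] {m : ℕ}

/-- the form `F` over the larger field `K` -/
noncomputable def up {K : Type} [Field K] [NumberField K] (ι : k →+* K)
    (F : MvPolynomial (Fin (m + 1)) (𝓞 k)) : MvPolynomial (Fin (m + 1)) (𝓞 K) :=
  MvPolynomial.map (RingOfIntegers.mapRingHom ι) F

lemma up_mul {K : Type} [Field K] [NumberField K] (ι : k →+* K)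
    (F G : MvPolynomial (Fin (m + 1)) (𝓞 k)) : up ι (F * G) = up ι F * up ι G := map_mul _ _ _

lemma up_X {K : Type} [Field K] [NumberField K] (ι : k →+* K) (i : Fin (m + 1)) :
    up ι (X i : MvPolynomial (Fin (m + 1)) (𝓞 k)) = X i := map_X _ _

lemma up_prod {K : Type} [Field K] [NumberField K] (ι : k →+* K) {α : Type} (s : Finset α)
    (F : α → MvPolynomial (Fin (m + 1)) (𝓞 k)) : up ι (∏ i ∈ s, F i) = ∏ i ∈ s, up ι (F i) :=
  map_prod _ _ _

lemma deh_up {K : Type} [Field K] [NumberField K] (ι : k →+* K)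
    (F : MvPolynomial (Fin (m + 1)) (𝓞 k)) : deh (up ι F) = map ι (deh F) := by
  unfold deh up
  rw [eval₂_map, eval₂_comp_left]
  congr 1
  · ext a
    · simp
  · funext j
    refine Fin.cases ?_ (fun i => ?_) j
    · simp
    · simp

lemma eval_up {K : Type} [Field K] [NumberField K] (ι : k →+* K)
    (F : MvPolynomial (Fin (m + 1)) (𝓞 k)) (z : Fin m → K) :
    eval z (deh (up ι F)) = eval₂ ι z (deh F) := by
  rw [deh_up, eval_map]

/-- the primes which divide `n` -/
noncomputable def badn (K : Type) [Field K] [NumberField K] (n : ℕ) :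
    Finset (HeightOneSpectrum (𝓞 K)) :=
  open Classical in
  if h : {v : HeightOneSpectrum (𝓞 K) | (n : 𝓞 K) ∈ v.asIdeal}.Finite then h.toFinset else ∅

lemma mem_badn {K : Type} [Field K] [NumberField K] {n : ℕ} (hn : n ≠ 0)
    (v : HeightOneSpectrum (𝓞 K)) : v ∈ badn K n ↔ (n : 𝓞 K) ∈ v.asIdeal := by
  have hfin : {v : HeightOneSpectrum (𝓞 K) | (n : 𝓞 K) ∈ v.asIdeal}.Finite := by
    have h0 : (n : K) ≠ 0 := Nat.cast_ne_zero.2 hn
    refine (fv_support_finite h0).subset fun v hv => ?_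
    have h1 : FinitePlace.mk v (((n : 𝓞 K) : 𝓞 K) : K) < 1 :=
      (FinitePlace.norm_lt_one_iff_mem K v _).2 hv
    have h2 : (((n : 𝓞 K) : 𝓞 K) : K) = (n : K) := by simp
    rw [h2] at h1
    exact h1.ne
  unfold badn
  rw [dif_pos hfin, Set.Finite.mem_toFinset]
  rfl

lemma notMem_of_dvd {K : Type} [Field K] [NumberField K] {a b : ℕ} (h : a ∣ b)
    {v : HeightOneSpectrum (𝓞 K)} (hv : (b : 𝓞 K) ∉ v.asIdeal) : (a : 𝓞 K) ∉ v.asIdeal := by
  intro hc
  obtain ⟨c, rfl⟩ := h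
  apply hv
  rw [Nat.cast_mul]
  exact Ideal.mul_mem_right _ _ hc

/-- the prime `w`: the affine coordinates are integral and the point meets the divisor -/
def HitI {r : ℕ} {A : Type} [CommRing A] (f : Fin r → MvPolynomial (Fin m) k)
    (Y : Fin r → Finset A) {K : Type} [Field K] [NumberField K] (ι : k →+* K) (z : Fin m → K)
    {L : Type} [Field L] [NumberField L] [Algebra K L]
    (φ : A →+* L) (w : HeightOneSpectrum (𝓞 L)) : Prop :=
  (∀ i, FinitePlace.mk w (algebraMap K L (z i)) ≤ 1) ∧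
    ∃ j, FinitePlace.mk w (algebraMap K L (eval₂ ι z (f j))) < 1 ∧
      ∀ y ∈ Y j, FinitePlace.mk w (φ y) < 1

theorem hitI_finite {r : ℕ} {A : Type} [CommRing A] (f : Fin r → MvPolynomial (Fin m) k)
    (Y : Fin r → Finset A) {K : Type} [Field K] [NumberField K] (ι : k →+* K) {z : Fin m → K}
    (hz : ∀ j, eval₂ ι z (f j) ≠ 0)
    {L : Type} [Field L] [NumberField L] [Algebra K L] (φ : A →+* L) :
    {w | HitI f Y ι z φ w}.Finite := by
  refine (Set.finite_iUnion fun j => fv_support_finite (K := L)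
    (x := algebraMap K L (eval₂ ι z (f j))) ?_).subset ?_
  · rw [Ne, map_eq_zero]
    exact hz j
  · rintro w ⟨-, j, hw, -⟩
    exact Set.mem_iUnion.2 ⟨j, hw.ne⟩

open Classical in
/-- **one cover** -/
theorem cover (hRAM : StmRAM) (hLOC : StmLOC)
    (A : Type) [CommRing A] [IsDomain A] [IsIntegrallyClosed A]
    [Algebra (MvPolynomial (Fin m) k) A] [FaithfulSMul (MvPolynomial (Fin m) k) A]
    [Module.Finite (MvPolynomial (Fin m) k) A]
    {r : ℕ} (F : Fin r → MvPolynomial (Fin (m + 1)) (𝓞 k)) (κ : Fin r → ℕ)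
    (Y : Fin r → Finset A) (s : Fin r → ℕ) (hhom : ∀ j, (F j).IsHomogeneous (κ j))
    (hirr : ∀ j, Irreducible (map (algebraMap (𝓞 k) k) (F j)))
    (hdi : ∀ j, Irreducible (deh (F j)))
    (hFF : ∀ i j, i ≠ j →
      ¬ Associated (map (algebraMap (𝓞 k) k) (F i)) (map (algebraMap (𝓞 k) k) (F j)))
    (hs : ∀ j, SheetsLE A (deh (F j)) (Y j) (s j)) :
    ∃ (G : Fin r → MvPolynomial (Fin (m + 1)) (𝓞 k)) (e : Fin r → ℕ)
      (n : ℕ), n ≠ 0 ∧ (∀ j, (G j).IsHomogeneous (e j)) ∧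
      (∀ j, ¬ map (algebraMap (𝓞 k) k) (F j) ∣ map (algebraMap (𝓞 k) k) (G j)) ∧
      ∀ (K : Type) [Field K] [NumberField K] (ι : k →+* K)
      (x : Fin (m + 1) → K), x 0 ≠ 0 → (∀ j, aeval x (up ι (F j)) ≠ 0) →
      (∀ j, aeval x (up ι (G j)) ≠ 0) →
      ∀ (L : Type) [Field L] [NumberField L] [Algebra K L] (φ : A →+* L), Function.Surjective φ →
        Module.finrank K L = Module.finrank (MvPolynomial (Fin m) k) A →
        (∀ f : MvPolynomial (Fin m) k, φ (algebraMap (MvPolynomial (Fin m) k) A f) =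
          algebraMap K L (eval₂ ι (fun i => x i.succ / x 0) f)) →
        ∑ j, ((Module.finrank K L : ℝ) - s j) *
          ∑ v ∈ good (up ι (F j)) (up ι (G j)) (κ j) (e j) (badn K n) x,
            Real.log (Ideal.absNorm v.asIdeal) ≤
          Real.log |(discr L : ℝ)| +
            ∑ᶠ w : HeightOneSpectrum (𝓞 L), if HitI (fun j => deh (F j)) Y ι
              (fun i => x i.succ / x 0) φ w then Real.log (Ideal.absNorm w.asIdeal) else 0 := by
  choose g' n' hn' hg' hsp using fun j => nrm hLOC k m A (deh (F j)) (Y j) (s j) (hdi j) (hs j)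
  choose D hD using fun j => exists_hom (K := k) (g' j)
  choose H a ha hH hHg using fun j => hD j (D j) le_rfl
  obtain ⟨nA, hnA, hevA⟩ := Ev.all (k := k) (Finset.univ : Finset (Fin r))
    (P := fun j K _ _ ι v => FinitePlace.mk v (ι ((algebraMap (𝓞 k) k (a j))⁻¹)) ≤ 1)
    fun j _ => ev_const _
  obtain ⟨n, hn⟩ : ∃ n : ℕ, n = (∏ j, n' j) * nA := ⟨_, rfl⟩
  have hn0 : n ≠ 0 := by
    rw [hn]
    exact Nat.mul_ne_zero (Finset.prod_ne_zero_iff.2 fun j _ => hn' j) hnA
  obtain ⟨R, hR⟩ : ∃ R : Fin r → MvPolynomial (Fin (m + 1)) (𝓞 k),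
      ∀ j, R j = ∏ i ∈ Finset.univ.erase j, F i := ⟨_, fun _ => rfl⟩
  have hRh : ∀ j, (R j).IsHomogeneous (∑ i ∈ Finset.univ.erase j, κ i) := by
    intro j
    rw [hR]
    exact IsHomogeneous.prod _ _ _ fun i _ => hhom i
  obtain ⟨G, hG⟩ : ∃ G : Fin r → MvPolynomial (Fin (m + 1)) (𝓞 k),
      ∀ j, G j = H j * (X 0 * R j) := ⟨_, fun _ => rfl⟩
  have hXR : ∀ j, (X 0 * R j).IsHomogeneous (1 + ∑ i ∈ Finset.univ.erase j, κ i) := fun j =>
    (isHomogeneous_X _ _).mul (hRh j)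
  have hGh : ∀ j, (G j).IsHomogeneous (D j + (1 + ∑ i ∈ Finset.univ.erase j, κ i)) := by
    intro j
    rw [hG]
    exact (hH j).mul (hXR j)
  refine ⟨G, fun j => D j + (1 + ∑ i ∈ Finset.univ.erase j, κ i), n, hn0, hGh, ?_, ?_⟩
  · intro j hd
    rw [hG, map_mul, map_mul, hR, map_prod] at hd
    rcases (hirr j).prime.dvd_or_dvd hd with h | h
    · have h1 := deh_dvd h
      rw [hHg] at h1
      have hu : IsUnit (C (algebraMap (𝓞 k) k (a j)) : MvPolynomial (Fin m) k) := by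
        refine IsUnit.map C (isUnit_iff_ne_zero.2 ?_)
        rw [Ne, FaithfulSMul.algebraMap_eq_zero_iff]
        exact ha j
      exact hg' j ((hu.dvd_mul_left).1 h1)
    rcases (hirr j).prime.dvd_or_dvd h with h | h
    · have h1 := deh_dvd (F := F j) (G := X 0) h
      rw [deh_X0] at h1
      exact (hdi j).not_isUnit (isUnit_of_dvd_one h1)
    · obtain ⟨i, hi, h3⟩ := ((hirr j).prime.dvd_finsetProd_iff _).1 h
      exact hFF j i (Finset.ne_of_mem_erase hi).symm ((hirr j).associated_of_dvd (hirr i) h3)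
  intro K _ _ ι x hx0 hxF hxG L _ _ _ φ hsurj hfr hcomp
  have hx : x ≠ 0 := fun h => hx0 (by rw [h]; rfl)
  obtain ⟨z, hz⟩ : ∃ z : Fin m → K, z = fun i => x i.succ / x 0 := ⟨_, rfl⟩
  rw [← hz] at hcomp ⊢
  have hval : ∀ {P : MvPolynomial (Fin (m + 1)) (𝓞 k)} {b : ℕ}, P.IsHomogeneous b →
      aeval x (up ι P) = x 0 ^ b * eval₂ ι z (deh P) := by
    intro P b hP
    rw [hz, ← eval_up]
    exact deh_eval (hP.map _) hx0
  -- the good primes
  obtain ⟨V, hV⟩ : ∃ V : Fin r → Finset (HeightOneSpectrum (𝓞 K)), ∀ j, V j =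
    good (up ι (F j)) (up ι (G j)) (κ j) (D j + (1 + ∑ i ∈ Finset.univ.erase j, κ i))
      (badn K n) x := ⟨_, fun _ => rfl⟩
  have hVmem : ∀ j, ∀ v ∈ V j, (n : 𝓞 K) ∉ v.asIdeal ∧ (∀ i, FinitePlace.mk v (z i) ≤ 1) ∧
      FinitePlace.mk v (eval₂ ι z (deh (F j))) = (Ideal.absNorm v.asIdeal : ℝ)⁻¹ ∧
      FinitePlace.mk v (eval₂ ι z (g' j)) = 1 ∧
      ∀ i, i ≠ j → FinitePlace.mk v (eval₂ ι z (deh (F i))) = 1 := by
    intro j v hv
    rw [hV, mem_good hx (hxF j)] at hv
    obtain ⟨c1, c2, c3, c4⟩ := hv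
    rw [mem_badn hn0] at c2
    have hxG' := hxG j
    rw [hG, up_mul, up_mul, up_X] at c4 hxG'
    have hs0 : 0 < ⨆ i, fv v (x i) := sup_pos' (fv v) hx
    have hupH : ∀ {P : MvPolynomial (Fin (m + 1)) (𝓞 k)} {b : ℕ}, P.IsHomogeneous b →
        (up ι P).IsHomogeneous b := fun hP => hP.map _
    -- the coordinate
    have d1 : lam K (X 0 : MvPolynomial (Fin (m + 1)) (𝓞 K)) 1 x v = 0 := by
      have e1 : up ι (H j) * (X 0 * up ι (R j)) = X 0 * (up ι (H j) * up ι (R j)) := by ring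
      have e2 : D j + (1 + ∑ i ∈ Finset.univ.erase j, κ i) =
        1 + (D j + ∑ i ∈ Finset.univ.erase j, κ i) := by ring
      rw [e1, e2] at c4
      rw [e1] at hxG'
      exact lam_factor (isHomogeneous_X _ _) ((hupH (hH j)).mul (hupH (hRh j))) hx hxG' v c4
    have d2 : lam K (up ι (H j)) (D j) x v = 0 := lam_factor (hupH (hH j))
      ((isHomogeneous_X _ _).mul (hupH (hRh j))) hx hxG' v c4
    have d3 : ∀ i, i ≠ j → lam K (up ι (F i)) (κ i) x v = 0 := by
      intro i hij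
      have hi : i ∈ Finset.univ.erase j := Finset.mem_erase.2 ⟨hij, Finset.mem_univ _⟩
      have e0 : up ι (R j) = up ι (F i) * ∏ l ∈ (Finset.univ.erase j).erase i, up ι (F l) := by
        rw [hR, ← Finset.mul_prod_erase _ _ hi, up_mul, up_prod]
      have e1 : up ι (H j) * (X 0 * up ι (R j)) = up ι (F i) * (up ι (H j) *
          (X 0 * ∏ l ∈ (Finset.univ.erase j).erase i, up ι (F l))) := by
        rw [e0]
        ring
      have e2 : D j + (1 + ∑ i ∈ Finset.univ.erase j, κ i) =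
          κ i + (D j + (1 + ∑ l ∈ (Finset.univ.erase j).erase i, κ l)) := by
        rw [← Finset.add_sum_erase _ _ hi]
        ring
      rw [e1, e2] at c4
      rw [e1] at hxG'
      exact lam_factor (hupH (hhom i)) ((hupH (hH j)).mul ((isHomogeneous_X _ _).mul
        (IsHomogeneous.prod _ _ _ fun i _ => hupH (hhom i)))) hx hxG' v c4
    have hxX : aeval x (X 0 : MvPolynomial (Fin (m + 1)) (𝓞 K)) ≠ 0 := by
      rw [aeval_X]
      exact hx0
    have b1 := fv_of_lam hx hxX v 0 d1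
    rw [neg_zero, Real.exp_zero, mul_one, pow_one, aeval_X] at b1
    have hx0v : 0 < fv v (x 0) := (fv v).pos hx0
    have hxH : aeval x (up ι (H j)) ≠ 0 := by
      rw [map_mul] at hxG'
      exact left_ne_zero_of_mul hxG'
    have b2 := fv_of_lam hx hxH v 0 d2
    rw [neg_zero, Real.exp_zero, mul_one, ← b1, hval (hH j), map_mul, map_pow, hHg, eval₂_mul,
      eval₂_C, map_mul] at b2
    have b2' : fv v (ι (algebraMap (𝓞 k) k (a j))) * fv v (eval₂ ι z (g' j)) = 1 := by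
      have h1 : fv v (x 0) ^ D j ≠ 0 := (pow_pos hx0v _).ne'
      exact mul_left_cancel₀ h1 (by rw [b2, mul_one])
    have b3 : fv v (ι (algebraMap (𝓞 k) k (a j))) = 1 := by
      have hA := hevA K ι v (notMem_of_dvd (by rw [hn]; exact Dvd.intro_left _ rfl) c2) j
        (Finset.mem_univ j)
      have ha0 : ι (algebraMap (𝓞 k) k (a j)) ≠ 0 := by
        rw [Ne, map_eq_zero, FaithfulSMul.algebraMap_eq_zero_iff]
        exact ha j
      have hpos : 0 < fv v (ι (algebraMap (𝓞 k) k (a j))) := (fv v).pos ha0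
      have h1 : fv v (ι (algebraMap (𝓞 k) k (a j))) ≤ 1 :=
        FinitePlace.norm_le_one K v (RingOfIntegers.mapRingHom ι (a j))
      refine le_antisymm h1 ?_
      have h2 : (fv v (ι (algebraMap (𝓞 k) k (a j))))⁻¹ ≤ 1 := by
        have h3 : fv v (ι ((algebraMap (𝓞 k) k (a j))⁻¹)) ≤ 1 := hA
        rw [map_inv₀, map_inv₀] at h3
        exact h3
      exact (inv_le_one₀ hpos).1 h2
    rw [b3, one_mul] at b2'
    refine ⟨c2, ?_, ?_, b2', ?_⟩
    · intro i
      have h1 : fv v (x i.succ) ≤ ⨆ j, fv v (x j) :=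
        le_ciSup (f := fun j => fv v (x j)) (Set.finite_range _).bddAbove _
      show fv v (z i) ≤ 1
      rw [hz]
      show fv v (x i.succ / x 0) ≤ 1
      rw [map_div₀, div_le_one hx0v, b1]
      exact h1
    · have b4 := fv_of_lam hx (hxF j) v _ c3
      rw [← b1, hval (hhom j), map_mul, map_pow] at b4
      have h1 : fv v (x 0) ^ κ j ≠ 0 := (pow_pos hx0v _).ne'
      have b5 := mul_left_cancel₀ h1 b4
      show fv v (eval₂ ι z (deh (F j))) = _
      rw [b5, Real.exp_neg, Real.exp_log]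
      have hN := log_Nv_pos v
      by_contra hcon
      rw [not_lt] at hcon
      have h4 : (0 : ℝ) ≤ (Ideal.absNorm v.asIdeal : ℝ) := Nat.cast_nonneg _
      have h5 : Real.log (Nv v) = Real.log (Ideal.absNorm v.asIdeal : ℝ) := rfl
      rw [h5, le_antisymm hcon h4, Real.log_zero] at hN
      exact lt_irrefl _ hN
    · intro i hij
      have b4 := fv_of_lam hx (hxF i) v _ (d3 i hij)
      rw [neg_zero, Real.exp_zero, mul_one, ← b1, hval (hhom i), map_mul, map_pow] at b4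
      have h1 : fv v (x 0) ^ κ i ≠ 0 := (pow_pos hx0v _).ne'
      show fv v (eval₂ ι z (deh (F i))) = 1
      exact mul_left_cancel₀ h1 (b4.trans (mul_one _).symm)
  have hNlt : ∀ v : HeightOneSpectrum (𝓞 K), (Ideal.absNorm v.asIdeal : ℝ)⁻¹ < 1 := by
    intro v
    have hN := log_Nv_pos v
    have h5 : Real.log (Nv v) = Real.log (Ideal.absNorm v.asIdeal : ℝ) := rfl
    rw [h5] at hN
    have h6 : (1 : ℝ) < (Ideal.absNorm v.asIdeal : ℝ) :=
      (Real.log_pos_iff (Nat.cast_nonneg _)).1 hN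
    exact inv_lt_one_of_one_lt₀ h6
  have hdisj : ∀ i j, i ≠ j → Disjoint (V i) (V j) := by
    intro i j hij
    refine Finset.disjoint_left.2 fun v hv hv' => ?_
    obtain ⟨-, -, c3, -, -⟩ := hVmem i v hv
    obtain ⟨-, -, -, -, c6⟩ := hVmem j v hv'
    have h1 := c6 i hij
    rw [c3] at h1
    exact absurd h1 (hNlt v).ne
  have hzF : ∀ j, eval₂ ι z (deh (F j)) ≠ 0 := by
    intro j h0
    apply hxF j
    rw [hval (hhom j), h0, mul_zero]
  have hmain := disc_bound (K := K) (L := L) hRAM V hdisj s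
    (fun j w => ∀ y ∈ Y j, FinitePlace.mk w (φ y) < 1) (by
      intro j v hv
      obtain ⟨c1, c2, c3, c5, c6⟩ := hVmem j v hv
      obtain ⟨ζ, hζ1, hζ2⟩ := hsp j K ι L φ z hsurj hfr hcomp v (notMem_of_dvd (by
        rw [hn]
        exact Dvd.dvd.mul_right (Finset.dvd_prod_of_mem n' (Finset.mem_univ j)) _) c1) c2 c3 c5
      refine ⟨ζ, hζ1, fun w hw => ?_⟩
      obtain ⟨d1, d2, d3⟩ := hζ2 w hw
      refine ⟨d1, fun hcon => d3 ?_⟩
      push Not at hcon
      obtain ⟨y, hy, hy1⟩ := hcon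
      exact ⟨y, hy, le_antisymm (d2 y hy) hy1⟩) (HitI (fun j => deh (F j)) Y ι z φ) (by
      intro j v hv w hw hc
      obtain ⟨c1, c2, c3, c5, c6⟩ := hVmem j v hv
      refine ⟨?_, j, ?_, hc⟩
      · intro i
        exact (Pool.Agent.N459.AC.above hw (c2 i)).1
      · exact (Pool.Agent.N459.AC.above hw (c3.trans_lt (hNlt v)).le).2.1 (c3.trans_lt (hNlt v)))
    (hitI_finite _ Y ι hzF φ)
  simp only [hV] at hmain
  exact hmain

end Pool.Agent.D0H60.VDR
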