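import Pool.Agent.N752.CP.Main2
import Pool.Agent.N752.HY.Px
import Pool.Agent.D0H60.VDR.Cov

set_option autoImplicit false
set_option linter.unusedSectionVars false

/-!
# Almost all points meet a squarefree form mostly with multiplicity one
-/

namespace Pool.Agent.D0H60.VDR

open NumberField IsDedekindDomain MvPolynomial Module Height
open scoped LinearAlgebra.Projectivization
open Pool.Agent.H691R3 (fv fv_na fv_support_finite log_fv Nv log_Nv_pos)
open Pool.Agent.N752.HY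
open Pool.Agent.N752.HY.Ext
open Pool.Agent.N752.HY.KPts (AdmK)
open Pool.Agent.N752.CP (good mem_good lam_factor fv_of_lam cnt_good)
open Pool.Agent.R366.NF (idealHeight)

variable {K : Type} [Field K] [NumberField K] {m : ℕ}

/-- an irreducible form -/
theorem good_one (φ : K →+* ℂ) (hd : 3 ≤ finrank ℚ K * (m + 1))
    {F G : MvPolynomial (Fin (m + 1)) (𝓞 K)} {κ e : ℕ} (hF : F.IsHomogeneous κ)
    (hG : G.IsHomogeneous e) (hirr : Irreducible (map (algebraMap (𝓞 K) K) F))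
    (hcop : ¬ map (algebraMap (𝓞 K) K) F ∣ map (algebraMap (𝓞 K) K) G)
    (hw : HasW (map (φ.comp (algebraMap (𝓞 K) K)) F) κ κ)
    (Bad : Finset (HeightOneSpectrum (𝓞 K))) {δ : ℝ} (hδ : 0 < δ) :
    AA fun Q : ℙ K (Fin (m + 1) → K) => aeval Q.rep F ≠ 0 ∧ aeval Q.rep G ≠ 0 ∧
      ((κ : ℝ) - δ) * (finrank ℚ K * hgt Q.rep) ≤
        ∑ v ∈ good F G κ e Bad Q.rep, Real.log (Ideal.absNorm v.asIdeal) := by
  have hGne : G ≠ 0 := by
    intro h0
    apply hcop
    rw [h0, map_zero]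
    exact dvd_zero _
  obtain ⟨C₀, hC₀⟩ := cnt_good hF hG Bad
  obtain ⟨C₂, hC₂⟩ := Pool.Agent.N752.HY.Ovl.t_OVL K inferInstance inferInstance m F G κ e hF hG
  have A1 : AdmK φ (fun _ : Fin 1 => F) (fun _ => κ) (fun _ => κ) (fun _ : Fin 1 => F)
      (fun _ => G) (fun _ => κ) (fun _ => e) :=
    ⟨fun _ => hF, fun _ => hirr, fun i i' hi => absurd (Subsingleton.elim i i') hi,
      fun _ => hw, fun _ => hF, fun _ => hG, fun _ => hirr, fun _ => hcop⟩
  have hθ : (κ : ℝ) - δ / 4 < ∑ _i : Fin 1, (κ : ℝ) := by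
    rw [Finset.univ_unique, Finset.sum_singleton]
    linarith
  have b1 := KPts.aa_of_adm φ hd A1 1 zero_le_one _ hθ
  have b2 := Prx.prx (K := K) (m := m) Pl1.t_PL1 Pl2.t_PL2 e G hG hGne ∅ (by simp) one_pos
  refine ((b1.and b2).and (AA.large (2 * |C₀ + C₂| / δ))).mono ?_
  rintro Q ⟨⟨⟨h1, h2⟩, h3, -⟩, h4⟩
  refine ⟨h1 0, h3, ?_⟩
  obtain ⟨n, hn⟩ : ∃ n : ℝ, n = finrank ℚ K := ⟨_, rfl⟩
  have hn1 : 1 ≤ n := by
    rw [hn]
    exact_mod_cast (finrank_pos (R := ℚ) (M := K))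
  have hn0 : 0 < n := by linarith
  have hh0 : 0 ≤ hgt Q.rep := hgt0 _
  have a2 := hC₀ Q.rep Q.rep_nonzero (h1 0) h3
  obtain ⟨a6, -⟩ := hC₂ Q.rep Q.rep_nonzero (h1 0) h3
  rw [Finset.univ_unique, Finset.sum_singleton, one_mul] at h2
  obtain ⟨I, hI⟩ : ∃ I : ℝ, I = idealHeight F G κ e Q.rep := ⟨_, rfl⟩
  obtain ⟨c, hc⟩ : ∃ c : ℝ, c = cnt K ∅ (fun _ : Fin 1 => F) (fun _ => κ) Finset.univ Q.rep :=
    ⟨_, rfl⟩
  rw [← Finset.univ_unique, ← hc] at h2
  rw [← hn] at h2 a2 ⊢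
  rw [← hI] at h2 a2 a6
  rw [← hc] at a2
  have a3 := mul_le_mul_of_nonneg_left h2 hn0.le
  have a4 : n * (((κ : ℝ) - δ / 4) * hgt Q.rep + I / n) =
      (κ : ℝ) * (n * hgt Q.rep) - δ / 4 * (n * hgt Q.rep) + I := by
    field_simp
  rw [a4] at a3
  have a5 : 2 * |C₀ + C₂| < δ * hgt Q.rep := by
    rw [div_lt_iff₀ hδ] at h4
    linarith
  have a7 : δ * hgt Q.rep ≤ δ * (n * hgt Q.rep) := by
    refine mul_le_mul_of_nonneg_left ?_ hδ.le
    exact le_mul_of_one_le_left hh0 hn1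
  have a8 := le_abs_self (C₀ + C₂)
  obtain ⟨X, hX⟩ : ∃ X : ℝ, X = n * hgt Q.rep := ⟨_, rfl⟩
  rw [← hX] at a2 a3 a7 ⊢
  rw [sub_mul]
  linarith

/-- local heights of products -/
lemma lam_mul {P Q : MvPolynomial (Fin (m + 1)) (𝓞 K)} {a b : ℕ} {x : Fin (m + 1) → K}
    (hx : x ≠ 0) (h0 : aeval x (P * Q) ≠ 0) (v : HeightOneSpectrum (𝓞 K)) :
    lam K (P * Q) (a + b) x v = lam K P a x v + lam K Q b x v := by
  have hPQ := h0
  rw [map_mul] at hPQ
  have hP0 : aeval x P ≠ 0 := left_ne_zero_of_mul hPQ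
  have hQ0 : aeval x Q ≠ 0 := right_ne_zero_of_mul hPQ
  have e1 := lam_sub (L := K) (κ := a + b) hx h0 v
  have e2 := lam_sub (L := K) (κ := a) hx hP0 v
  have e3 := lam_sub (L := K) (κ := b) hx hQ0 v
  have e4 : Real.log (fv v (algebraMap K K (aeval x (P * Q)))) =
      Real.log (fv v (algebraMap K K (aeval x P))) +
        Real.log (fv v (algebraMap K K (aeval x Q))) := by
    rw [map_mul, map_mul, map_mul, Real.log_mul]
    · exact ((fv v).pos ((map_ne_zero _).2 hP0)).ne'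
    · exact ((fv v).pos ((map_ne_zero _).2 hQ0)).ne'
  rw [e1, e2, e3, e4]
  push_cast
  ring

lemma lam_prod {ι : Type} (s : Finset ι) (P : ι → MvPolynomial (Fin (m + 1)) (𝓞 K)) (κ : ι → ℕ)
    {x : Fin (m + 1) → K} (hx : x ≠ 0) (h0 : ∀ i ∈ s, aeval x (P i) ≠ 0)
    (v : HeightOneSpectrum (𝓞 K)) :
    lam K (∏ i ∈ s, P i) (∑ i ∈ s, κ i) x v = ∑ i ∈ s, lam K (P i) (κ i) x v := by
  classical
  induction s using Finset.induction_on with
  | empty =>
    rw [Finset.prod_empty, Finset.sum_empty, Finset.sum_empty]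
    have h1 : aeval x (1 : MvPolynomial (Fin (m + 1)) (𝓞 K)) ≠ 0 := by
      rw [map_one]
      exact one_ne_zero
    have e1 := lam_sub (L := K) (κ := 0) hx h1 v
    rw [e1, map_one, map_one, map_one, Real.log_one]
    simp
  | insert i s hi ih =>
    rw [Finset.prod_insert hi, Finset.sum_insert hi, Finset.sum_insert hi, lam_mul hx, ih]
    · exact fun j hj => h0 j (Finset.mem_insert_of_mem hj)
    · rw [map_mul, map_prod]
      exact mul_ne_zero (h0 i (Finset.mem_insert_self i s))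
        (Finset.prod_ne_zero_iff.2 fun j hj => h0 j (Finset.mem_insert_of_mem hj))

/-- a squarefree form -/
theorem good_sqf (φ : K →+* ℂ) (hd : 3 ≤ finrank ℚ K * (m + 1))
    {F G : MvPolynomial (Fin (m + 1)) (𝓞 K)} {κ e : ℕ} (hF : F.IsHomogeneous κ)
    (hG : G.IsHomogeneous e) (hF0 : F ≠ 0) (hGne : G ≠ 0)
    (hsq : Squarefree (map (algebraMap (𝓞 K) K) F))
    (hcop : ∀ P : MvPolynomial (Fin (m + 1)) K, P ∣ map (algebraMap (𝓞 K) K) F →
      P ∣ map (algebraMap (𝓞 K) K) G → IsUnit P)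
    (hw : κ ≤ 2 ∨ Lines (map (φ.comp (algebraMap (𝓞 K) K)) F) κ)
    (n₀ : ℕ) (hn₀ : n₀ ≠ 0) {δ : ℝ} (hδ : 0 < δ) :
    AA fun Q : ℙ K (Fin (m + 1) → K) => aeval Q.rep F ≠ 0 ∧ aeval Q.rep G ≠ 0 ∧
      ((κ : ℝ) - δ) * (finrank ℚ K * hgt Q.rep) ≤
        ∑ v ∈ good F G κ e (badn K n₀) Q.rep, Real.log (Ideal.absNorm v.asIdeal) := by
  classical
  obtain ⟨l, P, κ₁, a, b, ha, hb, hP, hirr, hab⟩ := Pool.Agent.N752.HY.Fac.fac1 F κ hF hF0
  have haK : algebraMap (𝓞 K) K a ≠ 0 := by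
    rw [Ne, FaithfulSMul.algebraMap_eq_zero_iff]
    exact ha
  have hbK : algebraMap (𝓞 K) K b ≠ 0 := by
    rw [Ne, FaithfulSMul.algebraMap_eq_zero_iff]
    exact hb
  have hPne : ∀ i, P i ≠ 0 := by
    intro i h0
    apply (hirr i).ne_zero
    rw [h0, map_zero]
  have habK : C (algebraMap (𝓞 K) K a) * map (algebraMap (𝓞 K) K) F =
      C (algebraMap (𝓞 K) K b) * ∏ i, map (algebraMap (𝓞 K) K) (P i) := by
    have h1 := congrArg (map (algebraMap (𝓞 K) K)) hab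
    rw [map_mul, map_mul, map_C, map_C, map_prod] at h1
    exact h1
  have hua : IsUnit (C (algebraMap (𝓞 K) K a) : MvPolynomial (Fin (m + 1)) K) :=
    (isUnit_iff_ne_zero.2 haK).map C
  have hub : IsUnit (C (algebraMap (𝓞 K) K b) : MvPolynomial (Fin (m + 1)) K) :=
    (isUnit_iff_ne_zero.2 hbK).map C
  have hPF : ∏ i, map (algebraMap (𝓞 K) K) (P i) ∣ map (algebraMap (𝓞 K) K) F := by
    have h1 : ∏ i, map (algebraMap (𝓞 K) K) (P i) ∣
        C (algebraMap (𝓞 K) K a) * map (algebraMap (𝓞 K) K) F := by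
      rw [habK]
      exact Dvd.intro_left _ rfl
    exact (hua.dvd_mul_left).1 h1
  have hPiF : ∀ i, map (algebraMap (𝓞 K) K) (P i) ∣ map (algebraMap (𝓞 K) K) F := fun i =>
    (Finset.dvd_prod_of_mem _ (Finset.mem_univ i)).trans hPF
  have hdist : ∀ i j, i ≠ j →
      ¬ Associated (map (algebraMap (𝓞 K) K) (P i)) (map (algebraMap (𝓞 K) K) (P j)) := by
    intro i j hij has
    have h1 : map (algebraMap (𝓞 K) K) (P i) * map (algebraMap (𝓞 K) K) (P j) ∣
        ∏ i, map (algebraMap (𝓞 K) K) (P i) := by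
      have h2 : ∏ l ∈ ({i, j} : Finset (Fin l)), map (algebraMap (𝓞 K) K) (P l) ∣
          ∏ i, map (algebraMap (𝓞 K) K) (P i) :=
        Finset.prod_dvd_prod_of_subset _ _ _ (Finset.subset_univ _)
      rwa [Finset.prod_pair hij] at h2
    have h2 : map (algebraMap (𝓞 K) K) (P i) * map (algebraMap (𝓞 K) K) (P i) ∣
        map (algebraMap (𝓞 K) K) F :=
      ((mul_dvd_mul_left _ has.dvd).trans h1).trans hPF
    exact (hirr i).not_isUnit (hsq _ h2)
  have hsum : κ = ∑ i, κ₁ i := by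
    have h1 : (C a * F).IsHomogeneous κ := by
      have := (isHomogeneous_C (Fin (m + 1)) a).mul hF
      rwa [zero_add] at this
    have h2 : (C b * ∏ i, P i).IsHomogeneous (∑ i, κ₁ i) := by
      have := (isHomogeneous_C (Fin (m + 1)) b).mul
        (IsHomogeneous.prod Finset.univ P κ₁ fun i _ => hP i)
      rwa [zero_add] at this
    rw [← hab] at h2
    refine h1.inj_right h2 (mul_ne_zero ?_ hF0)
    rw [Ne, C_eq_zero]
    exact ha
  have hκ1 : ∀ i, 1 ≤ κ₁ i := by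
    intro i
    by_contra hc
    have h0 : κ₁ i = 0 := by omega
    have h1 := (hP i).map (algebraMap (𝓞 K) K)
    rw [h0] at h1
    have h2 := h1.totalDegree (hirr i).ne_zero
    rw [totalDegree_eq_zero_iff_eq_C] at h2
    have h3 : coeff 0 (map (algebraMap (𝓞 K) K) (P i)) ≠ 0 := by
      intro h3
      rw [h3, C_0] at h2
      exact (hirr i).ne_zero h2
    apply (hirr i).not_isUnit
    rw [h2]
    exact (isUnit_iff_ne_zero.2 h3).map C
  have hκle : ∀ i, κ₁ i ≤ κ := by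
    intro i
    rw [hsum]
    exact Finset.single_le_sum (f := κ₁) (fun _ _ => Nat.zero_le _) (Finset.mem_univ i)
  -- the weights
  have hwi : ∀ i, HasW (map (φ.comp (algebraMap (𝓞 K) K)) (P i)) (κ₁ i) (κ₁ i) := by
    intro i
    rcases hw with hw | hw
    · exact Or.inr (Or.inl ⟨le_rfl, (hκle i).trans hw⟩)
    · have hdvd := _root_.map_dvd (MvPolynomial.map φ : MvPolynomial (Fin (m + 1)) K →+* _) (hPiF i)
      rw [MvPolynomial.map_map, MvPolynomial.map_map] at hdvd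
      obtain ⟨c, hc, hs⟩ := Lin3.sub3 m _ (κ₁ i) _ _ hw ((hP i).map _) (hκ1 i) hdvd
      refine Or.inr (Or.inr ⟨c, hc, ?_⟩)
      have h7 := hs Finset.univ ⟨⟨0, hκ1 i⟩, Finset.mem_univ _⟩
      rw [Finset.card_univ, Fintype.card_fin, Finset.coe_univ, Set.image_univ] at h7
      unfold W2
      rw [if_pos h7]
  -- the other form
  obtain ⟨G', hG'⟩ : ∃ G' : Fin l → MvPolynomial (Fin (m + 1)) (𝓞 K), ∀ i, G' i =
    G * ∏ j ∈ Finset.univ.erase i, P j := ⟨_, fun _ => rfl⟩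
  have hG'h : ∀ i, (G' i).IsHomogeneous (e + ∑ j ∈ Finset.univ.erase i, κ₁ j) := by
    intro i
    rw [hG']
    exact hG.mul (IsHomogeneous.prod _ _ _ fun j _ => hP j)
  have hcop' : ∀ i, ¬ map (algebraMap (𝓞 K) K) (P i) ∣ map (algebraMap (𝓞 K) K) (G' i) := by
    intro i hdvd
    rw [hG', map_mul, map_prod] at hdvd
    rcases (hirr i).prime.dvd_or_dvd hdvd with h | h
    · exact (hirr i).not_isUnit (hcop _ (hPiF i) h)
    · obtain ⟨j, hj, h3⟩ := ((hirr i).prime.dvd_finsetProd_iff _).1 h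
      exact hdist i j (Finset.ne_of_mem_erase hj).symm ((hirr i).associated_of_dvd (hirr j) h3)
  obtain ⟨B1, hB1⟩ : ∃ B1 : Finset (HeightOneSpectrum (𝓞 K)), B1 = badn K n₀ ∪
    ((fv_support_finite haK).toFinset ∪ (fv_support_finite hbK).toFinset) := ⟨_, rfl⟩
  obtain ⟨δ', hδ'⟩ : ∃ δ' : ℝ, δ' = δ / (l + 1) := ⟨_, rfl⟩
  have hδ'0 : 0 < δ' := by rw [hδ']; positivity
  have hall := AA.all (Finset.univ : Finset (Fin l)) fun i _ =>
    good_one φ hd (hP i) (hG'h i) (hirr i) (hcop' i) (hwi i) B1 hδ'0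
  have b2 := Prx.prx (K := K) (m := m) Pl1.t_PL1 Pl2.t_PL2 e G hG hGne ∅ (by simp) one_pos
  refine (hall.and b2).mono ?_
  rintro Q ⟨hQ, hQG, -⟩
  have hQ' : ∀ i, _ := fun i => hQ i (Finset.mem_univ i)
  have hxP : ∀ i, aeval Q.rep (P i) ≠ 0 := fun i => (hQ' i).1
  have hx := Q.rep_nonzero
  have hevF : algebraMap (𝓞 K) K a * aeval Q.rep F =
      algebraMap (𝓞 K) K b * ∏ i, aeval Q.rep (P i) := by
    have h1 := congrArg (aeval Q.rep) hab
    rw [map_mul, map_mul, map_prod] at h1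
    simpa [aeval_C] using h1
  have hxF : aeval Q.rep F ≠ 0 := by
    intro h0
    rw [h0, mul_zero, eq_comm, mul_eq_zero] at hevF
    rcases hevF with h | h
    · exact hbK h
    · exact Finset.prod_ne_zero_iff.2 (fun i _ => hxP i) h
  refine ⟨hxF, hQG, ?_⟩
  -- the local heights of `F`
  have hlamF : ∀ v : HeightOneSpectrum (𝓞 K), v ∉ B1 →
      lam K F κ Q.rep v = ∑ i, lam K (P i) (κ₁ i) Q.rep v := by
    intro v hv
    rw [hB1, Finset.mem_union, Finset.mem_union, not_or, not_or, Set.Finite.mem_toFinset,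
      Set.Finite.mem_toFinset] at hv
    obtain ⟨-, hva, hvb⟩ := hv
    simp only [Set.mem_ofPred_eq, not_not] at hva hvb
    have h0 : aeval Q.rep (∏ i, P i) ≠ 0 := by
      rw [map_prod]
      exact Finset.prod_ne_zero_iff.2 fun i _ => hxP i
    rw [← lam_prod Finset.univ P κ₁ hx (fun i _ => hxP i) v, ← hsum]
    have e1 := lam_sub (L := K) (κ := κ) hx hxF v
    have e2 := lam_sub (L := K) (κ := κ) hx h0 v
    have hid : ∀ z : K, algebraMap K K z = z := fun z => rfl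
    simp only [hid] at e1 e2
    rw [e1, e2]
    have h3 := congrArg (fv v) hevF
    rw [map_mul, map_mul, hva, hvb, one_mul, one_mul, ← map_prod] at h3
    rw [h3]
  have hmemi : ∀ i, ∀ v ∈ good (P i) (G' i) (κ₁ i) (e + ∑ j ∈ Finset.univ.erase i, κ₁ j) B1 Q.rep,
      v ∉ B1 ∧ lam K (P i) (κ₁ i) Q.rep v = Real.log (Ideal.absNorm v.asIdeal) ∧
      0 < lam K (P i) (κ₁ i) Q.rep v ∧ lam K G e Q.rep v = 0 ∧
      ∀ j, j ≠ i → lam K (P j) (κ₁ j) Q.rep v = 0 := by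
    intro i v hv
    rw [mem_good hx (hxP i)] at hv
    obtain ⟨c1, c2, c3, c4⟩ := hv
    have h0 := (hQ' i).2.1
    rw [hG'] at c4 h0
    refine ⟨c2, c3, c1, ?_, fun j hj => ?_⟩
    · exact lam_factor hG (IsHomogeneous.prod _ _ _ fun j _ => hP j) hx h0 v c4
    · have hi : j ∈ Finset.univ.erase i := Finset.mem_erase.2 ⟨hj, Finset.mem_univ _⟩
      have e1 : G * ∏ l ∈ Finset.univ.erase i, P l =
          P j * (G * ∏ l ∈ (Finset.univ.erase i).erase j, P l) := by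
        rw [← Finset.mul_prod_erase _ _ hi]
        ring
      have e2 : e + ∑ l ∈ Finset.univ.erase i, κ₁ l =
          κ₁ j + (e + ∑ l ∈ (Finset.univ.erase i).erase j, κ₁ l) := by
        rw [← Finset.add_sum_erase _ _ hi]
        ring
      rw [e1, e2] at c4
      rw [e1] at h0
      exact lam_factor (hP j) (hG.mul (IsHomogeneous.prod _ _ _ fun j _ => hP j)) hx h0 v c4
  obtain ⟨V, hV⟩ : ∃ V : Fin l → Finset (HeightOneSpectrum (𝓞 K)), ∀ i, V i =
    good (P i) (G' i) (κ₁ i) (e + ∑ j ∈ Finset.univ.erase i, κ₁ j) B1 Q.rep := ⟨_, fun _ => rfl⟩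
  have hdisj : Set.PairwiseDisjoint ((Finset.univ : Finset (Fin l)) : Set (Fin l)) V := by
    intro i _ j _ hij
    show Disjoint (V i) (V j)
    refine Finset.disjoint_left.2 fun v hv hv' => ?_
    rw [hV] at hv hv'
    obtain ⟨-, -, -, -, c5⟩ := hmemi i v hv
    obtain ⟨-, -, c3, -, -⟩ := hmemi j v hv'
    rw [c5 j hij.symm] at c3
    exact lt_irrefl _ c3
  have hsub : Finset.univ.biUnion V ⊆ good F G κ e (badn K n₀) Q.rep := by
    intro v hv
    obtain ⟨i, -, hi⟩ := Finset.mem_biUnion.1 hv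
    rw [hV] at hi
    obtain ⟨c1, c2, c3, c4, c5⟩ := hmemi i v hi
    have h1 : lam K F κ Q.rep v = lam K (P i) (κ₁ i) Q.rep v := by
      rw [hlamF v c1]
      exact Finset.sum_eq_single i (fun j _ hj => c5 j hj) fun h => absurd (Finset.mem_univ i) h
    rw [mem_good hx hxF, h1, c4]
    refine ⟨c3, fun hc => c1 ?_, c2, lt_irrefl _⟩
    rw [hB1]
    exact Finset.mem_union_left _ hc
  have hlogn : ∀ v : HeightOneSpectrum (𝓞 K), 0 ≤ Real.log (Ideal.absNorm v.asIdeal : ℝ) :=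
    fun v => Real.log_natCast_nonneg _
  have h1 := Finset.sum_le_sum_of_subset_of_nonneg hsub fun v _ _ => hlogn v
  rw [Finset.sum_biUnion hdisj] at h1
  refine le_trans ?_ h1
  have h2 : ∑ i, ((κ₁ i : ℝ) - δ') * (finrank ℚ K * hgt Q.rep) ≤
      ∑ i, ∑ v ∈ V i, Real.log (Ideal.absNorm v.asIdeal : ℝ) := by
    refine Finset.sum_le_sum fun i _ => ?_
    rw [hV]
    exact (hQ' i).2.2
  refine le_trans ?_ h2
  rw [← Finset.sum_mul, Finset.sum_sub_distrib, Finset.sum_const, Finset.card_univ,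
    Fintype.card_fin, nsmul_eq_mul]
  refine mul_le_mul_of_nonneg_right ?_ (mul_nonneg (Nat.cast_nonneg _) (hgt0 _))
  have e1 : (κ : ℝ) = ∑ i, (κ₁ i : ℝ) := by
    rw [hsum]
    push_cast
    rfl
  have e2 : (l : ℝ) * δ' ≤ δ := by
    rw [hδ', ← mul_div_assoc, div_le_iff₀ (by positivity), mul_comm (l : ℝ)]
    exact mul_le_mul_of_nonneg_left (by linarith) hδ.le
  rw [e1]
  linarith

end Pool.Agent.D0H60.VDR
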