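import Mathlib

set_option autoImplicit false

/-!
Polynomials without common factor over a field have no common factor over a larger field.
-/

namespace Pool.Agent.D0H60.VDR

open MvPolynomial Module

section cop

variable {k K σ : Type} [Field k] [Field K] [Algebra k K] [FiniteDimensional k K]

/-- the components of a polynomial over `K` with respect to a basis over `k` -/
noncomputable def cmp (l : Fin (finrank k K)) (H : MvPolynomial σ K) : MvPolynomial σ k :=
  ∑ d ∈ H.support, monomial d ((finBasis k K).repr (coeff d H) l)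

lemma coeff_cmp (l : Fin (finrank k K)) (H : MvPolynomial σ K) (d : σ →₀ ℕ) :
    coeff d (cmp l H) = (finBasis k K).repr (coeff d H) l := by
  classical
  unfold cmp
  rw [coeff_sum]
  simp only [coeff_monomial]
  rw [Finset.sum_ite_eq']
  split_ifs with h
  · rfl
  · rw [MvPolynomial.notMem_support_iff] at h
    rw [h, map_zero]
    rfl

lemma cmp_mul (l : Fin (finrank k K)) (A : MvPolynomial σ k) (H : MvPolynomial σ K) :
    cmp l (map (algebraMap k K) A * H) = A * cmp l H := by
  classical
  ext d
  rw [coeff_cmp, coeff_mul, coeff_mul, map_sum, Finsupp.finsetSum_apply]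
  refine Finset.sum_congr rfl fun x _ => ?_
  rw [coeff_map, coeff_cmp, ← Algebra.smul_def, map_smul, Finsupp.smul_apply, smul_eq_mul]

lemma recon (H : MvPolynomial σ K) :
    H = ∑ l, C (finBasis k K l) * map (algebraMap k K) (cmp l H) := by
  classical
  ext d
  rw [coeff_sum]
  simp only [coeff_C_mul, coeff_map, coeff_cmp]
  conv_lhs => rw [← (finBasis k K).sum_repr (coeff d H)]
  refine Finset.sum_congr rfl fun l _ => ?_
  rw [Algebra.smul_def, mul_comm]

/-- **no common factors over the larger field** -/
theorem cop {F G : MvPolynomial σ k} (hF : Irreducible F) (hFG : ¬ F ∣ G) {P : MvPolynomial σ K}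
    (h1 : P ∣ map (algebraMap k K) F) (h2 : P ∣ map (algebraMap k K) G) : IsUnit P := by
  obtain ⟨Q, hQ⟩ := h1
  obtain ⟨R, hR⟩ := h2
  have e1 : map (algebraMap k K) G * Q = map (algebraMap k K) F * R := by
    rw [hQ, hR]
    ring
  have e2 : ∀ l : Fin (finrank k K), F ∣ cmp l Q := by
    intro l
    have e3 := congrArg (cmp l) e1
    rw [cmp_mul, cmp_mul] at e3
    have e4 : F ∣ G * cmp l Q := ⟨_, e3⟩
    exact (hF.prime.dvd_or_dvd e4).resolve_left hFG
  choose S hS using e2
  have e5 : Q = map (algebraMap k K) F * ∑ l, C (finBasis k K l) * map (algebraMap k K) (S l) := by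
    rw [Finset.mul_sum]
    conv_lhs => rw [recon (k := k) Q]
    refine Finset.sum_congr rfl fun l _ => ?_
    rw [hS l, map_mul]
    ring
  set T := ∑ l, C (finBasis k K l) * map (algebraMap k K) (S l) with hT
  have hF0 : map (algebraMap k K) F ≠ 0 := by
    intro h0
    exact hF.ne_zero ((MvPolynomial.map_injective _ (algebraMap k K).injective)
      (h0.trans (map_zero _).symm))
  have hQ0 : Q ≠ 0 := by
    rintro rfl
    rw [mul_zero] at hQ
    exact hF0 hQ
  have e6 : Q * (P * T) = Q * 1 := by
    rw [mul_one]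
    conv_rhs => rw [e5, hQ]
    ring
  exact IsUnit.of_mul_eq_one T (mul_left_cancel₀ hQ0 e6)

/-- irreducible forms are squarefree over the larger field -/
theorem sqf [CharZero k] {n κ : ℕ} {F : MvPolynomial (Fin n) k} (hh : F.IsHomogeneous κ)
    (hF : Irreducible F) : Squarefree (map (algebraMap k K) F) := by
  have hκ : κ ≠ 0 := by
    rintro rfl
    have hh := hh.totalDegree hF.ne_zero
    rw [totalDegree_eq_zero_iff_eq_C] at hh
    have h0 : coeff 0 F ≠ 0 := by
      intro h0
      rw [h0, C_0] at hh
      exact hF.ne_zero hh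
    apply hF.not_isUnit
    rw [hh]
    exact (isUnit_iff_ne_zero.2 h0).map C
  obtain ⟨i, hi⟩ : ∃ i, pderiv i F ≠ 0 := by
    by_contra hcon
    push Not at hcon
    have h1 := hh.sum_X_mul_pderiv
    rw [Finset.sum_eq_zero fun i _ => by rw [hcon i, mul_zero]] at h1
    rw [eq_comm, smul_eq_zero] at h1
    rcases h1 with h1 | h1
    · exact hκ h1
    · exact hF.ne_zero h1
  have hnd : ¬ F ∣ pderiv i F := by
    rintro ⟨H, hH⟩
    have hH0 : H ≠ 0 := by
      rintro rfl
      rw [mul_zero] at hH
      exact hi hH
    have h1 : (pderiv i F).totalDegree = F.totalDegree + H.totalDegree := by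
      rw [hH, totalDegree_mul_of_isDomain hF.ne_zero hH0]
    have h2 : F.totalDegree = κ := hh.totalDegree hF.ne_zero
    have h3 : (pderiv i F).totalDegree = κ - 1 := (hh.pderiv).totalDegree hi
    omega
  rintro x ⟨c, hc⟩
  refine cop hF hnd (P := x) ⟨x * c, by rw [hc]; ring⟩ ?_
  have h4 : map (algebraMap k K) (pderiv i F) = pderiv i (map (algebraMap k K) F) := by
    rw [pderiv_map]
  rw [h4, hc]
  refine ⟨2 * pderiv i x * c + x * pderiv i c, ?_⟩
  rw [pderiv_mul, pderiv_mul]
  ring

end cop

end Pool.Agent.D0H60.VDR
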