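import Pool.Agent.N752.HY.Unp
import Pool.Agent.D0H60.VDR.Cop
import Pool.Agent.D0H60.VDR.Aa

set_option autoImplicit false
set_option linter.unusedSectionVars false

/-!
# All covers of projective space, all points above almost all points of degree `r`
-/

namespace Pool.Agent.D0H60.VDR

open NumberField IsDedekindDomain MvPolynomial Module Height
open scoped LinearAlgebra.Projectivization
open Pool.Agent.Results.MP_44a246_nt.BoundedDegreeHyperplanes (height toC fieldOf alpha toC_inj)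
open Pool.Agent.N752.SU (spanDim Full DensityZero)
open Pool.Agent.N752.HY
open Pool.Agent.N753.AC (SheetsLE StmLOC StmRAM)
open Pool.Agent.N752.CP (good deh)
open Pool.Agent.R366.NF (idealHeight)

open Classical in
/-- the inequality at a point which meets the divisors mostly with multiplicity one -/
theorem concl {k : Type} [Field k] [NumberField k] {m : ℕ} (hRAM : StmRAM) (hLOC : StmLOC)
    (A : Type) [CommRing A] [IsDomain A] [IsIntegrallyClosed A]
    [Algebra (MvPolynomial (Fin m) k) A] [FaithfulSMul (MvPolynomial (Fin m) k) A]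
    [Module.Finite (MvPolynomial (Fin m) k) A]
    {r : ℕ} (F : Fin r → MvPolynomial (Fin (m + 1)) (𝓞 k)) (κ : Fin r → ℕ)
    (Y : Fin r → Finset A) (s : Fin r → ℕ) (h1 : ∀ j, (F j).IsHomogeneous (κ j))
    (h2 : ∀ j, Irreducible (map (algebraMap (𝓞 k) k) (F j)))
    (h3 : ∀ j, Irreducible (deh (F j)))
    (h4 : ∀ i j, i ≠ j →
      ¬ Associated (map (algebraMap (𝓞 k) k) (F i)) (map (algebraMap (𝓞 k) k) (F j)))
    (h6 : ∀ j, SheetsLE A (deh (F j)) (Y j) (s j))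
    (h7 : ∀ j, s j ≤ Module.finrank (MvPolynomial (Fin m) k) A) :
    ∃ (G : Fin r → MvPolynomial (Fin (m + 1)) (𝓞 k)) (e : Fin r → ℕ) (n₀ : ℕ), n₀ ≠ 0 ∧
      (∀ j, (G j).IsHomogeneous (e j)) ∧
      (∀ j, ¬ map (algebraMap (𝓞 k) k) (F j) ∣ map (algebraMap (𝓞 k) k) (G j)) ∧
      ∀ (M Λ : ℕ) (ε δ : ℝ), 0 ≤ δ → δ * (r + M + 1) ≤ ε →
      ∀ (K : Type) [Field K] [NumberField K] (ι : k →+* K) (x : Fin (m + 1) → K) (P I : ℝ),
        x 0 ≠ 0 →
        (∀ j, aeval x (up ι (F j)) ≠ 0 ∧ aeval x (up ι (G j)) ≠ 0 ∧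
          ((κ j : ℝ) - δ) * (finrank ℚ K * hgt x) ≤
            ∑ v ∈ good (up ι (F j)) (up ι (G j)) (κ j) (e j) (badn K n₀) x,
              Real.log (Ideal.absNorm v.asIdeal)) →
        P ≤ δ * hgt x → Λ * I ≤ δ * hgt x →
        ∀ (L : Type) [Field L] [NumberField L] [Algebra K L] (ψ : A →+* L),
          Function.Surjective ψ →
          Module.finrank K L = Module.finrank (MvPolynomial (Fin m) k) A →
          (∀ f : MvPolynomial (Fin m) k, ψ (algebraMap (MvPolynomial (Fin m) k) A f) =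
            algebraMap K L (eval₂ ι (fun i => x i.succ / x 0) f)) →
          ((∑ j, (1 - (s j : ℝ) / Module.finrank (MvPolynomial (Fin m) k) A) * κ j) - ε) *
              hgt x + M * P + Λ * I ≤
            (∑ᶠ w : HeightOneSpectrum (𝓞 L), if HitI (fun j => deh (F j)) Y ι
              (fun i => x i.succ / x 0) ψ w then
                Real.log (Ideal.absNorm w.asIdeal) else 0) / finrank ℚ L + ldisc L := by
  obtain ⟨G, e, n₀, k0, k1, k2, k3⟩ := cover hRAM hLOC A F κ Y s h1 h2 h3 h4 h6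
  refine ⟨G, e, n₀, k0, k1, k2, ?_⟩
  intro M Λ ε δ hδ hδε K _ _ ι x P I hx0 hgood hP hI L _ _ _ ψ hsurj hfr hcomp
  have hmain := k3 K ι x hx0 (fun j => (hgood j).1) (fun j => (hgood j).2.1) L ψ hsurj hfr hcomp
  obtain ⟨TR, hTR⟩ : ∃ TR : ℝ, TR = ∑ᶠ w : HeightOneSpectrum (𝓞 L), if HitI (fun j => deh (F j)) Y ι
    (fun i => x i.succ / x 0) ψ w then
      Real.log (Ideal.absNorm w.asIdeal : ℝ) else 0 := ⟨_, rfl⟩
  rw [← hTR] at hmain ⊢
  obtain ⟨n, hn⟩ : ∃ n : ℝ, n = finrank ℚ K := ⟨_, rfl⟩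
  have hn0 : 0 < n := by
    rw [hn]
    exact_mod_cast (finrank_pos (R := ℚ) (M := K))
  obtain ⟨N, hN⟩ : ∃ N : ℝ, N = Module.finrank (MvPolynomial (Fin m) k) A := ⟨_, rfl⟩
  have hfrN : (Module.finrank K L : ℝ) = N := by
    rw [hN]
    exact_mod_cast hfr
  have hN0 : 0 < N := by
    rw [← hfrN]
    exact_mod_cast Module.finrank_pos
  have htow : (finrank ℚ L : ℝ) = n * N := by
    rw [hn, ← hfrN]
    exact_mod_cast (Module.finrank_mul_finrank ℚ K L).symm
  rw [hfrN] at hmain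
  rw [← hN]
  have hh0 : 0 ≤ hgt x := hgt0 _
  have hq : ∀ j, 0 ≤ 1 - (s j : ℝ) / N ∧ 1 - (s j : ℝ) / N ≤ 1 := by
    intro j
    have h3 : (s j : ℝ) ≤ N := by
      rw [hN]
      exact_mod_cast h7 j
    have h6 : (0 : ℝ) ≤ s j := Nat.cast_nonneg _
    constructor
    · rw [sub_nonneg]
      exact div_le_one_of_le₀ h3 hN0.le
    · have := div_nonneg h6 hN0.le
      linarith
  -- the components
  have hc : ∀ j, (1 - (s j : ℝ) / N) * (κ j : ℝ) * hgt x - δ * hgt x ≤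
      ((N - s j) * ∑ v ∈ good (up ι (F j)) (up ι (G j)) (κ j) (e j) (badn K n₀) x,
        Real.log (Ideal.absNorm v.asIdeal)) / (n * N) := by
    intro j
    obtain ⟨S, hS⟩ : ∃ S : ℝ, S = ∑ v ∈ good (up ι (F j)) (up ι (G j)) (κ j) (e j) (badn K n₀) x,
        Real.log (Ideal.absNorm v.asIdeal : ℝ) := ⟨_, rfl⟩
    have e1 := (hgood j).2.2
    rw [← hS, ← hn] at e1
    rw [← hS]
    have e2 : ((κ j : ℝ) - δ) * hgt x ≤ S / n := by
      rw [le_div_iff₀ hn0]
      linarith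
    have e3 := mul_le_mul_of_nonneg_left e2 (hq j).1
    have e4 : (1 - (s j : ℝ) / N) * (S / n) = ((N - s j) * S) / (n * N) := by
      field_simp
    rw [e4] at e3
    have e5 : (1 - (s j : ℝ) / N) * (δ * hgt x) ≤ δ * hgt x :=
      mul_le_of_le_one_left (mul_nonneg hδ hh0) (hq j).2
    have e6 : (1 - (s j : ℝ) / N) * (((κ j : ℝ) - δ) * hgt x) =
        (1 - (s j : ℝ) / N) * (κ j : ℝ) * hgt x - (1 - (s j : ℝ) / N) * (δ * hgt x) := by ring
    rw [e6] at e3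
    linarith
  have hsum := Finset.sum_le_sum fun j (_ : j ∈ (Finset.univ : Finset (Fin r))) => hc j
  rw [Finset.sum_sub_distrib, ← Finset.sum_mul, Finset.sum_const, Finset.card_univ,
    Fintype.card_fin, nsmul_eq_mul, ← Finset.sum_div] at hsum
  have hm2 : (∑ j, (N - s j) * ∑ v ∈ good (up ι (F j)) (up ι (G j)) (κ j) (e j) (badn K n₀) x,
      Real.log (Ideal.absNorm v.asIdeal)) / (n * N) ≤
        TR / (n * N) + Real.log |(discr L : ℝ)| / (n * N) := by
    rw [← add_div]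
    refine div_le_div_of_nonneg_right ?_ (mul_pos hn0 hN0).le
    linarith
  unfold ldisc
  rw [htow]
  have i3 : (M : ℝ) * P ≤ M * (δ * hgt x) := mul_le_mul_of_nonneg_left hP (Nat.cast_nonneg _)
  have i4 : δ * (r + M + 1) * hgt x ≤ ε * hgt x := mul_le_mul_of_nonneg_right hδε hh0
  have i5 : δ * (r + M + 1) * hgt x = r * (δ * hgt x) + M * (δ * hgt x) + δ * hgt x := by ring
  rw [i5] at i4
  rw [sub_mul]
  linarith

/-! ### One exceptional set -/

variable {m : ℕ}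

/-- the data: `F`, `G`, the degrees, an integer, the error -/
abbrev Dt (k : IntermediateField ℚ ℂ) (m : ℕ) : Type :=
  (MvPolynomial (Fin (m + 1)) (𝓞 k) × MvPolynomial (Fin (m + 1)) (𝓞 k)) × (ℕ × ℕ) × ℕ × ℕ

/-- the conditions on the data -/
def AdG (k : IntermediateField ℚ ℂ) [NumberField k] (F G : MvPolynomial (Fin (m + 1)) (𝓞 k))
    (κ e n₀ : ℕ) : Prop :=
  F.IsHomogeneous κ ∧ G.IsHomogeneous e ∧ Irreducible (map (algebraMap (𝓞 k) k) F) ∧
    ¬ map (algebraMap (𝓞 k) k) F ∣ map (algebraMap (𝓞 k) k) G ∧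
    (κ ≤ 2 ∨ Lines (cx F) κ) ∧ n₀ ≠ 0

/-- the point meets `F = 0` mostly with multiplicity one, outside `G = 0` -/
def GdP (k : IntermediateField ℚ ℂ) [NumberField k] (m : ℕ) (i : Dt k m) : PropK k m :=
  fun K _ h Q => AdG k i.1.1 i.1.2 i.2.1.1 i.2.1.2 i.2.2.1 →
    aeval Q.rep (upK h i.1.1) ≠ 0 ∧ aeval Q.rep (upK h i.1.2) ≠ 0 ∧
      ((i.2.1.1 : ℝ) - 1 / ((i.2.2.2 : ℝ) + 1)) * (finrank ℚ K * hgt Q.rep) ≤
        ∑ v ∈ good (upK h i.1.1) (upK h i.1.2) i.2.1.1 i.2.1.2 (badn K i.2.2.1) Q.rep,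
          Real.log (Ideal.absNorm v.asIdeal)

lemma map_upK {k K : IntermediateField ℚ ℂ} [NumberField k] [NumberField K] (h : k ≤ K)
    (F : MvPolynomial (Fin (m + 1)) (𝓞 k)) :
    map (algebraMap (𝓞 K) K) (upK h F) =
      map (IntermediateField.inclusion h).toRingHom (map (algebraMap (𝓞 k) k) F) := by
  unfold upK
  rw [MvPolynomial.map_map, MvPolynomial.map_map]
  rfl

theorem aap_good (k : IntermediateField ℚ ℂ) [NumberField k] (n : ℕ) (hnm : 3 ≤ n * (m + 1))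
    (i : Dt k m) : AAP k n (GdP k m i) := by
  obtain ⟨⟨F, G⟩, ⟨κ, e⟩, n₀, N⟩ := i
  intro K hK h hKn
  by_cases hg : AdG k F G κ e n₀
  swap
  · exact AA.triv.mono fun Q _ h1 => absurd h1 hg
  obtain ⟨g1, g2, g3, g4, g5, g6⟩ := id hg
  letI : Algebra k K := (IntermediateField.inclusion h).toRingHom.toAlgebra
  have hst : IsScalarTower ℚ k K := IsScalarTower.of_algebraMap_eq fun x => by
    apply Subtype.ext
    show ((algebraMap ℚ K x : K) : ℂ) = ((algebraMap ℚ k x : k) : ℂ)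
    simp
  have hfd : FiniteDimensional k K := FiniteDimensional.right ℚ k K
  have hal : algebraMap k K = (IntermediateField.inclusion h).toRingHom := rfl
  have hF0 : F ≠ 0 := by
    rintro rfl
    exact g3.ne_zero (map_zero _)
  have hG0 : G ≠ 0 := by
    rintro rfl
    apply g4
    rw [map_zero]
    exact dvd_zero _
  have key := good_sqf (K := K) (m := m) (algebraMap K ℂ) (by rw [hKn]; exact hnm)
    (F := upK h F) (G := upK h G) (κ := κ) (e := e) (g1.map _) (g2.map _) (upK_ne h hF0)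
    (upK_ne h hG0) (by
      rw [map_upK, ← hal]
      exact sqf (g1.map _) g3) (by
      intro P h1 h2
      rw [map_upK, ← hal] at h1 h2
      exact cop g3 g4 h1 h2) (by
      refine g5.imp id fun hL => ?_
      rw [← cx_upK h] at hL
      exact hL) n₀ g6 (δ := 1 / ((N : ℝ) + 1)) (by positivity)
  exact key.mono fun Q hQ _ => hQ

/-- **one exceptional set for all covers** -/
theorem main6 (hRAM : StmRAM) (hLOC : StmLOC) : ∀ η : ℝ, 0 < η → ∃ c₀ : ℝ, 1 ≤ c₀ ∧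
    ∀ (k : IntermediateField ℚ ℂ) [NumberField k] (m r n : ℕ), 1 ≤ m → 1 ≤ r →
      n = r * finrank ℚ k →
      (2 ≤ n → n + 1 ≤ m → 2 * alpha n c₀ η < m) ∧
      ((r = 1 ∧ 3 ≤ n * (m + 1)) ∨ (2 ≤ n ∧ 2 * alpha n c₀ η < m ∧ r ≤ m + 1) →
        ∃ E₀ : Set (ℙ ℂ (Fin (m + 1) → ℂ)), DensityZero (Full k m r) E₀ ∧
          ((r ≤ 2 ∨ (r : ℝ) * (r - 1) * (2 * alpha n c₀ η + 1) + r ≤ m + 1) →
            DensityZero (All k m r) (E₀ ∪ {P | spanDim k P ≠ r})) ∧
          ∀ (A : Type) [CommRing A] [IsDomain A] [IsIntegrallyClosed A]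
            [Algebra (MvPolynomial (Fin m) k) A] [FaithfulSMul (MvPolynomial (Fin m) k) A]
            [Module.Finite (MvPolynomial (Fin m) k) A]
            (q : ℕ) (F : Fin q → MvPolynomial (Fin (m + 1)) (𝓞 k)) (κ : Fin q → ℕ)
            (Y : Fin q → Finset A) (s : Fin q → ℕ),
            (∀ j, (F j).IsHomogeneous (κ j)) →
            (∀ j, Irreducible (map (algebraMap (𝓞 k) k) (F j))) →
            (∀ j, Irreducible (deh (F j))) →
            (∀ i j, i ≠ j →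
              ¬ Associated (map (algebraMap (𝓞 k) k) (F i)) (map (algebraMap (𝓞 k) k) (F j))) →
            (∀ j, κ j ≤ 2 ∨ Lines (cx (F j)) (κ j)) →
            (∀ j, SheetsLE A (deh (F j)) (Y j) (s j)) →
            (∀ j, s j ≤ Module.finrank (MvPolynomial (Fin m) k) A) →
            ∀ (d : ℕ) (R : MvPolynomial (Fin (m + 1)) (𝓞 k)), R.IsHomogeneous d → R ≠ 0 →
            ∀ S' : Finset ℕ, (∀ p ∈ S', p.Prime) →
            ∀ (t : ℕ) (F' G' : Fin t → MvPolynomial (Fin (m + 1)) (𝓞 k)) (κ' ε' : Fin t → ℕ),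
            (∀ l, (F' l).IsHomogeneous (κ' l)) → (∀ l, (G' l).IsHomogeneous (ε' l)) →
            (∀ l, Irreducible (cx (F' l))) → (∀ l, ¬ cx (F' l) ∣ cx (G' l)) →
            ∀ (M Λ : ℕ) (ε : ℝ), 0 < ε → ∃ T : ℝ,
            ∀ (K : IntermediateField ℚ ℂ) (_ : NumberField K) (h : k ≤ K)
              (Q : ℙ K (Fin (m + 1) → K)), fieldOf k (toC Q) = K → toC Q ∉ E₀ → T < height Q →
              Q.rep 0 ≠ 0 ∧ (∀ j, aeval Q.rep (upK h (F j)) ≠ 0) ∧ aeval Q.rep (upK h R) ≠ 0 ∧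
              ∀ (L : Type) [Field L] [NumberField L] [Algebra K L] (ψ : A →+* L),
                Function.Surjective ψ →
                Module.finrank K L = Module.finrank (MvPolynomial (Fin m) k) A →
                (∀ f : MvPolynomial (Fin m) k, ψ (algebraMap (MvPolynomial (Fin m) k) A f) =
                  algebraMap K L (eval₂ (IntermediateField.inclusion h).toRingHom
                    (fun i => Q.rep i.succ / Q.rep 0) f)) →
                ((∑ j, (1 - (s j : ℝ) / Module.finrank (MvPolynomial (Fin m) k) A) * κ j) - ε) *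
                    height Q + M * prox K S' (upK h R) d Q.rep +
                    Λ * ((∑ l, idealHeight (upK h (F' l)) (upK h (G' l)) (κ' l) (ε' l) Q.rep) /
                      finrank ℚ K) ≤
                  (∑ᶠ w : HeightOneSpectrum (𝓞 L), open Classical in
                    if HitI (fun j => deh (F j)) Y (IntermediateField.inclusion h).toRingHom
                      (fun i => Q.rep i.succ / Q.rep 0) ψ w then
                      Real.log (Ideal.absNorm w.asIdeal) else 0) / finrank ℚ L + ldisc L) := by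
  classical
  intro η hη
  obtain ⟨c₀, hc₀, hα⟩ := Pool.Agent.W223.VD.Points.alpha_admissible hη
  refine ⟨c₀, hc₀, ?_⟩
  intro k _ m r n hm hr hn
  refine ⟨fun hn2 hmn => Pool.Agent.N752.SU.alpha_lt hn2 hmn _ _, ?_⟩
  intro hcase
  have hrm : r ≤ m + 1 := by
    rcases hcase with ⟨h1, -⟩ | ⟨-, -, h1⟩
    · omega
    · exact h1
  have hnm : 3 ≤ n * (m + 1) := by
    rcases hcase with ⟨-, h1⟩ | ⟨hn2, hmα, -⟩
    · exact h1
    · obtain ⟨hα1, hF⟩ := hα n hn2
      have hm2 : 2 ≤ m := by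
        have hα1' : 1 ≤ alpha n c₀ η := hα1
        have h1 : (2 : ℝ) < m := by linarith
        have h2 : 2 < m := by exact_mod_cast h1
        omega
      calc 3 ≤ 2 * (2 + 1) := by norm_num
        _ ≤ n * (m + 1) := Nat.mul_le_mul hn2 (by omega)
  have hcov : Cov k m r n := by
    rcases hcase with ⟨h1, -⟩ | ⟨hn2, hmα, -⟩
    · subst h1
      rw [hn, one_mul]
      exact cov_one k m
    · obtain ⟨hα1, hF⟩ := hα n hn2
      exact cov_alpha s_pts k hm r n hn hn2 hα1 hF hmα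
  obtain ⟨E₀, hE₀, hall⟩ := universal3 s_low s_fld k hm r n hn hnm hr hrm hcov
  obtain ⟨E₁, hE₁, hprx⟩ := univ_prx Unp.t_UNP Pl1.t_PL1 Pl2.t_PL2 k hm r n hn hr hrm hcov
  have hcount := countable_poly k m
  have hne : Nonempty (Dt k m) := ⟨((0, 0), (0, 0), 0, 0)⟩
  obtain ⟨E₂, hE₂, hgd⟩ := Unp.t_UNP k m r n hm hn hr hrm hcov (Dt k m) (GdP k m)
    fun i => aap_good k n hnm i
  have hE01 : DensityZero (Full k m r) (E₀ ∪ E₁) := dz_union hcov.1 hE₀ hE₁
  have hE : DensityZero (Full k m r) ((E₀ ∪ E₁) ∪ E₂) := dz_union hcov.1 hE01 hE₂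
  refine ⟨(E₀ ∪ E₁) ∪ E₂, hE, fun hcond => ?_, ?_⟩
  · rcases hcase with ⟨h1, -⟩ | ⟨hn2, hmα, -⟩
    · subst h1
      exact dens_one k hE
    · obtain ⟨hα1, hF⟩ := hα n hn2
      exact dens_all k hm r n hn hn2 hr hrm hα1 hF hmα hE hcond
  intro A _ _ _ _ _ _ q F κ Y s h1 h2 h3 h4 h5 h6 h7 d R hR hR0 S' hS' t F' G' κ' ε' g1 g2 g3 g4
    M Λ ε hε
  obtain ⟨G, e, n₀, k0, k1, k2, k3⟩ := concl hRAM hLOC A F κ Y s h1 h2 h3 h4 h6 h7
  obtain ⟨N, hN⟩ : ∃ N : ℕ, 1 / ((N : ℝ) + 1) < ε / (q + M + 1) :=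
    exists_nat_one_div_lt (by positivity)
  obtain ⟨δ, hδ⟩ : ∃ δ : ℝ, δ = 1 / ((N : ℝ) + 1) := ⟨_, rfl⟩
  have hδ0 : 0 < δ := by rw [hδ]; positivity
  have hδε : δ * (q + M + 1) ≤ ε := by
    rw [← hδ, lt_div_iff₀ (by positivity)] at hN
    exact hN.le
  -- the components
  choose T₁ hT₁ using fun j => hgd ((F j, G j), (κ j, e j), n₀, N)
  -- the ideals
  have hAdm : Adm k (fun i : Fin 0 => (i.elim0 : MvPolynomial (Fin (m + 1)) (𝓞 k)))
      (fun i : Fin 0 => (i.elim0 : ℕ)) F' G' κ' ε' := by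
    refine ⟨fun i => i.elim0, ?_, g1, g2, g3, g4⟩
    rw [Finset.univ_eq_empty, Finset.prod_empty]
    exact squarefree_one
  have hw0 : wsum (fun i : Fin 0 => (i.elim0 : MvPolynomial (Fin (m + 1)) (𝓞 k)))
      (fun i : Fin 0 => (i.elim0 : ℕ)) = 0 := by
    unfold wsum
    rw [Finset.univ_eq_empty, Finset.sum_empty]
  obtain ⟨T₂, hT₂⟩ := hall 0 t _ _ F' G' κ' ε' hAdm Λ (-δ) (by rw [hw0]; linarith)
  obtain ⟨T₃, hT₃⟩ := hprx R d hR hR0 S' hS' δ hδ0
  obtain ⟨T₅, hT₅⟩ := hprx (X 0) 1 (isHomogeneous_X _ _) (X_ne_zero _) ∅ (by simp) 1 one_pos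
  refine ⟨∑ j, |T₁ j| + |T₂| + |T₃| + |T₅|, fun K hK h Q hf hQE hTQ => ?_⟩
  rw [Set.mem_union, Set.mem_union, not_or, not_or] at hQE
  obtain ⟨⟨hQ0, hQ1⟩, hQ2⟩ := hQE
  have p2 : 0 ≤ ∑ j, |T₁ j| := Finset.sum_nonneg fun j _ => abs_nonneg _
  have p4 := abs_nonneg T₂
  have p5 := abs_nonneg T₃
  have p6 := abs_nonneg T₅
  have p7 := le_abs_self T₂
  have p8 := le_abs_self T₃
  have p9 := le_abs_self T₅
  have c1 : ∀ j, aeval Q.rep (upK h (F j)) ≠ 0 ∧ aeval Q.rep (upK h (G j)) ≠ 0 ∧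
      ((κ j : ℝ) - δ) * (finrank ℚ K * hgt Q.rep) ≤
        ∑ v ∈ good (upK h (F j)) (upK h (G j)) (κ j) (e j) (badn K n₀) Q.rep,
          Real.log (Ideal.absNorm v.asIdeal) := by
    intro j
    have a1 := Finset.single_le_sum (f := fun j => |T₁ j|) (fun j _ => abs_nonneg _)
      (Finset.mem_univ j)
    have a2 := le_abs_self (T₁ j)
    have a3 := hT₁ j K hK h Q hf hQ2 (by linarith) ⟨h1 j, k1 j, h2 j, k2 j, h5 j, k0⟩
    rw [hδ]
    exact a3
  have c2 := hT₂ K hK h Q hf hQ0 (by linarith)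
  obtain ⟨c3, c4⟩ := hT₃ K hK h Q hf hQ1 (by linarith)
  have c5 := (hT₅ K hK h Q hf hQ1 (by linarith)).1
  have c6 : Q.rep 0 ≠ 0 := by
    have e1 : upK h (X 0 : MvPolynomial (Fin (m + 1)) (𝓞 k)) = X 0 := map_X _ _
    rw [e1, aeval_X] at c5
    exact c5
  have c7 : (Λ : ℝ) * ((∑ l, idealHeight (upK h (F' l)) (upK h (G' l)) (κ' l) (ε' l) Q.rep) /
      finrank ℚ K) ≤ δ * hgt Q.rep := by
    obtain ⟨-, d2⟩ := c2
    have d3 := ovl_nonneg (fun j : Fin 0 => upK h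
      ((fun i : Fin 0 => (i.elim0 : MvPolynomial (Fin (m + 1)) (𝓞 k))) j))
      (fun i : Fin 0 => (i.elim0 : ℕ)) Q.rep
    have d4 : cnt K ∅ (fun j : Fin 0 => upK h
        ((fun i : Fin 0 => (i.elim0 : MvPolynomial (Fin (m + 1)) (𝓞 k))) j))
        (fun i : Fin 0 => (i.elim0 : ℕ)) Finset.univ Q.rep = 0 := by
      unfold cnt
      rw [finsum_eq_zero_of_forall_eq_zero, zero_div]
      intro w
      refine if_neg ?_
      rintro ⟨-, i, -⟩
      exact i.elim0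
    linarith
  refine ⟨c6, fun j => (c1 j).1, c3, ?_⟩
  intro L _ _ _ ψ hsurj hfr hcomp
  have hfin := k3 M Λ ε δ hδ0.le hδε K (IntermediateField.inclusion h).toRingHom Q.rep
    (prox K S' (upK h R) d Q.rep)
    ((∑ l, idealHeight (upK h (F' l)) (upK h (G' l)) (κ' l) (ε' l) Q.rep) / finrank ℚ K)
    c6 c1 c4 c7 L ψ hsurj hfr hcomp
  rw [← hgt_eq]
  exact hfin

end Pool.Agent.D0H60.VDR
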