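import Pool.Agent.D0H60.VDR.Nrm

set_option autoImplicit false

/-!
# Specialisation at the prime divisors of a cover
-/

namespace Pool.Agent.D0H60.VDR

open NumberField IsDedekindDomain
open Pool.Agent.N459.AC (mem_Ow Ow mem_of_monic above)

section alg

variable {R A : Type} [CommRing R] [CommRing A] [Algebra R A] [Algebra.IsIntegral R A]

theorem exists_coeff {𝔮 : Ideal A} [𝔮.IsPrime] {c : A} (hc : c ∉ 𝔮) :
    ∃ g : R, g ∉ 𝔮.comap (algebraMap R A) ∧ ∃ b y : A, y ∈ 𝔮 ∧ algebraMap R A g = b * c + y := by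
  have h1 : 𝔮.comap (algebraMap R A) < (𝔮 ⊔ Ideal.span {c}).comap (algebraMap R A) :=
    Ideal.comap_lt_comap_of_integral_mem_sdiff le_sup_left
      ⟨Ideal.mem_sup_right (Ideal.mem_span_singleton_self c), hc⟩
      (Algebra.IsIntegral.isIntegral c)
  obtain ⟨g, hg1, hg2⟩ := SetLike.exists_of_lt h1
  refine ⟨g, hg2, ?_⟩
  obtain ⟨y, hy, z, hz, h⟩ := Submodule.mem_sup.1 (Ideal.mem_comap.1 hg1)
  obtain ⟨b, rfl⟩ := Ideal.mem_span_singleton'.1 hz
  exact ⟨b, y, hy, by rw [← h, add_comm]⟩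

theorem exists_notMem {𝔮 𝔮' : Ideal A} [𝔮'.IsPrime] (hne : 𝔮 ≠ 𝔮')
    (hcomap : 𝔮.comap (algebraMap R A) = 𝔮'.comap (algebraMap R A)) : ∃ c ∈ 𝔮', c ∉ 𝔮 := by
  by_contra hcon
  push Not at hcon
  have hle : 𝔮' ≤ 𝔮 := hcon
  obtain ⟨x, hx1, hx2⟩ := SetLike.exists_of_lt (lt_of_le_of_ne hle hne.symm)
  have := Ideal.comap_lt_comap_of_integral_mem_sdiff hle ⟨hx1, hx2⟩
    (Algebra.IsIntegral.isIntegral (R := R) x)
  rw [hcomap] at this
  exact lt_irrefl _ this

end alg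

/-- the maximum of the values on a finite set of generators with weights -/
noncomputable def mx {A : Type} (S : Finset (ℕ × A)) (f : A → ℝ) : ℝ :=
  ⨆ a : {a // a ∈ S}, f a.1.2

lemma le_mx {A : Type} {S : Finset (ℕ × A)} (f : A → ℝ) {a : ℕ × A} (ha : a ∈ S) :
    f a.2 ≤ mx S f :=
  le_ciSup (f := fun a : {a // a ∈ S} => f a.1.2) (Set.finite_range _).bddAbove ⟨a, ha⟩

lemma mx_nonneg {A : Type} (S : Finset (ℕ × A)) {f : A → ℝ} (hf : ∀ a, 0 ≤ f a) : 0 ≤ mx S f :=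
  Real.iSup_nonneg fun _ => hf _

lemma mx_lt {A : Type} {S : Finset (ℕ × A)} {f : A → ℝ} {c : ℝ} (hc : 0 < c)
    (h : ∀ a ∈ S, f a.2 < c) : mx S f < c := by
  rcases isEmpty_or_nonempty {a // a ∈ S} with he | he
  · unfold mx
    rw [Real.iSup_of_isEmpty]
    exact hc
  · obtain ⟨a, ha⟩ := exists_eq_ciSup_of_finite (f := fun a : {a // a ∈ S} => f a.1.2)
    unfold mx
    rw [← ha]
    exact h _ a.2

lemma exists_mx {A : Type} {S : Finset (ℕ × A)} (hS : S.Nonempty) (f : A → ℝ) :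
    ∃ a ∈ S, mx S f = f a.2 := by
  have : Nonempty {a // a ∈ S} := ⟨⟨hS.choose, hS.choose_spec⟩⟩
  obtain ⟨a, ha⟩ := exists_eq_ciSup_of_finite (f := fun a : {a // a ∈ S} => f a.1.2)
  exact ⟨a.1, a.2, ha.symm⟩

section sp

variable {k : Type} [Field k] [NumberField k] {m : ℕ} {A : Type} [CommRing A]
  [Algebra (MvPolynomial (Fin m) k) A]

/-- the values of `y` are at most the `e`-th power of the maximum of the values on `S` -/
def ABd (S : Finset (ℕ × A)) (e : ℕ) (y : A) : PrP k := fun K _ _ ι v =>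
  ∀ (L : Type) [Field L] [NumberField L] [Algebra K L] (φ : A →+* L) (x : Fin m → K),
    (∀ f : MvPolynomial (Fin m) k, φ (algebraMap (MvPolynomial (Fin m) k) A f) =
      algebraMap K L (MvPolynomial.eval₂ ι x f)) → (∀ i, FinitePlace.mk v (x i) ≤ 1) →
    ∀ w : HeightOneSpectrum (𝓞 L), v.asIdeal.map (algebraMap (𝓞 K) (𝓞 L)) ≤ w.asIdeal →
      FinitePlace.mk w (φ y) ≤ mx S (fun a => FinitePlace.mk w (φ a)) ^ e

lemma abd_add {S : Finset (ℕ × A)} {e : ℕ} {y z : A} (hy : Ev (ABd (k := k) (m := m) S e y))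
    (hz : Ev (ABd (k := k) (m := m) S e z)) : Ev (ABd (k := k) (m := m) S e (y + z)) := by
  refine (hy.and hz).mono ?_
  intro K _ _ ι v hv L _ _ _ φ x hφ hx w hw
  rw [map_add]
  exact (FinitePlace.add_le _ _ _).trans (max_le (hv.1 L φ x hφ hx w hw) (hv.2 L φ x hφ hx w hw))

lemma abd_span [Algebra.IsIntegral (MvPolynomial (Fin m) k) A] {S : Finset (ℕ × A)} {y : A}
    (hy : y ∈ Ideal.span (Prod.snd '' (S : Set (ℕ × A)))) :
    Ev (ABd (k := k) (m := m) S 1 y) := by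
  induction hy using Submodule.span_induction with
  | mem y hy =>
    obtain ⟨a, ha, rfl⟩ := hy
    refine ⟨1, one_ne_zero, ?_⟩
    intro K _ _ ι v _ L _ _ _ φ x hφ hx w hw
    rw [pow_one]
    exact le_mx (fun a => FinitePlace.mk w (φ a)) ha
  | zero =>
    refine ⟨1, one_ne_zero, ?_⟩
    intro K _ _ ι v _ L _ _ _ φ x hφ hx w hw
    rw [map_zero, map_zero, pow_one]
    exact mx_nonneg S fun a => apply_nonneg _ _
  | add y z _ _ hy hz => exact abd_add hy hz
  | smul c y _ hy =>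
    refine (hy.and (ev_int (k := k) (m := m) (Algebra.IsIntegral.isIntegral c))).mono ?_
    intro K _ _ ι v hv L _ _ _ φ x hφ hx w hw
    rw [smul_eq_mul, map_mul, map_mul]
    have h1 := hv.1 L φ x hφ hx w hw
    have h2 := hv.2 L φ x hφ hx w hw
    exact (mul_le_of_le_one_left (apply_nonneg _ _) h2).trans h1

lemma abd_pow [Algebra.IsIntegral (MvPolynomial (Fin m) k) A] {S : Finset (ℕ × A)} (e : ℕ) :
    ∀ {y : A}, y ∈ Ideal.span (Prod.snd '' (S : Set (ℕ × A))) ^ e →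
      Ev (ABd (k := k) (m := m) S e y) := by
  induction e with
  | zero =>
    intro y _
    refine (ev_int (k := k) (m := m) (Algebra.IsIntegral.isIntegral y)).mono ?_
    intro K _ _ ι v hv L _ _ _ φ x hφ hx w hw
    rw [pow_zero]
    exact hv L φ x hφ hx w hw
  | succ e ih =>
    intro y hy
    rw [pow_succ] at hy
    induction hy using Submodule.mul_induction_on' with
    | mem_mul_mem y hy z hz =>
      refine ((ih hy).and (abd_span (k := k) (m := m) hz)).mono ?_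
      intro K _ _ ι v hv L _ _ _ φ x hφ hx w hw
      have h1 := hv.1 L φ x hφ hx w hw
      have h2 := hv.2 L φ x hφ hx w hw
      rw [map_mul, map_mul, pow_succ]
      rw [pow_one] at h2
      exact mul_le_mul h1 h2 (apply_nonneg _ _)
        (pow_nonneg (mx_nonneg S fun a => apply_nonneg _ _) _)
    | add y _ z _ hy hz => exact abd_add hy hz

/-- **one prime divisor** -/
theorem loc1 [Algebra.IsIntegral (MvPolynomial (Fin m) k) A] {𝔮 : Ideal A} [𝔮.IsPrime]
    {S : Finset (ℕ × A)} (hS : Ideal.span (Prod.snd '' (S : Set (ℕ × A))) = 𝔮) {F : A} {a : A}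
    {e : ℕ} (ha : a ∉ 𝔮) (haF : a * F ∈ 𝔮 ^ e) :
    ∃ g : MvPolynomial (Fin m) k, g ∉ 𝔮.comap (algebraMap (MvPolynomial (Fin m) k) A) ∧
      Ev (k := k) fun K _ _ ι v => ∀ (L : Type) [Field L] [NumberField L] [Algebra K L]
        (φ : A →+* L) (x : Fin m → K),
        (∀ f : MvPolynomial (Fin m) k, φ (algebraMap (MvPolynomial (Fin m) k) A f) =
          algebraMap K L (MvPolynomial.eval₂ ι x f)) → (∀ i, FinitePlace.mk v (x i) ≤ 1) →
        FinitePlace.mk v (MvPolynomial.eval₂ ι x g) = 1 →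
        ∀ w : HeightOneSpectrum (𝓞 L), v.asIdeal.map (algebraMap (𝓞 K) (𝓞 L)) ≤ w.asIdeal →
          (∀ s ∈ S, FinitePlace.mk w (φ s.2) ≤ 1) ∧
          ((∀ s ∈ S, FinitePlace.mk w (φ s.2) < 1) →
            FinitePlace.mk w (φ F) ≤ mx S (fun a => FinitePlace.mk w (φ a)) ^ e) := by
  obtain ⟨g, hg, b, y, hy, hgb⟩ := exists_coeff (R := MvPolynomial (Fin m) k) ha
  refine ⟨g, hg, ?_⟩
  rw [← hS] at hy haF
  have hint : ∀ a : A, IsIntegral (MvPolynomial (Fin m) k) a := fun a =>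
    Algebra.IsIntegral.isIntegral a
  refine (((ev_int (k := k) (m := m) (hint a)).and (ev_int (k := k) (m := m) (hint b))).and
    (((abd_span (k := k) (m := m) hy).and (abd_pow (k := k) (m := m) e haF)).and
      (Ev.all S (P := fun s => AInt (k := k) (m := m) s.2) fun s _ => ev_int (hint s.2)))).mono ?_
  rintro K _ _ ι v ⟨⟨hva, hvb⟩, ⟨hvy, hvF⟩, hvS⟩ L _ _ _ φ x hφ hx hgx w hw
  refine ⟨fun s hs => hvS s hs L φ x hφ hx w hw, fun hlt => ?_⟩
  have h1 := hva L φ x hφ hx w hw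
  have h2 := hvb L φ x hφ hx w hw
  have h3 := hvy L φ x hφ hx w hw
  have h4 := hvF L φ x hφ hx w hw
  have hμ : mx S (fun a => FinitePlace.mk w (φ a)) < 1 := mx_lt one_pos hlt
  rw [pow_one] at h3
  have h5 : FinitePlace.mk w (φ (algebraMap (MvPolynomial (Fin m) k) A g)) = 1 := by
    rw [hφ]
    exact (above hw hgx.le).2.2 hgx
  rw [hgb, map_add, map_mul] at h5
  have h6 := FinitePlace.add_le (FinitePlace.mk w) (φ b * φ a) (φ y)
  rw [h5, map_mul] at h6
  have h7 : 1 ≤ FinitePlace.mk w (φ b) * FinitePlace.mk w (φ a) := by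
    rcases le_max_iff.1 h6 with h | h
    · exact h
    · linarith
  have h8 : FinitePlace.mk w (φ a) = 1 := by
    refine le_antisymm h1 ?_
    have h9 : (0 : ℝ) ≤ FinitePlace.mk w (φ a) := apply_nonneg _ _
    nlinarith
  rw [map_mul, map_mul, h8, one_mul] at h4
  exact h4

/-- **two prime divisors** -/
theorem loc2 [Algebra.IsIntegral (MvPolynomial (Fin m) k) A] {𝔮 𝔮' : Ideal A} [𝔮.IsPrime]
    [𝔮'.IsPrime] (hne : 𝔮 ≠ 𝔮')
    (hcomap : 𝔮.comap (algebraMap (MvPolynomial (Fin m) k) A) =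
      𝔮'.comap (algebraMap (MvPolynomial (Fin m) k) A)) {S S' : Finset (ℕ × A)}
    (hS : Ideal.span (Prod.snd '' (S : Set (ℕ × A))) = 𝔮)
    (hS' : Ideal.span (Prod.snd '' (S' : Set (ℕ × A))) = 𝔮') :
    ∃ g : MvPolynomial (Fin m) k, g ∉ 𝔮.comap (algebraMap (MvPolynomial (Fin m) k) A) ∧
      Ev (k := k) fun K _ _ ι v => ∀ (L : Type) [Field L] [NumberField L] [Algebra K L]
        (φ : A →+* L) (x : Fin m → K),
        (∀ f : MvPolynomial (Fin m) k, φ (algebraMap (MvPolynomial (Fin m) k) A f) =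
          algebraMap K L (MvPolynomial.eval₂ ι x f)) → (∀ i, FinitePlace.mk v (x i) ≤ 1) →
        FinitePlace.mk v (MvPolynomial.eval₂ ι x g) = 1 →
        ∀ w : HeightOneSpectrum (𝓞 L), v.asIdeal.map (algebraMap (𝓞 K) (𝓞 L)) ≤ w.asIdeal →
          ¬ ((∀ s ∈ S, FinitePlace.mk w (φ s.2) < 1) ∧
            ∀ s ∈ S', FinitePlace.mk w (φ s.2) < 1) := by
  obtain ⟨c, hc', hc⟩ := exists_notMem (R := MvPolynomial (Fin m) k) hne hcomap
  obtain ⟨g, hg, b, y, hy, hgb⟩ := exists_coeff (R := MvPolynomial (Fin m) k) hc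
  refine ⟨g, hg, ?_⟩
  rw [← hS] at hy
  rw [← hS'] at hc'
  refine ((ev_int (k := k) (m := m) (Algebra.IsIntegral.isIntegral b)).and
    ((abd_span (k := k) (m := m) hy).and (abd_span (k := k) (m := m) hc'))).mono ?_
  rintro K _ _ ι v ⟨hvb, hvy, hvc⟩ L _ _ _ φ x hφ hx hgx w hw ⟨hl, hl'⟩
  have h2 := hvb L φ x hφ hx w hw
  have h3 := hvy L φ x hφ hx w hw
  have h4 := hvc L φ x hφ hx w hw
  have hμ : mx S (fun a => FinitePlace.mk w (φ a)) < 1 := mx_lt one_pos hl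
  have hμ' : mx S' (fun a => FinitePlace.mk w (φ a)) < 1 := mx_lt one_pos hl'
  rw [pow_one] at h3 h4
  have h5 : FinitePlace.mk w (φ (algebraMap (MvPolynomial (Fin m) k) A g)) = 1 := by
    rw [hφ]
    exact (above hw hgx.le).2.2 hgx
  rw [hgb, map_add, map_mul] at h5
  have h6 := FinitePlace.add_le (FinitePlace.mk w) (φ b * φ c) (φ y)
  rw [h5, map_mul] at h6
  have h7 : FinitePlace.mk w (φ b) * FinitePlace.mk w (φ c) < 1 :=
    (mul_le_of_le_one_left (apply_nonneg _ _) h2).trans_lt (h4.trans_lt hμ')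
  have h8 : max (FinitePlace.mk w (φ b) * FinitePlace.mk w (φ c)) (FinitePlace.mk w (φ y)) < 1 :=
    max_lt h7 (h3.trans_lt hμ)
  linarith

end sp

end Pool.Agent.D0H60.VDR
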