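import Pool.Agent.N753.AC.Disc
import Pool.Agent.N752.HY.Ext
import Pool.Agent.N747.AC.Ram

set_option autoImplicit false
set_option linter.unusedSectionVars false

/-!
# The primes above one prime
-/

namespace Pool.Agent.D0H60.VDR

open NumberField IsDedekindDomain Finset
open Pool.Agent.N753.AC (StmRAM Ab ab_comap ab_unique ab_finite)

variable {K L : Type} [Field K] [NumberField K] [Field L] [NumberField L] [Algebra K L]

/-- the primes of `L` above `v` -/
noncomputable def abv (L : Type) [Field L] [NumberField L] [Algebra K L]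
    (v : HeightOneSpectrum (𝓞 K)) : Finset (HeightOneSpectrum (𝓞 L)) :=
  (ab_finite (L := L) v).toFinset

lemma mem_abv {v : HeightOneSpectrum (𝓞 K)} {w : HeightOneSpectrum (𝓞 L)} :
    w ∈ abv L v ↔ Ab v w := by
  unfold abv
  rw [Set.Finite.mem_toFinset]
  rfl

/-- the ramification index of `w` over `v` -/
noncomputable def ri (v : HeightOneSpectrum (𝓞 K)) (w : HeightOneSpectrum (𝓞 L)) : ℕ :=
  v.asIdeal.ramificationIdx' w.asIdeal

lemma lies {v : HeightOneSpectrum (𝓞 K)} {w : HeightOneSpectrum (𝓞 L)} (h : Ab v w) :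
    w.asIdeal.LiesOver v.asIdeal := ⟨ab_comap h⟩

lemma ri_pos {v : HeightOneSpectrum (𝓞 K)} {w : HeightOneSpectrum (𝓞 L)} (h : Ab v w) :
    1 ≤ ri v w := by
  have := lies h
  exact Nat.one_le_iff_ne_zero.2
    (Ideal.IsDedekindDomain.ramificationIdx'_ne_zero_of_liesOver w.asIdeal v.ne_bot)

theorem fv_ri {v : HeightOneSpectrum (𝓞 K)} {w : HeightOneSpectrum (𝓞 L)} (h : Ab v w) {x : K}
    (hx : FinitePlace.mk v x = (Ideal.absNorm v.asIdeal : ℝ)⁻¹) :
    FinitePlace.mk w (algebraMap K L x) = ((Ideal.absNorm w.asIdeal : ℝ) ^ ri v w)⁻¹ := by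
  have hl := lies h
  have hN : (1 : ℝ) < (Ideal.absNorm v.asIdeal : ℝ) := by
    exact_mod_cast HeightOneSpectrum.one_lt_absNorm v
  have hx0 : x ≠ 0 := by
    rintro rfl
    rw [map_zero] at hx
    have : (0 : ℝ) < (Ideal.absNorm v.asIdeal : ℝ)⁻¹ := by positivity
    exact this.ne hx
  have hvx : v.valuation K x ≠ 0 := (Valuation.ne_zero_iff _).2 hx0
  have hLx : w.valuation L (algebraMap K L x) ≠ 0 :=
    (Valuation.ne_zero_iff _).2 ((map_ne_zero _).2 hx0)
  have h1 : v.valuation K x = WithZero.exp (-1 : ℤ) := by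
    obtain ⟨n, hn⟩ : ∃ n : ℤ, v.valuation K x = WithZero.exp n :=
      ⟨WithZero.log (v.valuation K x), (WithZero.exp_log hvx).symm⟩
    have h2 : FinitePlace.mk v x = (Ideal.absNorm v.asIdeal : ℝ) ^ n := by
      rw [Pool.Agent.N747.AC.mk_eq, hn]
      have e : (WithZero.exp n : WithZero (Multiplicative ℤ)) =
        ((Multiplicative.ofAdd n : Multiplicative ℤ) : WithZero (Multiplicative ℤ)) := rfl
      rw [e, WithZeroMulInt.toNNReal_neg_apply _ WithZero.coe_ne_zero, WithZero.unzero_coe,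
        toAdd_ofAdd]
      push_cast
      rfl
    rw [hx, ← zpow_neg_one] at h2
    have h3 := zpow_right_injective₀ (by positivity) hN.ne' h2
    rw [hn, ← h3]
  have h4 := HeightOneSpectrum.valuation_liesOver L v w x
  rw [h1] at h4
  rw [Pool.Agent.N747.AC.mk_eq, ← h4]
  have h5 : (WithZero.exp (-1 : ℤ) : WithZero (Multiplicative ℤ)) ^
      (v.asIdeal.ramificationIdx' w.asIdeal) = WithZero.exp (-(ri v w : ℤ)) := by
    rw [← WithZero.exp_nsmul]
    congr 1
    unfold ri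
    simp
  rw [h5]
  have e : (WithZero.exp (-(ri v w : ℤ)) : WithZero (Multiplicative ℤ)) =
    ((Multiplicative.ofAdd (-(ri v w : ℤ)) : Multiplicative ℤ) : WithZero (Multiplicative ℤ)) := rfl
  rw [e, WithZeroMulInt.toNNReal_neg_apply _ WithZero.coe_ne_zero, WithZero.unzero_coe,
    toAdd_ofAdd, zpow_neg, zpow_natCast]
  push_cast
  rfl

/-- the degree formula -/
theorem deg_formula (v : HeightOneSpectrum (𝓞 K)) :
    ∑ w ∈ abv L v, (ri v w : ℝ) * Real.log (Ideal.absNorm w.asIdeal) =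
      Module.finrank K L * Real.log (Ideal.absNorm v.asIdeal) := by
  classical
  have hmax : v.asIdeal.IsMaximal := v.isMaximal
  have h1 := Ideal.sum_ramification_inertia (𝓞 L) K L (p := v.asIdeal) v.ne_bot
  have h2 : ∑ w ∈ abv L v, ri v w * v.asIdeal.inertiaDeg' w.asIdeal =
      ∑ P ∈ IsDedekindDomain.primesOverFinset v.asIdeal (𝓞 L),
        v.asIdeal.ramificationIdx' P * v.asIdeal.inertiaDeg' P := by
    refine Finset.sum_bij (fun w _ => w.asIdeal) ?_ ?_ ?_ ?_
    · intro w hw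
      rw [IsDedekindDomain.mem_primesOverFinset_iff v.ne_bot]
      exact ⟨w.isPrime, lies (mem_abv.1 hw)⟩
    · intro w _ w' _ h
      exact HeightOneSpectrum.ext h
    · intro P hP
      rw [IsDedekindDomain.mem_primesOverFinset_iff v.ne_bot] at hP
      obtain ⟨hP1, hP2⟩ := hP
      have hP0 : P ≠ ⊥ := Ideal.ne_bot_of_mem_primesOver v.ne_bot ⟨hP1, hP2⟩
      refine ⟨⟨P, hP1, hP0⟩, ?_, rfl⟩
      rw [mem_abv]
      exact Ideal.map_le_iff_le_comap.2 hP2.over.le
    · intro w _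
      rfl
  rw [← h2] at h1
  rw [← h1]
  push_cast
  rw [Finset.sum_mul]
  refine Finset.sum_congr rfl fun w hw => ?_
  have hl := lies (mem_abv.1 hw)
  have h3 := Ideal.absNorm_eq_pow_inertiaDeg'_of_liesOver w.asIdeal v.asIdeal v.isPrime v.ne_bot
  rw [h3]
  push_cast
  rw [Real.log_pow, mul_assoc]

/-- the part of the different above `v` -/
theorem ram2 (hRAM : StmRAM) (v : HeightOneSpectrum (𝓞 K)) :
    ∃ J : Ideal (𝓞 L), J ∣ differentIdeal (𝓞 K) (𝓞 L) ∧
      v.asIdeal.map (algebraMap (𝓞 K) (𝓞 L)) ≤ J ∧ J ≠ ⊥ ∧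
      ∑ w ∈ abv L v, ((ri v w : ℝ) - 1) * Real.log (Ideal.absNorm w.asIdeal) ≤
        Real.log (Ideal.absNorm J) := by
  obtain ⟨J, h1, h2, h3, h4⟩ := hRAM K L v (abv L v) 1 0 (by
    intro w hw
    rw [map_one]
    exact ⟨le_rfl, fun h => absurd (mem_abv.2 hw) h⟩) (by
    rw [map_one, map_one, pow_zero, inv_one])
  refine ⟨J, h1, h2, h3, ?_⟩
  refine le_trans (le_of_eq ?_) h4
  rw [Nat.cast_zero, sub_zero, ← deg_formula, ← Finset.sum_sub_distrib]
  exact Finset.sum_congr rfl fun w _ => by ring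

end Pool.Agent.D0H60.VDR
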