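import Pool.Agent.D0H60.VDR.Pt1
import Pool.Agent.D0H60.VDR.Pt2
import Pool.Agent.D0H60.VDR.Cov

set_option autoImplicit false
set_option linter.unusedSectionVars false

/-!
# The prime divisors of one cover at one prime
-/

namespace Pool.Agent.D0H60.VDR

open NumberField IsDedekindDomain MvPolynomial Module
open Pool.Agent.N753.AC (StmRAM Ab ab_unique)
open Pool.Agent.N753.LS (disc_lower)
open Pool.Agent.H691R3 (fv fv_zpow Nv)

lemma comb {k : Type} [Field k] [NumberField k] {m : ℕ} {F : MvPolynomial (Fin m) k}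
    (hF : Prime F) {α : Type} (s : Finset α) (g : α → MvPolynomial (Fin m) k)
    (hg : ∀ a ∈ s, ¬ F ∣ g a) : ¬ F ∣ ∏ a ∈ s, g a ∧
      Ev (k := k) fun K _ _ ι v => ∀ x : Fin m → K, (∀ i, FinitePlace.mk v (x i) ≤ 1) →
        FinitePlace.mk v (eval₂ ι x (∏ a ∈ s, g a)) = 1 →
          ∀ a ∈ s, FinitePlace.mk v (eval₂ ι x (g a)) = 1 := by
  classical
  refine ⟨fun hd => ?_, ?_⟩
  · obtain ⟨a, ha, h⟩ := (hF.dvd_finsetProd_iff _).1 hd
    exact hg a ha h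
  · refine (Ev.all s (P := fun a K _ _ ι v => ∀ x : Fin m → K,
      (∀ i, FinitePlace.mk v (x i) ≤ 1) → FinitePlace.mk v (eval₂ ι x (g a)) ≤ 1)
      fun a _ => ev_poly (g a)).mono ?_
    intro K _ _ ι v hv x hx h1 a ha
    refine le_antisymm (hv a ha x hx) ?_
    have h2 : eval₂ ι x (∏ a ∈ s, g a) = ∏ a ∈ s, eval₂ ι x (g a) := by
      rw [← coe_eval₂Hom, map_prod]
    rw [h2, map_prod, ← Finset.mul_prod_erase _ _ ha] at h1
    rw [← h1]
    refine mul_le_of_le_one_right (apply_nonneg _ _) (Finset.prod_le_one ?_ ?_)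
    · intro i _
      exact apply_nonneg _ _
    · intro i hi
      exact hv i (Finset.mem_of_mem_erase hi) x hx

/-- **the prime divisors above one prime divisor** -/
theorem nrmP {k : Type} [Field k] [NumberField k] {m : ℕ} {A : Type} [CommRing A]
    [Algebra (MvPolynomial (Fin m) k) A] [Algebra.IsIntegral (MvPolynomial (Fin m) k) A]
    {F : MvPolynomial (Fin m) k} (hF : Prime F) {t : ℕ} (I : Finset (Fin t))
    (𝔮 : Fin t → Ideal A) (Z : Fin t → Finset (ℕ × A)) (e : Fin t → ℕ)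
    (hprime : ∀ i, (𝔮 i).IsPrime) (hinj : Function.Injective 𝔮)
    (hcomap : ∀ i ∈ I, (𝔮 i).comap (algebraMap (MvPolynomial (Fin m) k) A) = Ideal.span {F})
    (hZ : ∀ i, Ideal.span (Prod.snd '' (Z i : Set (ℕ × A))) = 𝔮 i)
    (hram : ∀ i ∈ I, ∃ a, a ∉ 𝔮 i ∧ a * algebraMap (MvPolynomial (Fin m) k) A F ∈ 𝔮 i ^ e i) :
    ∃ (g : MvPolynomial (Fin m) k) (n : ℕ), n ≠ 0 ∧ ¬ F ∣ g ∧
      ∀ (K : Type) [Field K] [NumberField K] (ι : k →+* K) (L : Type) [Field L] [NumberField L]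
        [Algebra K L] (φ : A →+* L) (x : Fin m → K),
        (∀ f : MvPolynomial (Fin m) k, φ (algebraMap (MvPolynomial (Fin m) k) A f) =
          algebraMap K L (eval₂ ι x f)) →
        ∀ v : HeightOneSpectrum (𝓞 K), (n : 𝓞 K) ∉ v.asIdeal → (∀ i, FinitePlace.mk v (x i) ≤ 1) →
          FinitePlace.mk v (eval₂ ι x g) = 1 →
          ∀ w : HeightOneSpectrum (𝓞 L), Ab v w →
            (∀ i ∈ I, (∀ s ∈ Z i, FinitePlace.mk w (φ s.2) ≤ 1) ∧
              ((∀ s ∈ Z i, FinitePlace.mk w (φ s.2) < 1) →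
                FinitePlace.mk w (algebraMap K L (eval₂ ι x F)) ≤
                  mx (Z i) (fun a => FinitePlace.mk w (φ a)) ^ e i)) ∧
            ∀ i ∈ I, ∀ i' ∈ I, i ≠ i' → ¬ ((∀ s ∈ Z i, FinitePlace.mk w (φ s.2) < 1) ∧
              ∀ s ∈ Z i', FinitePlace.mk w (φ s.2) < 1) := by
  classical
  have h1 : ∀ i, ∃ g : MvPolynomial (Fin m) k, (i ∈ I → ¬ F ∣ g) ∧
      Ev (k := k) fun K _ _ ι v => i ∈ I → ∀ (L : Type) [Field L] [NumberField L] [Algebra K L]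
        (φ : A →+* L) (x : Fin m → K),
        (∀ f : MvPolynomial (Fin m) k, φ (algebraMap (MvPolynomial (Fin m) k) A f) =
          algebraMap K L (MvPolynomial.eval₂ ι x f)) → (∀ i, FinitePlace.mk v (x i) ≤ 1) →
        FinitePlace.mk v (MvPolynomial.eval₂ ι x g) = 1 →
        ∀ w : HeightOneSpectrum (𝓞 L), v.asIdeal.map (algebraMap (𝓞 K) (𝓞 L)) ≤ w.asIdeal →
          (∀ s ∈ Z i, FinitePlace.mk w (φ s.2) ≤ 1) ∧
          ((∀ s ∈ Z i, FinitePlace.mk w (φ s.2) < 1) →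
            FinitePlace.mk w (φ (algebraMap (MvPolynomial (Fin m) k) A F)) ≤
              mx (Z i) (fun a => FinitePlace.mk w (φ a)) ^ e i) := by
    intro i
    by_cases hi : i ∈ I
    · have := hprime i
      obtain ⟨a, ha, haF⟩ := hram i hi
      obtain ⟨g, hg, hev⟩ := loc1 (k := k) (m := m) (hZ i) ha haF
      rw [hcomap i hi, Ideal.mem_span_singleton] at hg
      exact ⟨g, fun _ => hg, hev.mono fun K _ _ ι v hv _ => hv⟩
    · exact ⟨0, fun h => absurd h hi, 1, one_ne_zero, fun K _ _ ι v _ h => absurd h hi⟩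
  have h2 : ∀ p : Fin t × Fin t, ∃ g : MvPolynomial (Fin m) k,
      (p.1 ∈ I → p.2 ∈ I → p.1 ≠ p.2 → ¬ F ∣ g) ∧
      Ev (k := k) fun K _ _ ι v => p.1 ∈ I → p.2 ∈ I → p.1 ≠ p.2 →
        ∀ (L : Type) [Field L] [NumberField L] [Algebra K L]
        (φ : A →+* L) (x : Fin m → K),
        (∀ f : MvPolynomial (Fin m) k, φ (algebraMap (MvPolynomial (Fin m) k) A f) =
          algebraMap K L (MvPolynomial.eval₂ ι x f)) → (∀ i, FinitePlace.mk v (x i) ≤ 1) →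
        FinitePlace.mk v (MvPolynomial.eval₂ ι x g) = 1 →
        ∀ w : HeightOneSpectrum (𝓞 L), v.asIdeal.map (algebraMap (𝓞 K) (𝓞 L)) ≤ w.asIdeal →
          ¬ ((∀ s ∈ Z p.1, FinitePlace.mk w (φ s.2) < 1) ∧
            ∀ s ∈ Z p.2, FinitePlace.mk w (φ s.2) < 1) := by
    intro p
    by_cases hp : p.1 ∈ I ∧ p.2 ∈ I ∧ p.1 ≠ p.2
    · obtain ⟨hp1, hp2, hp3⟩ := hp
      have := hprime p.1
      have := hprime p.2
      obtain ⟨g, hg, hev⟩ := loc2 (k := k) (m := m) (fun h => hp3 (hinj h))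
        ((hcomap _ hp1).trans (hcomap _ hp2).symm) (hZ p.1) (hZ p.2)
      rw [hcomap _ hp1, Ideal.mem_span_singleton] at hg
      exact ⟨g, fun _ _ _ => hg, hev.mono fun K _ _ ι v hv _ _ _ => hv⟩
    · exact ⟨0, fun a b c => absurd ⟨a, b, c⟩ hp, 1, one_ne_zero,
        fun K _ _ ι v _ a b c => absurd ⟨a, b, c⟩ hp⟩
  choose g₁ hg₁ hev₁ using h1
  choose g₂ hg₂ hev₂ using h2
  obtain ⟨c1, n1, hn1, c2⟩ := comb hF I g₁ fun i hi => hg₁ i hi
  obtain ⟨c3, n2, hn2, c4⟩ := comb hF (Finset.univ.filter fun p : Fin t × Fin t =>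
    p.1 ∈ I ∧ p.2 ∈ I ∧ p.1 ≠ p.2) g₂ (by
      intro p hp
      rw [Finset.mem_filter] at hp
      exact hg₂ p hp.2.1 hp.2.2.1 hp.2.2.2)
  obtain ⟨n3, hn3, c5⟩ := (Ev.all Finset.univ (P := fun i K _ _ ι v => i ∈ I →
        ∀ (L : Type) [Field L] [NumberField L] [Algebra K L]
        (φ : A →+* L) (x : Fin m → K),
        (∀ f : MvPolynomial (Fin m) k, φ (algebraMap (MvPolynomial (Fin m) k) A f) =
          algebraMap K L (MvPolynomial.eval₂ ι x f)) → (∀ i, FinitePlace.mk v (x i) ≤ 1) →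
        FinitePlace.mk v (MvPolynomial.eval₂ ι x (g₁ i)) = 1 →
        ∀ w : HeightOneSpectrum (𝓞 L), v.asIdeal.map (algebraMap (𝓞 K) (𝓞 L)) ≤ w.asIdeal →
          (∀ s ∈ Z i, FinitePlace.mk w (φ s.2) ≤ 1) ∧
          ((∀ s ∈ Z i, FinitePlace.mk w (φ s.2) < 1) →
            FinitePlace.mk w (φ (algebraMap (MvPolynomial (Fin m) k) A F)) ≤
              mx (Z i) (fun a => FinitePlace.mk w (φ a)) ^ e i)) fun i _ => hev₁ i).and
    ((Ev.all Finset.univ (P := fun p K _ _ ι v => p.1 ∈ I → p.2 ∈ I → p.1 ≠ p.2 →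
        ∀ (L : Type) [Field L] [NumberField L] [Algebra K L]
        (φ : A →+* L) (x : Fin m → K),
        (∀ f : MvPolynomial (Fin m) k, φ (algebraMap (MvPolynomial (Fin m) k) A f) =
          algebraMap K L (MvPolynomial.eval₂ ι x f)) → (∀ i, FinitePlace.mk v (x i) ≤ 1) →
        FinitePlace.mk v (MvPolynomial.eval₂ ι x (g₂ p)) = 1 →
        ∀ w : HeightOneSpectrum (𝓞 L), v.asIdeal.map (algebraMap (𝓞 K) (𝓞 L)) ≤ w.asIdeal →
          ¬ ((∀ s ∈ Z p.1, FinitePlace.mk w (φ s.2) < 1) ∧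
            ∀ s ∈ Z p.2, FinitePlace.mk w (φ s.2) < 1)) fun p _ => hev₂ p).and
      ((ev_poly (∏ i ∈ I, g₁ i)).and (ev_poly (∏ p ∈ Finset.univ.filter fun p : Fin t × Fin t =>
    p.1 ∈ I ∧ p.2 ∈ I ∧ p.1 ≠ p.2, g₂ p))))
  refine ⟨(∏ i ∈ I, g₁ i) * ∏ p ∈ Finset.univ.filter fun p : Fin t × Fin t =>
    p.1 ∈ I ∧ p.2 ∈ I ∧ p.1 ≠ p.2, g₂ p, n1 * n2 * n3, Nat.mul_ne_zero (Nat.mul_ne_zero hn1 hn2) hn3,
    fun hd => ?_, ?_⟩
  · rcases hF.dvd_or_dvd hd with h | h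
    · exact c1 h
    · exact c3 h
  intro K _ _ ι L _ _ _ φ x hφ v hv hx hg w hw
  have hv1 : (n1 : 𝓞 K) ∉ v.asIdeal := notMem_of_dvd (Dvd.intro _ (by ring : n1 * (n2 * n3) = _)) hv
  have hv2 : (n2 : 𝓞 K) ∉ v.asIdeal := notMem_of_dvd (Dvd.intro _ (by ring : n2 * (n1 * n3) = _)) hv
  have hv3 : (n3 : 𝓞 K) ∉ v.asIdeal := notMem_of_dvd (Dvd.intro_left _ rfl) hv
  obtain ⟨d1, d2, d3, d4⟩ := c5 K ι v hv3
  rw [eval₂_mul, map_mul] at hg
  have e3 := d3 x hx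
  have e4 := d4 x hx
  have e5 : (0 : ℝ) ≤ FinitePlace.mk v (eval₂ ι x (∏ i ∈ I, g₁ i)) := apply_nonneg _ _
  have e7 : FinitePlace.mk v (eval₂ ι x (∏ i ∈ I, g₁ i)) = 1 := by
    refine le_antisymm e3 ?_
    rw [← hg]
    exact mul_le_of_le_one_right e5 e4
  have e8 : FinitePlace.mk v (eval₂ ι x (∏ p ∈ Finset.univ.filter fun p : Fin t × Fin t =>
    p.1 ∈ I ∧ p.2 ∈ I ∧ p.1 ≠ p.2, g₂ p)) = 1 := by
    rw [e7, one_mul] at hg
    exact hg
  have f1 := c2 K ι v hv1 x hx e7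
  have f2 := c4 K ι v hv2 x hx e8
  refine ⟨fun i hi => ?_, fun i hi i' hi' hne => ?_⟩
  · have := d1 i (Finset.mem_univ i) hi L φ x hφ hx (f1 i hi) w hw
    rw [hφ F] at this
    exact this
  · exact d2 (i, i') (Finset.mem_univ _) hi hi' hne L φ x hφ hx
      (f2 (i, i') (Finset.mem_filter.2 ⟨Finset.mem_univ _, hi, hi', hne⟩)) w hw

/-- the local height relative to a prime divisor of `X` -/
noncomputable def dloc {K : Type} [Field K] [NumberField K] {m : ℕ}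
    (F : MvPolynomial (Fin (m + 1)) (𝓞 K)) (κ : ℕ) {A : Type} (Z : Finset (ℕ × A))
    (x : Fin (m + 1) → K) {L : Type} [Field L] [Algebra K L] (ψ : A → L) (v : L → ℝ) : ℝ :=
  - Real.log (max (v (algebraMap K L (aeval x F)) / (⨆ i, v (algebraMap K L (x i))) ^ κ)
    (⨆ a : {a // a ∈ Z}, (v (algebraMap K L (x 0)) / ⨆ i, v (algebraMap K L (x i))) ^ a.1.1 *
      v (ψ a.1.2)))

/-- the local inequality -/
theorem loc_ineq {L : Type} [Field L] [NumberField L] (w : HeightOneSpectrum (𝓞 L)) {A : Type}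
    {t : ℕ} (I : Finset (Fin t)) (Z : Fin t → Finset (ℕ × A)) (e : Fin t → ℕ)
    (he : ∀ i, 1 ≤ e i) (D : Finset (Fin t)) (φ : A → L) (f : ℝ) (ρ : ℕ) (hρ : 1 ≤ ρ)
    (hf : f = ((Ideal.absNorm w.asIdeal : ℝ) ^ ρ)⁻¹)
    (h1 : ∀ i ∈ I, (∀ s ∈ Z i, FinitePlace.mk w (φ s.2) ≤ 1) ∧
      ((∀ s ∈ Z i, FinitePlace.mk w (φ s.2) < 1) →
        f ≤ mx (Z i) (fun a => FinitePlace.mk w (φ a)) ^ e i))
    (h2 : ∀ i ∈ I, ∀ i' ∈ I, i ≠ i' → ¬ ((∀ s ∈ Z i, FinitePlace.mk w (φ s.2) < 1) ∧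
      ∀ s ∈ Z i', FinitePlace.mk w (φ s.2) < 1)) (Q : Prop) [Decidable Q]
    (hQ : ∀ i ∈ I, i ∈ D → (∀ s ∈ Z i, FinitePlace.mk w (φ s.2) < 1) → Q) :
    ∑ i ∈ I, ((e i : ℝ) - 1 + if i ∈ D then 1 else 0) *
        (- Real.log (max f (mx (Z i) (fun a => FinitePlace.mk w (φ a))))) ≤
      ((ρ : ℝ) - 1) * Real.log (Ideal.absNorm w.asIdeal) +
        if Q then Real.log (Ideal.absNorm w.asIdeal) else 0 := by
  classical
  have hN : (1 : ℝ) < (Ideal.absNorm w.asIdeal : ℝ) := by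
    exact_mod_cast HeightOneSpectrum.one_lt_absNorm w
  have hlN : 0 < Real.log (Ideal.absNorm w.asIdeal : ℝ) := Real.log_pos hN
  have hf0 : 0 < f := by
    rw [hf]
    positivity
  have hf1 : f < 1 := by
    rw [hf]
    exact inv_lt_one_of_one_lt₀ (one_lt_pow₀ hN (by omega))
  have hρ' : (1 : ℝ) ≤ ρ := by exact_mod_cast hρ
  have hR : 0 ≤ ((ρ : ℝ) - 1) * Real.log (Ideal.absNorm w.asIdeal) +
      if Q then Real.log (Ideal.absNorm w.asIdeal : ℝ) else 0 := by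
    have : (0 : ℝ) ≤ if Q then Real.log (Ideal.absNorm w.asIdeal : ℝ) else 0 := by
      split_ifs
      · exact hlN.le
      · exact le_rfl
    have h3 : 0 ≤ ((ρ : ℝ) - 1) * Real.log (Ideal.absNorm w.asIdeal : ℝ) :=
      mul_nonneg (by linarith) hlN.le
    linarith
  -- the divisors which the point does not meet
  have hno : ∀ i ∈ I, ¬ (∀ s ∈ Z i, FinitePlace.mk w (φ s.2) < 1) →
      ((e i : ℝ) - 1 + if i ∈ D then 1 else 0) *
        (- Real.log (max f (mx (Z i) (fun a => FinitePlace.mk w (φ a))))) = 0 := by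
    intro i hi hn
    push Not at hn
    obtain ⟨s, hs, hs1⟩ := hn
    have h3 : mx (Z i) (fun a => FinitePlace.mk w (φ a)) = 1 := by
      refine le_antisymm ?_ (hs1.trans (le_mx (fun a => FinitePlace.mk w (φ a)) hs))
      have : Nonempty {a // a ∈ Z i} := ⟨⟨s, hs⟩⟩
      exact ciSup_le fun a => (h1 i hi).1 _ a.2
    rw [h3, max_eq_right hf1.le, Real.log_one, neg_zero, mul_zero]
  by_cases hex : ∃ i ∈ I, ∀ s ∈ Z i, FinitePlace.mk w (φ s.2) < 1
  swap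
  · rw [Finset.sum_eq_zero fun i hi => hno i hi fun h => hex ⟨i, hi, h⟩]
    exact hR
  obtain ⟨i₀, hi₀, hm⟩ := hex
  rw [Finset.sum_eq_single_of_mem i₀ hi₀ fun i hi hne => hno i hi fun h =>
    h2 i hi i₀ hi₀ hne ⟨h, hm⟩]
  obtain ⟨M, hM⟩ : ∃ M : ℝ, M = mx (Z i₀) (fun a => FinitePlace.mk w (φ a)) := ⟨_, rfl⟩
  have h3 := (h1 i₀ hi₀).2 hm
  rw [← hM] at h3 ⊢
  have hM1 : M < 1 := by
    rw [hM]
    exact mx_lt one_pos hm
  have hM0 : 0 ≤ M := by
    rw [hM]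
    exact mx_nonneg _ fun a => apply_nonneg _ _
  have hMp : 0 < M := by
    rcases hM0.lt_or_eq with h | h
    · exact h
    · exfalso
      rw [← h, zero_pow (by have := he i₀; omega)] at h3
      linarith
  have hfM : f ≤ M := by
    refine h3.trans ?_
    calc M ^ e i₀ ≤ M ^ 1 := pow_le_pow_of_le_one hM0 hM1.le (he i₀)
      _ = M := pow_one M
  rw [max_eq_right hfM]
  have hZne : (Z i₀).Nonempty := by
    by_contra hcon
    rw [Finset.not_nonempty_iff_eq_empty] at hcon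
    have : M = 0 := by
      rw [hM, hcon]
      unfold mx
      rw [Real.iSup_of_isEmpty]
    linarith
  obtain ⟨s, hs, hs1⟩ := exists_mx hZne (fun a => FinitePlace.mk w (φ a))
  rw [← hM] at hs1
  have hφ0 : φ s.2 ≠ 0 := by
    intro h
    simp only [h, map_zero] at hs1
    linarith
  obtain ⟨n, hn⟩ := fv_zpow w hφ0
  have hn' : M = (Ideal.absNorm w.asIdeal : ℝ) ^ n := hs1.trans hn
  have hn1 : n ≤ -1 := by
    by_contra hcon
    have h4 : (1 : ℝ) ≤ (Ideal.absNorm w.asIdeal : ℝ) ^ n := one_le_zpow₀ hN.le (by omega)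
    rw [← hn'] at h4
    linarith
  obtain ⟨n', hn''⟩ : ∃ n' : ℕ, n = -(n' : ℤ) := ⟨(-n).toNat, by omega⟩
  have hn1' : 1 ≤ n' := by omega
  have h5 : n' * e i₀ ≤ ρ := by
    rw [hf, hn', hn'', zpow_neg, zpow_natCast, inv_pow, ← pow_mul] at h3
    have h6 := (inv_le_inv₀ (by positivity) (by positivity)).1 h3
    exact (pow_le_pow_iff_right₀ hN).1 h6
  have h6 : - Real.log M = n' * Real.log (Ideal.absNorm w.asIdeal) := by
    rw [hn', hn'', Real.log_zpow]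
    push_cast
    ring
  rw [h6]
  have h7 : (n' : ℝ) * e i₀ ≤ ρ := by exact_mod_cast h5
  have h8 : (1 : ℝ) ≤ n' := by exact_mod_cast hn1'
  by_cases hD : i₀ ∈ D
  · rw [if_pos hD, if_pos (hQ i₀ hi₀ hD hm)]
    have h9 : ((e i₀ : ℝ) - 1 + 1) * (n' * Real.log (Ideal.absNorm w.asIdeal : ℝ)) =
        (n' * e i₀) * Real.log (Ideal.absNorm w.asIdeal : ℝ) := by ring
    rw [h9]
    have := mul_le_mul_of_nonneg_right h7 hlN.le
    linarith
  · rw [if_neg hD, add_zero]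
    have h9 : ((e i₀ : ℝ) - 1) * (n' * Real.log (Ideal.absNorm w.asIdeal : ℝ)) =
        (n' * e i₀ - n') * Real.log (Ideal.absNorm w.asIdeal : ℝ) := by ring
    rw [h9]
    have h10 : (n' * e i₀ - n' : ℝ) * Real.log (Ideal.absNorm w.asIdeal : ℝ) ≤
        ((ρ : ℝ) - 1) * Real.log (Ideal.absNorm w.asIdeal : ℝ) :=
      mul_le_mul_of_nonneg_right (by linarith) hlN.le
    have : (0 : ℝ) ≤ if Q then Real.log (Ideal.absNorm w.asIdeal : ℝ) else 0 := by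
      split_ifs
      · exact hlN.le
      · exact le_rfl
    linarith

/-- the discriminant -/
theorem disc_gen {K L : Type} [Field K] [NumberField K] [Field L] [NumberField L] [Algebra K L]
    {r : ℕ} (V : Fin r → Finset (HeightOneSpectrum (𝓞 K)))
    (hdisj : ∀ i j, i ≠ j → Disjoint (V i) (V j)) (wt : Fin r → HeightOneSpectrum (𝓞 K) → ℝ)
    (hV : ∀ j, ∀ v ∈ V j, ∃ J : Ideal (𝓞 L), J ∣ differentIdeal (𝓞 K) (𝓞 L) ∧
      v.asIdeal.map (algebraMap (𝓞 K) (𝓞 L)) ≤ J ∧ J ≠ ⊥ ∧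
        wt j v ≤ Real.log (Ideal.absNorm J)) :
    ∑ j, ∑ v ∈ V j, wt j v + (Module.finrank K L : ℝ) * Real.log |(discr K : ℝ)| ≤
      Real.log |(discr L : ℝ)| := by
  classical
  obtain ⟨ww, hww⟩ : ∃ ww : HeightOneSpectrum (𝓞 K) → ℝ,
      ww = fun v => ∑ j, if v ∈ V j then wt j v else 0 := ⟨_, rfl⟩
  have hw : ∀ j, ∀ v ∈ V j, ww v = wt j v := by
    intro j v hv
    rw [hww]
    show (∑ j, if v ∈ V j then wt j v else 0) = _
    rw [Finset.sum_eq_single j]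
    · exact if_pos hv
    · intro i _ hij
      exact if_neg fun h => Finset.disjoint_left.1 (hdisj i j hij) h hv
    · intro h
      exact absurd (Finset.mem_univ _) h
  have h1 := disc_lower (K := K) (L := L) (Finset.univ.biUnion V) ww (by
    intro v hv
    rw [Finset.mem_biUnion] at hv
    obtain ⟨j, -, hj⟩ := hv
    obtain ⟨J, a1, a2, a3, a4⟩ := hV j v hj
    exact ⟨J, a1, a2, a3, by rw [hw j v hj]; exact a4⟩)
  have h2 : ∑ v ∈ Finset.univ.biUnion V, ww v = ∑ j, ∑ v ∈ V j, wt j v := by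
    rw [Finset.sum_biUnion (fun i _ j _ hij => hdisj i j hij)]
    exact Finset.sum_congr rfl fun j _ => Finset.sum_congr rfl fun v hv => hw j v hv
  linarith

end Pool.Agent.D0H60.VDR
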