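import Pool.Agent.D0H60.VDR.Pt3

set_option autoImplicit false
set_option linter.unusedSectionVars false

/-!
# One cover of projective space: the prime divisors at all points above a point
-/

namespace Pool.Agent.D0H60.VDR

open NumberField IsDedekindDomain MvPolynomial Module Height
open Pool.Agent.H691R3 (fv fv_na fv_support_finite log_fv Nv log_Nv_pos)
open Pool.Agent.N752.HY
open Pool.Agent.N752.HY.Ext
open Pool.Agent.N753.AC (StmRAM Ab ab_unique)
open Pool.Agent.N752.CP (deh deh_mul deh_X0 deh_dvd deh_eval exists_hom good mem_good lam_factor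
  fv_of_lam)

variable {k : Type} [Field k] [NumberField k] {m : ℕ}

/-- the prime `w`: the affine coordinates are integral and the point meets the divisor -/
def HitD {r t : ℕ} {A : Type} [CommRing A] (f : Fin r → MvPolynomial (Fin m) k)
    (c : Fin t → Fin r) (Z : Fin t → Finset (ℕ × A)) (D : Finset (Fin t)) {K : Type} [Field K]
    [NumberField K] (ι : k →+* K) (z : Fin m → K) {L : Type} [Field L] [NumberField L]
    [Algebra K L] (φ : A →+* L) (w : HeightOneSpectrum (𝓞 L)) : Prop :=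
  (∀ i, FinitePlace.mk w (algebraMap K L (z i)) ≤ 1) ∧
    ∃ i ∈ D, FinitePlace.mk w (algebraMap K L (eval₂ ι z (f (c i)))) < 1 ∧
      ∀ s ∈ Z i, FinitePlace.mk w (φ s.2) < 1

theorem hitD_finite {r t : ℕ} {A : Type} [CommRing A] (f : Fin r → MvPolynomial (Fin m) k)
    (c : Fin t → Fin r) (Z : Fin t → Finset (ℕ × A)) (D : Finset (Fin t)) {K : Type} [Field K]
    [NumberField K] (ι : k →+* K) {z : Fin m → K} (hz : ∀ j, eval₂ ι z (f j) ≠ 0)
    {L : Type} [Field L] [NumberField L] [Algebra K L] (φ : A →+* L) :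
    {w | HitD f c Z D ι z φ w}.Finite := by
  refine (Set.finite_iUnion fun j => fv_support_finite (K := L)
    (x := algebraMap K L (eval₂ ι z (f j))) ?_).subset ?_
  · rw [Ne, map_eq_zero]
    exact hz j
  · rintro w ⟨-, i, -, hw, -⟩
    exact Set.mem_iUnion.2 ⟨c i, hw.ne⟩

open Classical in
/-- **one cover** -/
theorem coverP (hRAM : StmRAM)
    (A : Type) [CommRing A] [Algebra (MvPolynomial (Fin m) k) A]
    [Algebra.IsIntegral (MvPolynomial (Fin m) k) A]
    {r : ℕ} (F : Fin r → MvPolynomial (Fin (m + 1)) (𝓞 k)) (κ : Fin r → ℕ)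
    (hhom : ∀ j, (F j).IsHomogeneous (κ j))
    (hirr : ∀ j, Irreducible (map (algebraMap (𝓞 k) k) (F j)))
    (hdi : ∀ j, Irreducible (deh (F j)))
    (hFF : ∀ i j, i ≠ j →
      ¬ Associated (map (algebraMap (𝓞 k) k) (F i)) (map (algebraMap (𝓞 k) k) (F j)))
    {t : ℕ} (c : Fin t → Fin r) (𝔮 : Fin t → Ideal A) (Z : Fin t → Finset (ℕ × A))
    (e : Fin t → ℕ) (D : Finset (Fin t)) (hprime : ∀ i, (𝔮 i).IsPrime)
    (hinj : Function.Injective 𝔮)
    (hcomap : ∀ i, (𝔮 i).comap (algebraMap (MvPolynomial (Fin m) k) A) =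
      Ideal.span {deh (F (c i))})
    (hZ : ∀ i, Ideal.span (Prod.snd '' (Z i : Set (ℕ × A))) = 𝔮 i) (he : ∀ i, 1 ≤ e i)
    (hram : ∀ i, ∃ a, a ∉ 𝔮 i ∧
      a * algebraMap (MvPolynomial (Fin m) k) A (deh (F (c i))) ∈ 𝔮 i ^ e i) :
    ∃ (G : Fin r → MvPolynomial (Fin (m + 1)) (𝓞 k)) (e' : Fin r → ℕ)
      (n : ℕ), n ≠ 0 ∧ (∀ j, (G j).IsHomogeneous (e' j)) ∧
      (∀ j, ¬ map (algebraMap (𝓞 k) k) (F j) ∣ map (algebraMap (𝓞 k) k) (G j)) ∧
      ∀ (K : Type) [Field K] [NumberField K] (ι : k →+* K)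
      (x : Fin (m + 1) → K), x 0 ≠ 0 → (∀ j, aeval x (up ι (F j)) ≠ 0) →
      (∀ j, aeval x (up ι (G j)) ≠ 0) →
      ∀ (L : Type) [Field L] [NumberField L] [Algebra K L] (φ : A →+* L),
        (∀ f : MvPolynomial (Fin m) k, φ (algebraMap (MvPolynomial (Fin m) k) A f) =
          algebraMap K L (eval₂ ι (fun i => x i.succ / x 0) f)) →
        (∀ j, ∀ v ∈ good (up ι (F j)) (up ι (G j)) (κ j) (e' j) (badn K n) x, ∀ w ∈ abv L v,
          lam L (up ι (F j)) (κ j) x w = ri v w * Real.log (Ideal.absNorm w.asIdeal)) ∧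
        ∑ i, ((e i : ℝ) - 1 + if i ∈ D then 1 else 0) *
          ∑ v ∈ good (up ι (F (c i))) (up ι (G (c i))) (κ (c i)) (e' (c i)) (badn K n) x,
            ∑ w ∈ abv L v, dloc (up ι (F (c i))) (κ (c i)) (Z i) x φ (FinitePlace.mk w) ≤
          Real.log |(discr L : ℝ)| - Module.finrank K L * Real.log |(discr K : ℝ)| +
            ∑ᶠ w : HeightOneSpectrum (𝓞 L), if HitD (fun j => deh (F j)) c Z D ι
              (fun i => x i.succ / x 0) φ w then Real.log (Ideal.absNorm w.asIdeal) else 0 := by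
  choose g' n' hn' hg' hsp using fun j => nrmP (k := k) (m := m) (F := deh (F j)) (hdi j).prime
    (Finset.univ.filter fun i : Fin t => c i = j) 𝔮 Z e hprime hinj
    (fun i hi => by rw [← (Finset.mem_filter.1 hi).2]; exact hcomap i) hZ
    (fun i hi => by rw [← (Finset.mem_filter.1 hi).2]; exact hram i)
  choose D' hD using fun j => exists_hom (K := k) (g' j)
  choose H a ha hH hHg using fun j => hD j (D' j) le_rfl
  obtain ⟨nA, hnA, hevA⟩ := Ev.all (k := k) (Finset.univ : Finset (Fin r))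
    (P := fun j K _ _ ι v => FinitePlace.mk v (ι ((algebraMap (𝓞 k) k (a j))⁻¹)) ≤ 1)
    fun j _ => ev_const _
  obtain ⟨n, hn⟩ : ∃ n : ℕ, n = (∏ j, n' j) * nA := ⟨_, rfl⟩
  have hn0 : n ≠ 0 := by
    rw [hn]
    exact Nat.mul_ne_zero (Finset.prod_ne_zero_iff.2 fun j _ => hn' j) hnA
  obtain ⟨R, hR⟩ : ∃ R : Fin r → MvPolynomial (Fin (m + 1)) (𝓞 k),
      ∀ j, R j = ∏ i ∈ Finset.univ.erase j, F i := ⟨_, fun _ => rfl⟩
  have hRh : ∀ j, (R j).IsHomogeneous (∑ i ∈ Finset.univ.erase j, κ i) := by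
    intro j
    rw [hR]
    exact IsHomogeneous.prod _ _ _ fun i _ => hhom i
  obtain ⟨G, hG⟩ : ∃ G : Fin r → MvPolynomial (Fin (m + 1)) (𝓞 k),
      ∀ j, G j = H j * (X 0 * R j) := ⟨_, fun _ => rfl⟩
  have hXR : ∀ j, (X 0 * R j).IsHomogeneous (1 + ∑ i ∈ Finset.univ.erase j, κ i) := fun j =>
    (isHomogeneous_X _ _).mul (hRh j)
  have hGh : ∀ j, (G j).IsHomogeneous (D' j + (1 + ∑ i ∈ Finset.univ.erase j, κ i)) := by
    intro j
    rw [hG]
    exact (hH j).mul (hXR j)
  refine ⟨G, fun j => D' j + (1 + ∑ i ∈ Finset.univ.erase j, κ i), n, hn0, hGh, ?_, ?_⟩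
  · intro j hd
    rw [hG, map_mul, map_mul, hR, map_prod] at hd
    rcases (hirr j).prime.dvd_or_dvd hd with h | h
    · have h1 := deh_dvd h
      rw [hHg] at h1
      have hu : IsUnit (C (algebraMap (𝓞 k) k (a j)) : MvPolynomial (Fin m) k) := by
        refine IsUnit.map C (isUnit_iff_ne_zero.2 ?_)
        rw [Ne, FaithfulSMul.algebraMap_eq_zero_iff]
        exact ha j
      exact hg' j ((hu.dvd_mul_left).1 h1)
    rcases (hirr j).prime.dvd_or_dvd h with h | h
    · have h1 := deh_dvd (F := F j) (G := X 0) h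
      rw [deh_X0] at h1
      exact (hdi j).not_isUnit (isUnit_of_dvd_one h1)
    · obtain ⟨i, hi, h3⟩ := ((hirr j).prime.dvd_finsetProd_iff _).1 h
      exact hFF j i (Finset.ne_of_mem_erase hi).symm ((hirr j).associated_of_dvd (hirr i) h3)
  intro K _ _ ι x hx0 hxF hxG L _ _ _ φ hcomp
  have hx : x ≠ 0 := fun h => hx0 (by rw [h]; rfl)
  obtain ⟨z, hz⟩ : ∃ z : Fin m → K, z = fun i => x i.succ / x 0 := ⟨_, rfl⟩
  rw [← hz] at hcomp ⊢
  have hval : ∀ {P : MvPolynomial (Fin (m + 1)) (𝓞 k)} {b : ℕ}, P.IsHomogeneous b →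
      aeval x (up ι P) = x 0 ^ b * eval₂ ι z (deh P) := by
    intro P b hP
    rw [hz, ← eval_up]
    exact deh_eval (hP.map _) hx0
  -- the good primes
  obtain ⟨V, hV⟩ : ∃ V : Fin r → Finset (HeightOneSpectrum (𝓞 K)), ∀ j, V j =
    good (up ι (F j)) (up ι (G j)) (κ j) (D' j + (1 + ∑ i ∈ Finset.univ.erase j, κ i))
      (badn K n) x := ⟨_, fun _ => rfl⟩
  have hVmem : ∀ j, ∀ v ∈ V j, (n : 𝓞 K) ∉ v.asIdeal ∧ (∀ i, FinitePlace.mk v (z i) ≤ 1) ∧
      FinitePlace.mk v (eval₂ ι z (deh (F j))) = (Ideal.absNorm v.asIdeal : ℝ)⁻¹ ∧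
      FinitePlace.mk v (eval₂ ι z (g' j)) = 1 ∧
      ∀ i, i ≠ j → FinitePlace.mk v (eval₂ ι z (deh (F i))) = 1 := by
    intro j v hv
    rw [hV, mem_good hx (hxF j)] at hv
    obtain ⟨c1, c2, c3, c4⟩ := hv
    rw [mem_badn hn0] at c2
    have hxG' := hxG j
    rw [hG, up_mul, up_mul, up_X] at c4 hxG'
    have hs0 : 0 < ⨆ i, fv v (x i) := sup_pos' (fv v) hx
    have hupH : ∀ {P : MvPolynomial (Fin (m + 1)) (𝓞 k)} {b : ℕ}, P.IsHomogeneous b →
        (up ι P).IsHomogeneous b := fun hP => hP.map _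
    -- the coordinate
    have d1 : lam K (X 0 : MvPolynomial (Fin (m + 1)) (𝓞 K)) 1 x v = 0 := by
      have e1 : up ι (H j) * (X 0 * up ι (R j)) = X 0 * (up ι (H j) * up ι (R j)) := by ring
      have e2 : D' j + (1 + ∑ i ∈ Finset.univ.erase j, κ i) =
        1 + (D' j + ∑ i ∈ Finset.univ.erase j, κ i) := by ring
      rw [e1, e2] at c4
      rw [e1] at hxG'
      exact lam_factor (isHomogeneous_X _ _) ((hupH (hH j)).mul (hupH (hRh j))) hx hxG' v c4
    have d2 : lam K (up ι (H j)) (D' j) x v = 0 := lam_factor (hupH (hH j))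
      ((isHomogeneous_X _ _).mul (hupH (hRh j))) hx hxG' v c4
    have d3 : ∀ i, i ≠ j → lam K (up ι (F i)) (κ i) x v = 0 := by
      intro i hij
      have hi : i ∈ Finset.univ.erase j := Finset.mem_erase.2 ⟨hij, Finset.mem_univ _⟩
      have e0 : up ι (R j) = up ι (F i) * ∏ l ∈ (Finset.univ.erase j).erase i, up ι (F l) := by
        rw [hR, ← Finset.mul_prod_erase _ _ hi, up_mul, up_prod]
      have e1 : up ι (H j) * (X 0 * up ι (R j)) = up ι (F i) * (up ι (H j) *
          (X 0 * ∏ l ∈ (Finset.univ.erase j).erase i, up ι (F l))) := by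
        rw [e0]
        ring
      have e2 : D' j + (1 + ∑ i ∈ Finset.univ.erase j, κ i) =
          κ i + (D' j + (1 + ∑ l ∈ (Finset.univ.erase j).erase i, κ l)) := by
        rw [← Finset.add_sum_erase _ _ hi]
        ring
      rw [e1, e2] at c4
      rw [e1] at hxG'
      exact lam_factor (hupH (hhom i)) ((hupH (hH j)).mul ((isHomogeneous_X _ _).mul
        (IsHomogeneous.prod _ _ _ fun i _ => hupH (hhom i)))) hx hxG' v c4
    have hxX : aeval x (X 0 : MvPolynomial (Fin (m + 1)) (𝓞 K)) ≠ 0 := by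
      rw [aeval_X]
      exact hx0
    have b1 := fv_of_lam hx hxX v 0 d1
    rw [neg_zero, Real.exp_zero, mul_one, pow_one, aeval_X] at b1
    have hx0v : 0 < fv v (x 0) := (fv v).pos hx0
    have hxH : aeval x (up ι (H j)) ≠ 0 := by
      rw [map_mul] at hxG'
      exact left_ne_zero_of_mul hxG'
    have b2 := fv_of_lam hx hxH v 0 d2
    rw [neg_zero, Real.exp_zero, mul_one, ← b1, hval (hH j), map_mul, map_pow, hHg, eval₂_mul,
      eval₂_C, map_mul] at b2
    have b2' : fv v (ι (algebraMap (𝓞 k) k (a j))) * fv v (eval₂ ι z (g' j)) = 1 := by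
      have h1 : fv v (x 0) ^ D' j ≠ 0 := (pow_pos hx0v _).ne'
      exact mul_left_cancel₀ h1 (by rw [b2, mul_one])
    have b3 : fv v (ι (algebraMap (𝓞 k) k (a j))) = 1 := by
      have hA := hevA K ι v (notMem_of_dvd (by rw [hn]; exact Dvd.intro_left _ rfl) c2) j
        (Finset.mem_univ j)
      have ha0 : ι (algebraMap (𝓞 k) k (a j)) ≠ 0 := by
        rw [Ne, map_eq_zero, FaithfulSMul.algebraMap_eq_zero_iff]
        exact ha j
      have hpos : 0 < fv v (ι (algebraMap (𝓞 k) k (a j))) := (fv v).pos ha0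
      have h1 : fv v (ι (algebraMap (𝓞 k) k (a j))) ≤ 1 :=
        FinitePlace.norm_le_one K v (RingOfIntegers.mapRingHom ι (a j))
      refine le_antisymm h1 ?_
      have h2 : (fv v (ι (algebraMap (𝓞 k) k (a j))))⁻¹ ≤ 1 := by
        have h3 : fv v (ι ((algebraMap (𝓞 k) k (a j))⁻¹)) ≤ 1 := hA
        rw [map_inv₀, map_inv₀] at h3
        exact h3
      exact (inv_le_one₀ hpos).1 h2
    rw [b3, one_mul] at b2'
    refine ⟨c2, ?_, ?_, b2', ?_⟩
    · intro i
      have h1 : fv v (x i.succ) ≤ ⨆ j, fv v (x j) :=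
        le_ciSup (f := fun j => fv v (x j)) (Set.finite_range _).bddAbove _
      show fv v (z i) ≤ 1
      rw [hz]
      show fv v (x i.succ / x 0) ≤ 1
      rw [map_div₀, div_le_one hx0v, b1]
      exact h1
    · have b4 := fv_of_lam hx (hxF j) v _ c3
      rw [← b1, hval (hhom j), map_mul, map_pow] at b4
      have h1 : fv v (x 0) ^ κ j ≠ 0 := (pow_pos hx0v _).ne'
      have b5 := mul_left_cancel₀ h1 b4
      show fv v (eval₂ ι z (deh (F j))) = _
      rw [b5, Real.exp_neg, Real.exp_log]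
      have hN := log_Nv_pos v
      by_contra hcon
      rw [not_lt] at hcon
      have h4 : (0 : ℝ) ≤ (Ideal.absNorm v.asIdeal : ℝ) := Nat.cast_nonneg _
      have h5 : Real.log (Nv v) = Real.log (Ideal.absNorm v.asIdeal : ℝ) := rfl
      rw [h5, le_antisymm hcon h4, Real.log_zero] at hN
      exact lt_irrefl _ hN
    · intro i hij
      have b4 := fv_of_lam hx (hxF i) v _ (d3 i hij)
      rw [neg_zero, Real.exp_zero, mul_one, ← b1, hval (hhom i), map_mul, map_pow] at b4
      have h1 : fv v (x 0) ^ κ i ≠ 0 := (pow_pos hx0v _).ne'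
      show fv v (eval₂ ι z (deh (F i))) = 1
      exact mul_left_cancel₀ h1 (b4.trans (mul_one _).symm)
  have hNlt : ∀ v : HeightOneSpectrum (𝓞 K), (Ideal.absNorm v.asIdeal : ℝ)⁻¹ < 1 := by
    intro v
    have hN := log_Nv_pos v
    have h5 : Real.log (Nv v) = Real.log (Ideal.absNorm v.asIdeal : ℝ) := rfl
    rw [h5] at hN
    have h6 : (1 : ℝ) < (Ideal.absNorm v.asIdeal : ℝ) :=
      (Real.log_pos_iff (Nat.cast_nonneg _)).1 hN
    exact inv_lt_one_of_one_lt₀ h6
  have hdisj : ∀ i j, i ≠ j → Disjoint (V i) (V j) := by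
    intro i j hij
    refine Finset.disjoint_left.2 fun v hv hv' => ?_
    obtain ⟨-, -, c3, -, -⟩ := hVmem i v hv
    obtain ⟨-, -, -, -, c6⟩ := hVmem j v hv'
    have h1 := c6 i hij
    rw [c3] at h1
    exact absurd h1 (hNlt v).ne
  have hzF : ∀ j, eval₂ ι z (deh (F j)) ≠ 0 := by
    intro j h0
    apply hxF j
    rw [hval (hhom j), h0, mul_zero]
  have hab : ∀ j, ∀ v ∈ V j, ∀ w ∈ abv L v,
      (⨆ i, FinitePlace.mk w (algebraMap K L (x i))) = FinitePlace.mk w (algebraMap K L (x 0)) ∧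
      FinitePlace.mk w (algebraMap K L (eval₂ ι z (deh (F j)))) =
        ((Ideal.absNorm w.asIdeal : ℝ) ^ ri v w)⁻¹ := by
    intro j v hv w hw
    obtain ⟨c1, c2, c3, c5, c6⟩ := hVmem j v hv
    have hw' := mem_abv.1 hw
    refine ⟨le_antisymm (ciSup_le fun i => ?_)
      (le_ciSup (f := fun i => FinitePlace.mk w (algebraMap K L (x i)))
        (Set.finite_range _).bddAbove 0), fv_ri hw' c3⟩
    refine Fin.cases le_rfl (fun i => ?_) i
    have h1 := (Pool.Agent.N459.AC.above hw' (c2 i)).1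
    have h2 : x i.succ = z i * x 0 := by
      rw [hz]
      field_simp
    rw [h2, map_mul, map_mul]
    exact mul_le_of_le_one_left (apply_nonneg _ _) h1
  have hx0w : ∀ w : HeightOneSpectrum (𝓞 L), 0 < FinitePlace.mk w (algebraMap K L (x 0)) :=
    fun w => (fv w).pos ((map_ne_zero _).2 hx0)
  have hFw : ∀ j (w : HeightOneSpectrum (𝓞 L)),
      FinitePlace.mk w (algebraMap K L (aeval x (up ι (F j)))) =
        FinitePlace.mk w (algebraMap K L (x 0)) ^ κ j *
          FinitePlace.mk w (algebraMap K L (eval₂ ι z (deh (F j)))) := by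
    intro j w
    rw [hval (hhom j), map_mul, map_mul, map_pow, map_pow]
  have hdl : ∀ i, ∀ v ∈ V (c i), ∀ w ∈ abv L v,
      dloc (up ι (F (c i))) (κ (c i)) (Z i) x φ (FinitePlace.mk w) =
        - Real.log (max (FinitePlace.mk w (algebraMap K L (eval₂ ι z (deh (F (c i))))))
          (mx (Z i) fun a => FinitePlace.mk w (φ a))) := by
    intro i v hv w hw
    obtain ⟨h1, h2⟩ := hab (c i) v hv w hw
    unfold dloc mx
    rw [h1, hFw, mul_div_cancel_left₀ _ (pow_pos (hx0w w) _).ne']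
    congr 3
    refine iSup_congr fun a => ?_
    rw [div_self (hx0w w).ne', one_pow, one_mul]
  refine ⟨fun j v hv w hw => ?_, ?_⟩
  · rw [← hV] at hv
    obtain ⟨h1, h2⟩ := hab j v hv w hw
    have h3 : lam L (up ι (F j)) (κ j) x w =
      Real.log ((⨆ i, FinitePlace.mk w (algebraMap K L (x i))) ^ κ j /
        FinitePlace.mk w (algebraMap K L (aeval x (up ι (F j))))) := rfl
    rw [h3, h1, hFw, h2, div_mul_cancel_left₀ (pow_pos (hx0w w) _).ne', inv_inv, Real.log_pow]
  have hHf := hitD_finite (fun j => deh (F j)) c Z D ι hzF (L := L) φ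
  have hwt := disc_gen (K := K) (L := L) V hdisj (fun j v => ∑ w ∈ abv L v,
    (∑ i ∈ Finset.univ.filter (fun i : Fin t => c i = j),
      ((e i : ℝ) - 1 + if i ∈ D then 1 else 0) *
        dloc (up ι (F (c i))) (κ (c i)) (Z i) x φ (FinitePlace.mk w) -
      if HitD (fun j => deh (F j)) c Z D ι z φ w then
        Real.log (Ideal.absNorm w.asIdeal : ℝ) else 0)) (by
    intro j v hv
    obtain ⟨J, a1, a2, a3, a4⟩ := ram2 (L := L) hRAM v
    refine ⟨J, a1, a2, a3, le_trans (Finset.sum_le_sum fun w hw => ?_) a4⟩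
    obtain ⟨c1, c2, c3, c5, c6⟩ := hVmem j v hv
    have hw' := mem_abv.1 hw
    obtain ⟨b1, b2⟩ := hsp j K ι L φ z hcomp v (notMem_of_dvd (by
      rw [hn]
      exact Dvd.dvd.mul_right (Finset.dvd_prod_of_mem n' (Finset.mem_univ j)) _) c1) c2 c5 w hw'
    obtain ⟨h1, h2⟩ := hab j v hv w hw
    have h3 := loc_ineq w (Finset.univ.filter fun i : Fin t => c i = j) Z e he D φ
      (FinitePlace.mk w (algebraMap K L (eval₂ ι z (deh (F j))))) (ri v w) (ri_pos hw') h2 b1 b2
      (HitD (fun j => deh (F j)) c Z D ι z φ w) (by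
        intro i hi hiD hm
        refine ⟨fun l => (Pool.Agent.N459.AC.above hw' (c2 l)).1, i, hiD, ?_, hm⟩
        rw [(Finset.mem_filter.1 hi).2]
        exact (Pool.Agent.N459.AC.above hw' (c3.trans_lt (hNlt v)).le).2.1
          (c3.trans_lt (hNlt v)))
    rw [sub_le_iff_le_add]
    refine le_trans (le_of_eq ?_) h3
    refine Finset.sum_congr rfl fun i hi => ?_
    have hi' := (Finset.mem_filter.1 hi).2
    have hv' : v ∈ V (c i) := by
      rw [hi']
      exact hv
    rw [hdl i v hv' w hw, hi'])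
  -- the hits
  have e1 : ∑ᶠ w : HeightOneSpectrum (𝓞 L), (if HitD (fun j => deh (F j)) c Z D ι z φ w then
      Real.log (Ideal.absNorm w.asIdeal : ℝ) else 0) =
      ∑ w ∈ hHf.toFinset, Real.log (Ideal.absNorm w.asIdeal : ℝ) := by
    rw [finsum_eq_sum_of_support_subset (s := hHf.toFinset)]
    · refine Finset.sum_congr rfl fun w hw => ?_
      rw [Set.Finite.mem_toFinset] at hw
      exact if_pos hw
    · intro w hw
      rw [Set.Finite.coe_toFinset]
      by_contra hcon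
      exact hw (if_neg hcon)
  rw [e1]
  have e2 : ∑ j, ∑ v ∈ V j, ∑ w ∈ abv L v, (if HitD (fun j => deh (F j)) c Z D ι z φ w then
      Real.log (Ideal.absNorm w.asIdeal : ℝ) else 0) ≤
      ∑ w ∈ hHf.toFinset, Real.log (Ideal.absNorm w.asIdeal : ℝ) := by
    have f1 : ∑ j, ∑ v ∈ V j, ∑ w ∈ abv L v, (if HitD (fun j => deh (F j)) c Z D ι z φ w then
        Real.log (Ideal.absNorm w.asIdeal : ℝ) else 0) =
        ∑ w ∈ Finset.univ.biUnion fun j => (V j).biUnion fun v => abv L v,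
          (if HitD (fun j => deh (F j)) c Z D ι z φ w then
            Real.log (Ideal.absNorm w.asIdeal : ℝ) else 0) := by
      rw [Finset.sum_biUnion]
      · refine Finset.sum_congr rfl fun j _ => ?_
        rw [Finset.sum_biUnion]
        intro v _ v' _ hvv'
        refine Finset.disjoint_left.2 fun w hw hw' => hvv' ?_
        exact ab_unique (mem_abv.1 hw) (mem_abv.1 hw')
      · intro i _ j _ hij
        refine Finset.disjoint_left.2 fun w hw hw' => ?_
        rw [Finset.mem_biUnion] at hw hw'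
        obtain ⟨v, hv, hvw⟩ := hw
        obtain ⟨v', hv', hvw'⟩ := hw'
        have := ab_unique (mem_abv.1 hvw) (mem_abv.1 hvw')
        rw [← this] at hv'
        exact Finset.disjoint_left.1 (hdisj i j hij) hv hv'
    rw [f1, ← Finset.sum_filter]
    refine Finset.sum_le_sum_of_subset_of_nonneg ?_ fun w _ _ => Real.log_natCast_nonneg _
    intro w hw
    rw [Set.Finite.mem_toFinset]
    exact (Finset.mem_filter.1 hw).2
  -- the sum over the divisors
  have e3 : ∑ i, ((e i : ℝ) - 1 + if i ∈ D then 1 else 0) * ∑ v ∈ V (c i),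
      ∑ w ∈ abv L v, dloc (up ι (F (c i))) (κ (c i)) (Z i) x φ (FinitePlace.mk w) =
      ∑ j, ∑ v ∈ V j, ∑ w ∈ abv L v, ∑ i ∈ Finset.univ.filter (fun i : Fin t => c i = j),
        ((e i : ℝ) - 1 + if i ∈ D then 1 else 0) *
          dloc (up ι (F (c i))) (κ (c i)) (Z i) x φ (FinitePlace.mk w) := by
    rw [← Finset.sum_fiberwise Finset.univ c]
    refine Finset.sum_congr rfl fun j _ => ?_
    have f1 : ∀ i ∈ Finset.univ.filter (fun i : Fin t => c i = j),
        ((e i : ℝ) - 1 + if i ∈ D then 1 else 0) * ∑ v ∈ V (c i),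
          ∑ w ∈ abv L v, dloc (up ι (F (c i))) (κ (c i)) (Z i) x φ (FinitePlace.mk w) =
        ∑ v ∈ V j, ∑ w ∈ abv L v, ((e i : ℝ) - 1 + if i ∈ D then 1 else 0) *
          dloc (up ι (F (c i))) (κ (c i)) (Z i) x φ (FinitePlace.mk w) := by
      intro i hi
      rw [(Finset.mem_filter.1 hi).2, Finset.mul_sum]
      exact Finset.sum_congr rfl fun v _ => Finset.mul_sum _ _ _
    rw [Finset.sum_congr rfl f1, Finset.sum_comm]
    refine Finset.sum_congr rfl fun v _ => ?_
    rw [Finset.sum_comm]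
  simp only [Finset.sum_sub_distrib] at hwt
  simp only [hV] at e3 e2 hwt
  rw [e3]
  linarith

end Pool.Agent.D0H60.VDR
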