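import Pool.Agent.D0H60.VDR.Pt3

set_option autoImplicit false
set_option linter.unusedSectionVars false

/-!
# The height relative to a prime divisor
-/

namespace Pool.Agent.D0H60.VDR

open NumberField IsDedekindDomain MvPolynomial Module Height
open Pool.Agent.H691R3 (fv fv_na fv_support_finite log_fv Nv log_Nv_pos)
open Pool.Agent.N752.HY
open Pool.Agent.N752.HY.Ext
open Pool.Agent.N753.AC (Ab ab_unique)

section

variable {K : Type} [Field K] [NumberField K] {m : ℕ} {F : MvPolynomial (Fin (m + 1)) (𝓞 K)}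
  {κ : ℕ} {A : Type} {Z : Finset (ℕ × A)} {x : Fin (m + 1) → K} {L : Type} [Field L]
  [NumberField L] [Algebra K L] {ψ : A → L}

lemma dloc_le (v : AbsoluteValue L ℝ) (hx : x ≠ 0) (hl : aeval x F ≠ 0) :
    dloc F κ Z x ψ v ≤ Real.log ((⨆ j, v (algebraMap K L (x j))) ^ κ /
      v (algebraMap K L (aeval x F))) := by
  have h1 : 0 < ⨆ j, v (algebraMap K L (x j)) := sup_pos' v (map_ne (L := L) hx)
  have h2 : 0 < v (algebraMap K L (aeval x F)) := v.pos ((map_ne_zero _).2 hl)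
  have h3 : Real.log ((⨆ j, v (algebraMap K L (x j))) ^ κ / v (algebraMap K L (aeval x F))) =
      - Real.log (v (algebraMap K L (aeval x F)) / (⨆ j, v (algebraMap K L (x j))) ^ κ) := by
    rw [← Real.log_inv, inv_div]
  rw [h3]
  unfold dloc
  exact neg_le_neg (Real.log_le_log (by positivity) (le_max_left _ _))

lemma dloc_fin_le (hx : x ≠ 0) (hl : aeval x F ≠ 0) (w : HeightOneSpectrum (𝓞 L)) :
    dloc F κ Z x ψ (FinitePlace.mk w) ≤ lam L F κ x w := dloc_le (fv w) hx hl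

lemma dloc_inf_le (hx : x ≠ 0) (hl : aeval x F ≠ 0) (w : InfinitePlace L) :
    dloc F κ Z x ψ w ≤ lamInf L F κ x w := dloc_le w.1 hx hl

lemma dloc_support (hx : x ≠ 0) (hx0 : x 0 ≠ 0) (hl : aeval x F ≠ 0) :
    {w : HeightOneSpectrum (𝓞 L) | dloc F κ Z x ψ (FinitePlace.mk w) ≠ 0}.Finite := by
  classical
  have h1 : (⋃ a ∈ {a : ℕ × A | a ∈ Z ∧ ψ a.2 ≠ 0},
      {w : HeightOneSpectrum (𝓞 L) | fv w (ψ a.2) ≠ 1}).Finite := by
    refine Set.Finite.biUnion (Z.finite_toSet.subset fun a ha => ha.1) fun a ha => ?_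
    exact fv_support_finite ha.2
  refine (((sup_finite (map_ne (L := L) hx)).union
    (fv_support_finite ((map_ne_zero (algebraMap K L)).2 hl))).union
    ((fv_support_finite ((map_ne_zero (algebraMap K L)).2 hx0)).union h1)).subset ?_
  intro w hw
  by_contra hc
  apply hw
  simp only [Set.mem_union, Set.mem_ofPred_eq, Set.mem_iUnion, not_or, not_not, not_exists] at hc
  obtain ⟨⟨c1, c2⟩, c3, c4⟩ := hc
  have d1 : (⨆ j, FinitePlace.mk w (algebraMap K L (x j))) = 1 := c1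
  have d2 : FinitePlace.mk w (algebraMap K L (aeval x F)) = 1 := c2
  have d3 : FinitePlace.mk w (algebraMap K L (x 0)) = 1 := c3
  show dloc F κ Z x ψ (FinitePlace.mk w) = 0
  unfold dloc
  rw [d1, d2, d3, one_pow, div_one]
  have h2 : (⨆ a : {a // a ∈ Z}, (1 : ℝ) ^ a.1.1 * FinitePlace.mk w (ψ a.1.2)) ≤ 1 := by
    refine Real.iSup_le (fun a => ?_) zero_le_one
    rw [one_pow, one_mul]
    by_cases h : ψ a.1.2 = 0
    · rw [h, map_zero]
      exact zero_le_one
    · exact le_of_eq (c4 a.1 ⟨a.2, h⟩)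
  rw [max_eq_left h2, Real.log_one, neg_zero]

/-- **the height relative to a prime divisor is concentrated at the good primes** -/
theorem glob (hF : F.IsHomogeneous κ) (hx : x ≠ 0) (hx0 : x 0 ≠ 0) (hl : aeval x F ≠ 0)
    (Gd : Finset (HeightOneSpectrum (𝓞 K)))
    (hG : ∀ v ∈ Gd, ∀ w ∈ abv L v, lam L F κ x w = ri v w * Real.log (Ideal.absNorm w.asIdeal)) :
    ∑ w : InfinitePlace L, (w.mult : ℝ) * dloc F κ Z x ψ w +
      ∑ᶠ w : HeightOneSpectrum (𝓞 L), dloc F κ Z x ψ (FinitePlace.mk w) ≤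
      ∑ v ∈ Gd, ∑ w ∈ abv L v, dloc F κ Z x ψ (FinitePlace.mk w) +
        Module.finrank K L * (κ * logHeight x - ∑ v ∈ Gd, Real.log (Ideal.absNorm v.asIdeal)) := by
  classical
  obtain ⟨W, hW⟩ : ∃ W : Finset (HeightOneSpectrum (𝓞 L)), W = Gd.biUnion fun v => abv L v :=
    ⟨_, rfl⟩
  have hdisj : ∀ v ∈ Gd, ∀ v' ∈ Gd, v ≠ v' → Disjoint (abv L v) (abv L v') := by
    intro v _ v' _ hvv'
    exact Finset.disjoint_left.2 fun w hw hw' => hvv' (ab_unique (mem_abv.1 hw) (mem_abv.1 hw'))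
  have hsum : ∀ f : HeightOneSpectrum (𝓞 L) → ℝ, ∑ w ∈ W, f w = ∑ v ∈ Gd, ∑ w ∈ abv L v, f w := by
    intro f
    rw [hW, Finset.sum_biUnion (fun v hv v' hv' h => hdisj v hv v' hv' h)]
  have hlam : ∑ w ∈ W, lam L F κ x w =
      Module.finrank K L * ∑ v ∈ Gd, Real.log (Ideal.absNorm v.asIdeal) := by
    rw [hsum, Finset.mul_sum]
    refine Finset.sum_congr rfl fun v hv => ?_
    rw [← deg_formula (L := L)]
    exact Finset.sum_congr rfl fun w hw => hG v hv w hw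
  obtain ⟨U, hU⟩ : ∃ U : Finset (HeightOneSpectrum (𝓞 L)),
    U = (dloc_support (κ := κ) (Z := Z) (ψ := ψ) hx hx0 hl).toFinset := ⟨_, rfl⟩
  have h1 : ∑ᶠ w : HeightOneSpectrum (𝓞 L), dloc F κ Z x ψ (FinitePlace.mk w) =
      ∑ w ∈ U ∪ W, dloc F κ Z x ψ (FinitePlace.mk w) := by
    rw [finsum_eq_sum_of_support_subset]
    intro w hw
    rw [Finset.coe_union]
    left
    rw [Finset.mem_coe, hU, Set.Finite.mem_toFinset]
    exact hw
  have h2 : ∑ w ∈ U ∪ W, dloc F κ Z x ψ (FinitePlace.mk w) =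
      ∑ w ∈ W, dloc F κ Z x ψ (FinitePlace.mk w) +
        ∑ w ∈ U \ W, dloc F κ Z x ψ (FinitePlace.mk w) := by
    rw [← Finset.sum_union Finset.disjoint_sdiff, Finset.union_sdiff_self_eq_union, Finset.union_comm]
  have h3 := sum_lam_le (L := L) hF hx hl ((U \ W) ∪ W)
  rw [Finset.sum_union Finset.sdiff_disjoint, hlam] at h3
  have h4 : ∑ w ∈ U \ W, dloc F κ Z x ψ (FinitePlace.mk w) ≤ ∑ w ∈ U \ W, lam L F κ x w :=
    Finset.sum_le_sum fun w _ => dloc_fin_le hx hl w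
  have h5 : ∑ w : InfinitePlace L, (w.mult : ℝ) * dloc F κ Z x ψ w ≤
      ∑ w : InfinitePlace L, (w.mult : ℝ) * lamInf L F κ x w :=
    Finset.sum_le_sum fun w _ => mul_le_mul_of_nonneg_left (dloc_inf_le hx hl w)
      (Nat.cast_nonneg _)
  rw [h1, h2, hsum]
  have h6 : (Module.finrank K L : ℝ) *
      (κ * logHeight x - ∑ v ∈ Gd, Real.log (Ideal.absNorm v.asIdeal)) =
      κ * (Module.finrank K L * logHeight x) -
        Module.finrank K L * ∑ v ∈ Gd, Real.log (Ideal.absNorm v.asIdeal) := by ring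
  rw [h6]
  linarith

end

end Pool.Agent.D0H60.VDR
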