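import Pool.Agent.D0H60.VDR.Fin
import Pool.Agent.D0H60.VDR.Pt4
import Pool.Agent.D0H60.VDR.Pt5

set_option autoImplicit false
set_option linter.unusedSectionVars false

/-!
# All covers of projective space, ALL points above almost all points of degree `r`
-/

namespace Pool.Agent.D0H60.VDR

open NumberField IsDedekindDomain MvPolynomial Module Height
open scoped LinearAlgebra.Projectivization
open Pool.Agent.Results.MP_44a246_nt.BoundedDegreeHyperplanes (height toC fieldOf alpha toC_inj)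
open Pool.Agent.N752.SU (spanDim Full DensityZero)
open Pool.Agent.N752.HY
open Pool.Agent.N752.HY.Ext
open Pool.Agent.N753.AC (StmRAM)
open Pool.Agent.N752.CP (good deh)
open Pool.Agent.R366.NF (idealHeight)

/-- the height relative to a prime divisor of `X` -/
noncomputable def dht {K : Type} [Field K] [NumberField K] {m : ℕ}
    (F : MvPolynomial (Fin (m + 1)) (𝓞 K)) (κ : ℕ) {A : Type} (Z : Finset (ℕ × A))
    (x : Fin (m + 1) → K) {L : Type} [Field L] [NumberField L] [Algebra K L] (ψ : A → L) : ℝ :=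
  (∑ w : InfinitePlace L, (w.mult : ℝ) * dloc F κ Z x ψ w +
    ∑ᶠ w : HeightOneSpectrum (𝓞 L), dloc F κ Z x ψ (FinitePlace.mk w)) / finrank ℚ L

open Classical in
/-- the inequality at a point which meets the divisors mostly with multiplicity one -/
theorem conclP {k : Type} [Field k] [NumberField k] {m : ℕ} (hRAM : StmRAM)
    (A : Type) [CommRing A] [Algebra (MvPolynomial (Fin m) k) A]
    [Algebra.IsIntegral (MvPolynomial (Fin m) k) A]
    {r : ℕ} (F : Fin r → MvPolynomial (Fin (m + 1)) (𝓞 k)) (κ : Fin r → ℕ)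
    (h1 : ∀ j, (F j).IsHomogeneous (κ j))
    (h2 : ∀ j, Irreducible (map (algebraMap (𝓞 k) k) (F j)))
    (h3 : ∀ j, Irreducible (deh (F j)))
    (h4 : ∀ i j, i ≠ j →
      ¬ Associated (map (algebraMap (𝓞 k) k) (F i)) (map (algebraMap (𝓞 k) k) (F j)))
    {t : ℕ} (c : Fin t → Fin r) (𝔮 : Fin t → Ideal A) (Z : Fin t → Finset (ℕ × A))
    (e : Fin t → ℕ) (D : Finset (Fin t)) (hprime : ∀ i, (𝔮 i).IsPrime)
    (hinj : Function.Injective 𝔮)
    (hcomap : ∀ i, (𝔮 i).comap (algebraMap (MvPolynomial (Fin m) k) A) =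
      Ideal.span {deh (F (c i))})
    (hZ : ∀ i, Ideal.span (Prod.snd '' (Z i : Set (ℕ × A))) = 𝔮 i) (he : ∀ i, 1 ≤ e i)
    (hram : ∀ i, ∃ a, a ∉ 𝔮 i ∧
      a * algebraMap (MvPolynomial (Fin m) k) A (deh (F (c i))) ∈ 𝔮 i ^ e i) :
    ∃ (G : Fin r → MvPolynomial (Fin (m + 1)) (𝓞 k)) (b : Fin r → ℕ) (n₀ : ℕ), n₀ ≠ 0 ∧
      (∀ j, (G j).IsHomogeneous (b j)) ∧
      (∀ j, ¬ map (algebraMap (𝓞 k) k) (F j) ∣ map (algebraMap (𝓞 k) k) (G j)) ∧
      ∀ (M Λ : ℕ) (ε δ : ℝ), 0 ≤ δ → δ * ((∑ i, (e i : ℝ)) + M + 1) ≤ ε →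
      ∀ (K : Type) [Field K] [NumberField K] (ι : k →+* K) (x : Fin (m + 1) → K) (P I : ℝ),
        x 0 ≠ 0 →
        (∀ j, aeval x (up ι (F j)) ≠ 0 ∧ aeval x (up ι (G j)) ≠ 0 ∧
          ((κ j : ℝ) - δ) * (finrank ℚ K * hgt x) ≤
            ∑ v ∈ good (up ι (F j)) (up ι (G j)) (κ j) (b j) (badn K n₀) x,
              Real.log (Ideal.absNorm v.asIdeal)) →
        P ≤ δ * hgt x → Λ * I ≤ δ * hgt x →
        ∀ (L : Type) [Field L] [NumberField L] [Algebra K L] (ψ : A →+* L),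
          (∀ f : MvPolynomial (Fin m) k, ψ (algebraMap (MvPolynomial (Fin m) k) A f) =
            algebraMap K L (eval₂ ι (fun i => x i.succ / x 0) f)) →
          ∑ i, ((e i : ℝ) - 1 + if i ∈ D then 1 else 0) *
              dht (up ι (F (c i))) (κ (c i)) (Z i) x ψ - ε * hgt x + M * P + Λ * I ≤
            (∑ᶠ w : HeightOneSpectrum (𝓞 L), if HitD (fun j => deh (F j)) c Z D ι
              (fun i => x i.succ / x 0) ψ w then
                Real.log (Ideal.absNorm w.asIdeal) else 0) / finrank ℚ L + ldisc L - ldisc K := by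
  obtain ⟨G, b, n₀, k0, k1, k2, k3⟩ := coverP hRAM A F κ h1 h2 h3 h4 c 𝔮 Z e D hprime hinj hcomap
    hZ he hram
  refine ⟨G, b, n₀, k0, k1, k2, ?_⟩
  intro M Λ ε δ hδ hδε K _ _ ι x P I hx0 hgood hP hI L _ _ _ ψ hcomp
  obtain ⟨hlam, hmain⟩ := k3 K ι x hx0 (fun j => (hgood j).1) (fun j => (hgood j).2.1) L ψ hcomp
  have hx : x ≠ 0 := fun h => hx0 (by rw [h]; rfl)
  obtain ⟨TR, hTR⟩ : ∃ TR : ℝ, TR = ∑ᶠ w : HeightOneSpectrum (𝓞 L),
    if HitD (fun j => deh (F j)) c Z D ι (fun i => x i.succ / x 0) ψ w then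
      Real.log (Ideal.absNorm w.asIdeal : ℝ) else 0 := ⟨_, rfl⟩
  rw [← hTR] at hmain ⊢
  have hn0 : (0 : ℝ) < finrank ℚ K := by exact_mod_cast (finrank_pos (R := ℚ) (M := K))
  have hL0 : (0 : ℝ) < finrank ℚ L := by exact_mod_cast (finrank_pos (R := ℚ) (M := L))
  have hKL : (0 : ℝ) < finrank K L := by exact_mod_cast (finrank_pos (R := K) (M := L))
  have htow : (finrank ℚ L : ℝ) = finrank ℚ K * finrank K L := by
    exact_mod_cast (Module.finrank_mul_finrank ℚ K L).symm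
  have hlog : logHeight x = finrank ℚ K * hgt x := by
    unfold hgt
    field_simp
  have hh0 : 0 ≤ hgt x := hgt0 _
  have ha0 : ∀ i, (0 : ℝ) ≤ (e i : ℝ) - 1 + if i ∈ D then 1 else 0 := by
    intro i
    have h5 : (1 : ℝ) ≤ e i := by exact_mod_cast he i
    split_ifs <;> linarith
  have ha1 : ∀ i, (e i : ℝ) - 1 + (if i ∈ D then 1 else 0) ≤ e i := by
    intro i
    split_ifs <;> linarith
  -- the heights
  have hc : ∀ i, ((e i : ℝ) - 1 + if i ∈ D then 1 else 0) *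
      dht (up ι (F (c i))) (κ (c i)) (Z i) x ψ ≤
      (((e i : ℝ) - 1 + if i ∈ D then 1 else 0) *
        ∑ v ∈ good (up ι (F (c i))) (up ι (G (c i))) (κ (c i)) (b (c i)) (badn K n₀) x,
          ∑ w ∈ abv L v, dloc (up ι (F (c i))) (κ (c i)) (Z i) x ψ (FinitePlace.mk w)) /
            finrank ℚ L + e i * (δ * hgt x) := by
    intro i
    have g0 : (up ι (F (c i))).IsHomogeneous (κ (c i)) := (h1 (c i)).map _
    have g1 := glob (L := L) (Z := Z i) (ψ := ψ) g0 hx hx0 (hgood (c i)).1 _ (hlam (c i))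
    have g2 := (hgood (c i)).2.2
    have g3 : dht (up ι (F (c i))) (κ (c i)) (Z i) x ψ ≤
        (∑ v ∈ good (up ι (F (c i))) (up ι (G (c i))) (κ (c i)) (b (c i)) (badn K n₀) x,
          ∑ w ∈ abv L v, dloc (up ι (F (c i))) (κ (c i)) (Z i) x ψ (FinitePlace.mk w)) /
            finrank ℚ L + δ * hgt x := by
      unfold dht
      rw [div_add' _ _ _ hL0.ne']
      refine div_le_div_of_nonneg_right (g1.trans ?_) hL0.le
      have g4 : (finrank K L : ℝ) * (κ (c i) * logHeight x -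
          ∑ v ∈ good (up ι (F (c i))) (up ι (G (c i))) (κ (c i)) (b (c i)) (badn K n₀) x,
            Real.log (Ideal.absNorm v.asIdeal)) ≤ δ * hgt x * finrank ℚ L := by
        rw [htow, hlog]
        have g5 : (κ (c i) : ℝ) * (finrank ℚ K * hgt x) -
            ∑ v ∈ good (up ι (F (c i))) (up ι (G (c i))) (κ (c i)) (b (c i)) (badn K n₀) x,
              Real.log (Ideal.absNorm v.asIdeal : ℝ) ≤ δ * (finrank ℚ K * hgt x) := by
          linarith
        have g6 := mul_le_mul_of_nonneg_left g5 hKL.le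
        refine g6.trans (le_of_eq ?_)
        ring
      linarith
    have g7 := mul_le_mul_of_nonneg_left g3 (ha0 i)
    have g8 : ((e i : ℝ) - 1 + if i ∈ D then 1 else 0) * (δ * hgt x) ≤ e i * (δ * hgt x) :=
      mul_le_mul_of_nonneg_right (ha1 i) (mul_nonneg hδ hh0)
    rw [mul_add, ← mul_div_assoc] at g7
    linarith
  have hsum := Finset.sum_le_sum fun i (_ : i ∈ (Finset.univ : Finset (Fin t))) => hc i
  rw [Finset.sum_add_distrib, ← Finset.sum_div, ← Finset.sum_mul] at hsum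
  have hm2 : (∑ i, ((e i : ℝ) - 1 + if i ∈ D then 1 else 0) *
      ∑ v ∈ good (up ι (F (c i))) (up ι (G (c i))) (κ (c i)) (b (c i)) (badn K n₀) x,
        ∑ w ∈ abv L v, dloc (up ι (F (c i))) (κ (c i)) (Z i) x ψ (FinitePlace.mk w)) /
          finrank ℚ L ≤ TR / finrank ℚ L + Real.log |(discr L : ℝ)| / finrank ℚ L -
            Real.log |(discr K : ℝ)| / finrank ℚ K := by
    have hK1 : Real.log |(discr K : ℝ)| / finrank ℚ K =
        (finrank K L * Real.log |(discr K : ℝ)|) / finrank ℚ L := by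
      rw [htow, div_eq_div_iff hn0.ne' (by positivity)]
      ring
    rw [hK1, ← add_div, ← sub_div]
    refine div_le_div_of_nonneg_right ?_ hL0.le
    linarith
  unfold ldisc
  have i3 : (M : ℝ) * P ≤ M * (δ * hgt x) := mul_le_mul_of_nonneg_left hP (Nat.cast_nonneg _)
  have i4 : δ * ((∑ i, (e i : ℝ)) + M + 1) * hgt x ≤ ε * hgt x :=
    mul_le_mul_of_nonneg_right hδε hh0
  have i5 : δ * ((∑ i, (e i : ℝ)) + M + 1) * hgt x =
      (∑ i, (e i : ℝ)) * (δ * hgt x) + M * (δ * hgt x) + δ * hgt x := by ring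
  rw [i5] at i4
  linarith

variable {m : ℕ}

/-- **one exceptional set for all covers** -/
theorem main8 (hRAM : StmRAM) : ∀ η : ℝ, 0 < η → ∃ c₀ : ℝ, 1 ≤ c₀ ∧
    ∀ (k : IntermediateField ℚ ℂ) [NumberField k] (m r n : ℕ), 1 ≤ m → 1 ≤ r →
      n = r * finrank ℚ k →
      (2 ≤ n → n + 1 ≤ m → 2 * alpha n c₀ η < m) ∧
      ((r = 1 ∧ 3 ≤ n * (m + 1)) ∨ (2 ≤ n ∧ 2 * alpha n c₀ η < m ∧ r ≤ m + 1) →
        ∃ E₀ : Set (ℙ ℂ (Fin (m + 1) → ℂ)), DensityZero (Full k m r) E₀ ∧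
          ((r ≤ 2 ∨ (r : ℝ) * (r - 1) * (2 * alpha n c₀ η + 1) + r ≤ m + 1) →
            DensityZero (All k m r) (E₀ ∪ {P | spanDim k P ≠ r})) ∧
          ∀ (A : Type) [CommRing A] [Algebra (MvPolynomial (Fin m) k) A]
            [Algebra.IsIntegral (MvPolynomial (Fin m) k) A]
            (q : ℕ) (F : Fin q → MvPolynomial (Fin (m + 1)) (𝓞 k)) (κ : Fin q → ℕ),
            (∀ j, (F j).IsHomogeneous (κ j)) →
            (∀ j, Irreducible (map (algebraMap (𝓞 k) k) (F j))) →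
            (∀ j, Irreducible (deh (F j))) →
            (∀ i j, i ≠ j →
              ¬ Associated (map (algebraMap (𝓞 k) k) (F i)) (map (algebraMap (𝓞 k) k) (F j))) →
            (∀ j, κ j ≤ 2 ∨ Lines (cx (F j)) (κ j)) →
            ∀ (u : ℕ) (c : Fin u → Fin q) (𝔮 : Fin u → Ideal A) (Z : Fin u → Finset (ℕ × A))
            (e : Fin u → ℕ) (D : Finset (Fin u)), (∀ i, (𝔮 i).IsPrime) → Function.Injective 𝔮 →
            (∀ i, (𝔮 i).comap (algebraMap (MvPolynomial (Fin m) k) A) =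
              Ideal.span {deh (F (c i))}) →
            (∀ i, Ideal.span (Prod.snd '' (Z i : Set (ℕ × A))) = 𝔮 i) → (∀ i, 1 ≤ e i) →
            (∀ i, ∃ a, a ∉ 𝔮 i ∧
              a * algebraMap (MvPolynomial (Fin m) k) A (deh (F (c i))) ∈ 𝔮 i ^ e i) →
            ∀ (d : ℕ) (R : MvPolynomial (Fin (m + 1)) (𝓞 k)), R.IsHomogeneous d → R ≠ 0 →
            ∀ S' : Finset ℕ, (∀ p ∈ S', p.Prime) →
            ∀ (t : ℕ) (F' G' : Fin t → MvPolynomial (Fin (m + 1)) (𝓞 k)) (κ' ε' : Fin t → ℕ),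
            (∀ l, (F' l).IsHomogeneous (κ' l)) → (∀ l, (G' l).IsHomogeneous (ε' l)) →
            (∀ l, Irreducible (cx (F' l))) → (∀ l, ¬ cx (F' l) ∣ cx (G' l)) →
            ∀ (M Λ : ℕ) (ε : ℝ), 0 < ε → ∃ T : ℝ,
            ∀ (K : IntermediateField ℚ ℂ) (_ : NumberField K) (h : k ≤ K)
              (Q : ℙ K (Fin (m + 1) → K)), fieldOf k (toC Q) = K → toC Q ∉ E₀ → T < height Q →
              Q.rep 0 ≠ 0 ∧ (∀ j, aeval Q.rep (upK h (F j)) ≠ 0) ∧ aeval Q.rep (upK h R) ≠ 0 ∧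
              ∀ (L : Type) [Field L] [NumberField L] [Algebra K L] (ψ : A →+* L),
                (∀ f : MvPolynomial (Fin m) k, ψ (algebraMap (MvPolynomial (Fin m) k) A f) =
                  algebraMap K L (eval₂ (IntermediateField.inclusion h).toRingHom
                    (fun i => Q.rep i.succ / Q.rep 0) f)) →
                ∑ i, ((e i : ℝ) - 1 + open Classical in if i ∈ D then 1 else 0) *
                    dht (upK h (F (c i))) (κ (c i)) (Z i) Q.rep ψ - ε * height Q +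
                    M * prox K S' (upK h R) d Q.rep +
                    Λ * ((∑ l, idealHeight (upK h (F' l)) (upK h (G' l)) (κ' l) (ε' l) Q.rep) /
                      finrank ℚ K) ≤
                  (∑ᶠ w : HeightOneSpectrum (𝓞 L), open Classical in
                    if HitD (fun j => deh (F j)) c Z D (IntermediateField.inclusion h).toRingHom
                      (fun i => Q.rep i.succ / Q.rep 0) ψ w then
                      Real.log (Ideal.absNorm w.asIdeal) else 0) / finrank ℚ L + ldisc L -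
                      ldisc K) := by
  classical
  intro η hη
  obtain ⟨c₀, hc₀, hα⟩ := Pool.Agent.W223.VD.Points.alpha_admissible hη
  refine ⟨c₀, hc₀, ?_⟩
  intro k _ m r n hm hr hn
  refine ⟨fun hn2 hmn => Pool.Agent.N752.SU.alpha_lt hn2 hmn _ _, ?_⟩
  intro hcase
  have hrm : r ≤ m + 1 := by
    rcases hcase with ⟨h1, -⟩ | ⟨-, -, h1⟩
    · omega
    · exact h1
  have hnm : 3 ≤ n * (m + 1) := by
    rcases hcase with ⟨-, h1⟩ | ⟨hn2, hmα, -⟩
    · exact h1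
    · obtain ⟨hα1, hF⟩ := hα n hn2
      have hm2 : 2 ≤ m := by
        have hα1' : 1 ≤ alpha n c₀ η := hα1
        have h1 : (2 : ℝ) < m := by linarith
        have h2 : 2 < m := by exact_mod_cast h1
        omega
      calc 3 ≤ 2 * (2 + 1) := by norm_num
        _ ≤ n * (m + 1) := Nat.mul_le_mul hn2 (by omega)
  have hcov : Cov k m r n := by
    rcases hcase with ⟨h1, -⟩ | ⟨hn2, hmα, -⟩
    · subst h1
      rw [hn, one_mul]
      exact cov_one k m
    · obtain ⟨hα1, hF⟩ := hα n hn2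
      exact cov_alpha s_pts k hm r n hn hn2 hα1 hF hmα
  obtain ⟨E₀, hE₀, hall⟩ := universal3 s_low s_fld k hm r n hn hnm hr hrm hcov
  obtain ⟨E₁, hE₁, hprx⟩ := univ_prx Unp.t_UNP Pl1.t_PL1 Pl2.t_PL2 k hm r n hn hr hrm hcov
  have hcount := countable_poly k m
  have hne : Nonempty (Dt k m) := ⟨((0, 0), (0, 0), 0, 0)⟩
  obtain ⟨E₂, hE₂, hgd⟩ := Unp.t_UNP k m r n hm hn hr hrm hcov (Dt k m) (GdP k m)
    fun i => aap_good k n hnm i
  have hE01 : DensityZero (Full k m r) (E₀ ∪ E₁) := dz_union hcov.1 hE₀ hE₁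
  have hE : DensityZero (Full k m r) ((E₀ ∪ E₁) ∪ E₂) := dz_union hcov.1 hE01 hE₂
  refine ⟨(E₀ ∪ E₁) ∪ E₂, hE, fun hcond => ?_, ?_⟩
  · rcases hcase with ⟨h1, -⟩ | ⟨hn2, hmα, -⟩
    · subst h1
      exact dens_one k hE
    · obtain ⟨hα1, hF⟩ := hα n hn2
      exact dens_all k hm r n hn hn2 hr hrm hα1 hF hmα hE hcond
  intro A _ _ _ q F κ h1 h2 h3 h4 h5 u c 𝔮 Z ee D hprime hinj hcomap hZ hee hram d R hR hR0 S' hS'
    t F' G' κ' ε' g1 g2 g3 g4 M Λ ε hε
  obtain ⟨G, e, n₀, k0, k1, k2, k3⟩ := conclP hRAM A F κ h1 h2 h3 h4 c 𝔮 Z ee D hprime hinj hcomap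
    hZ hee hram
  obtain ⟨B, hB⟩ : ∃ B : ℝ, B = ∑ i, (ee i : ℝ) := ⟨_, rfl⟩
  have hB0 : 0 ≤ B := by
    rw [hB]
    exact Finset.sum_nonneg fun i _ => Nat.cast_nonneg _
  obtain ⟨N, hN⟩ : ∃ N : ℕ, 1 / ((N : ℝ) + 1) < ε / (B + M + 1) :=
    exists_nat_one_div_lt (by positivity)
  obtain ⟨δ, hδ⟩ : ∃ δ : ℝ, δ = 1 / ((N : ℝ) + 1) := ⟨_, rfl⟩
  have hδ0 : 0 < δ := by rw [hδ]; positivity
  have hδε : δ * (B + M + 1) ≤ ε := by
    rw [← hδ, lt_div_iff₀ (by positivity)] at hN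
    exact hN.le
  -- the components
  choose T₁ hT₁ using fun j => hgd ((F j, G j), (κ j, e j), n₀, N)
  -- the ideals
  have hAdm : Adm k (fun i : Fin 0 => (i.elim0 : MvPolynomial (Fin (m + 1)) (𝓞 k)))
      (fun i : Fin 0 => (i.elim0 : ℕ)) F' G' κ' ε' := by
    refine ⟨fun i => i.elim0, ?_, g1, g2, g3, g4⟩
    rw [Finset.univ_eq_empty, Finset.prod_empty]
    exact squarefree_one
  have hw0 : wsum (fun i : Fin 0 => (i.elim0 : MvPolynomial (Fin (m + 1)) (𝓞 k)))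
      (fun i : Fin 0 => (i.elim0 : ℕ)) = 0 := by
    unfold wsum
    rw [Finset.univ_eq_empty, Finset.sum_empty]
  obtain ⟨T₂, hT₂⟩ := hall 0 t _ _ F' G' κ' ε' hAdm Λ (-δ) (by rw [hw0]; linarith)
  obtain ⟨T₃, hT₃⟩ := hprx R d hR hR0 S' hS' δ hδ0
  obtain ⟨T₅, hT₅⟩ := hprx (X 0) 1 (isHomogeneous_X _ _) (X_ne_zero _) ∅ (by simp) 1 one_pos
  refine ⟨∑ j, |T₁ j| + |T₂| + |T₃| + |T₅|, fun K hK h Q hf hQE hTQ => ?_⟩
  rw [Set.mem_union, Set.mem_union, not_or, not_or] at hQE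
  obtain ⟨⟨hQ0, hQ1⟩, hQ2⟩ := hQE
  have p2 : 0 ≤ ∑ j, |T₁ j| := Finset.sum_nonneg fun j _ => abs_nonneg _
  have p4 := abs_nonneg T₂
  have p5 := abs_nonneg T₃
  have p6 := abs_nonneg T₅
  have p7 := le_abs_self T₂
  have p8 := le_abs_self T₃
  have p9 := le_abs_self T₅
  have c1 : ∀ j, aeval Q.rep (upK h (F j)) ≠ 0 ∧ aeval Q.rep (upK h (G j)) ≠ 0 ∧
      ((κ j : ℝ) - δ) * (finrank ℚ K * hgt Q.rep) ≤
        ∑ v ∈ good (upK h (F j)) (upK h (G j)) (κ j) (e j) (badn K n₀) Q.rep,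
          Real.log (Ideal.absNorm v.asIdeal) := by
    intro j
    have a1 := Finset.single_le_sum (f := fun j => |T₁ j|) (fun j _ => abs_nonneg _)
      (Finset.mem_univ j)
    have a2 := le_abs_self (T₁ j)
    have a3 := hT₁ j K hK h Q hf hQ2 (by linarith) ⟨h1 j, k1 j, h2 j, k2 j, h5 j, k0⟩
    rw [hδ]
    exact a3
  have c2 := hT₂ K hK h Q hf hQ0 (by linarith)
  obtain ⟨c3, c4⟩ := hT₃ K hK h Q hf hQ1 (by linarith)
  have c5 := (hT₅ K hK h Q hf hQ1 (by linarith)).1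
  have c6 : Q.rep 0 ≠ 0 := by
    have e1 : upK h (X 0 : MvPolynomial (Fin (m + 1)) (𝓞 k)) = X 0 := map_X _ _
    rw [e1, aeval_X] at c5
    exact c5
  have c7 : (Λ : ℝ) * ((∑ l, idealHeight (upK h (F' l)) (upK h (G' l)) (κ' l) (ε' l) Q.rep) /
      finrank ℚ K) ≤ δ * hgt Q.rep := by
    obtain ⟨-, d2⟩ := c2
    have d3 := ovl_nonneg (fun j : Fin 0 => upK h
      ((fun i : Fin 0 => (i.elim0 : MvPolynomial (Fin (m + 1)) (𝓞 k))) j))
      (fun i : Fin 0 => (i.elim0 : ℕ)) Q.rep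
    have d4 : cnt K ∅ (fun j : Fin 0 => upK h
        ((fun i : Fin 0 => (i.elim0 : MvPolynomial (Fin (m + 1)) (𝓞 k))) j))
        (fun i : Fin 0 => (i.elim0 : ℕ)) Finset.univ Q.rep = 0 := by
      unfold cnt
      rw [finsum_eq_zero_of_forall_eq_zero, zero_div]
      intro w
      refine if_neg ?_
      rintro ⟨-, i, -⟩
      exact i.elim0
    linarith
  refine ⟨c6, fun j => (c1 j).1, c3, ?_⟩
  intro L _ _ _ ψ hcomp
  have hfin := k3 M Λ ε δ hδ0.le (by rw [← hB]; exact hδε) K (IntermediateField.inclusion h).toRingHom Q.rep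
    (prox K S' (upK h R) d Q.rep)
    ((∑ l, idealHeight (upK h (F' l)) (upK h (G' l)) (κ' l) (ε' l) Q.rep) / finrank ℚ K)
    c6 c1 c4 c7 L ψ hcomp
  rw [← hgt_eq]
  exact hfin

end Pool.Agent.D0H60.VDR
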