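import Pool.Agent.D0H60.VDR.Pt6

set_option autoImplicit false
set_option linter.unusedSectionVars false

/-!
# All covers of projective space: power-saving bounds for the exceptional points over one field
-/

namespace Pool.Agent.D0H60.VDR

open NumberField IsDedekindDomain MvPolynomial Module Height
open scoped LinearAlgebra.Projectivization
open Pool.Agent.Results.MP_44a246_nt.BoundedDegreeHyperplanes (height toC fieldOf alpha toC_inj)
open Pool.Agent.N752.HY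
open Pool.Agent.N752.HY.Ext
open Pool.Agent.N753.AC (StmRAM)
open Pool.Agent.N752.CP (good deh)
open Pool.Agent.R366.NF (idealHeight)
open Pool.Agent.N752.HY.KPts (AdmK)

variable {m : ℕ}

/-- the heights relative to ideals of codimension two -/
theorem aa_ideal {k K : IntermediateField ℚ ℂ} [NumberField k] [NumberField K] (h : k ≤ K)
    (hd : 3 ≤ finrank ℚ K * (m + 1)) {t : ℕ} {F' G' : Fin t → MvPolynomial (Fin (m + 1)) (𝓞 k)}
    {κ' ε' : Fin t → ℕ} (g1 : ∀ l, (F' l).IsHomogeneous (κ' l))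
    (g2 : ∀ l, (G' l).IsHomogeneous (ε' l)) (g3 : ∀ l, Irreducible (cx (F' l)))
    (g4 : ∀ l, ¬ cx (F' l) ∣ cx (G' l)) (Λ : ℕ) {δ : ℝ} (hδ : 0 < δ) :
    AA fun Q : ℙ K (Fin (m + 1) → K) =>
      (Λ : ℝ) * ((∑ l, idealHeight (upK h (F' l)) (upK h (G' l)) (κ' l) (ε' l) Q.rep) /
        finrank ℚ K) ≤ δ * hgt Q.rep := by
  classical
  have hirr : ∀ l, Irreducible (map (algebraMap (𝓞 K) K) (upK h (F' l))) := by
    intro l
    have h1 := g3 l
    rw [← cx_upK h, cx_eq] at h1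
    exact t_LFT K ℂ _ _ _ _ _ h1
  have hcop : ∀ l, ¬ map (algebraMap (𝓞 K) K) (upK h (F' l)) ∣
      map (algebraMap (𝓞 K) K) (upK h (G' l)) := by
    intro l hdvd
    apply g4 l
    rw [← cx_upK h, ← cx_upK h (G' l), cx_eq, cx_eq]
    exact _root_.map_dvd
      (MvPolynomial.map (algebraMap K ℂ) : MvPolynomial (Fin (m + 1)) K →+* _) hdvd
  have A1 : AdmK (algebraMap K ℂ) (fun i : Fin 0 => (i.elim0 : MvPolynomial (Fin (m + 1)) (𝓞 K)))
      (fun i : Fin 0 => (i.elim0 : ℕ)) (fun i : Fin 0 => (i.elim0 : ℕ))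
      (fun l => upK h (F' l)) (fun l => upK h (G' l)) κ' ε' :=
    ⟨fun i => i.elim0, fun i => i.elim0, fun i => i.elim0, fun i => i.elim0,
      fun l => (g1 l).map _, fun l => (g2 l).map _, hirr, hcop⟩
  have b1 := KPts.aa_of_adm (algebraMap K ℂ) hd A1 Λ (Nat.cast_nonneg _) (-δ) (by
    rw [Finset.univ_eq_empty, Finset.sum_empty]
    linarith)
  refine b1.mono ?_
  rintro Q ⟨-, d2⟩
  have d4 : cnt K ∅ (fun i : Fin 0 => (i.elim0 : MvPolynomial (Fin (m + 1)) (𝓞 K)))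
      (fun i : Fin 0 => (i.elim0 : ℕ)) Finset.univ Q.rep = 0 := by
    unfold cnt
    rw [finsum_eq_zero_of_forall_eq_zero, zero_div]
    intro w
    refine if_neg ?_
    rintro ⟨-, i, -⟩
    exact i.elim0
  linarith

open Classical in
/-- **the inequality at almost all points over one field** -/
theorem main9 (hRAM : StmRAM) {k K : IntermediateField ℚ ℂ} [NumberField k] [NumberField K]
    (h : k ≤ K) (hd : 3 ≤ finrank ℚ K * (m + 1))
    (A : Type) [CommRing A] [Algebra (MvPolynomial (Fin m) k) A]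
    [Algebra.IsIntegral (MvPolynomial (Fin m) k) A]
    {q : ℕ} (F : Fin q → MvPolynomial (Fin (m + 1)) (𝓞 k)) (κ : Fin q → ℕ)
    (h1 : ∀ j, (F j).IsHomogeneous (κ j))
    (h2 : ∀ j, Irreducible (map (algebraMap (𝓞 k) k) (F j)))
    (h3 : ∀ j, Irreducible (deh (F j)))
    (h4 : ∀ i j, i ≠ j →
      ¬ Associated (map (algebraMap (𝓞 k) k) (F i)) (map (algebraMap (𝓞 k) k) (F j)))
    (h5 : ∀ j, κ j ≤ 2 ∨ Lines (cx (F j)) (κ j))
    {u : ℕ} (c : Fin u → Fin q) (𝔮 : Fin u → Ideal A) (Z : Fin u → Finset (ℕ × A))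
    (ee : Fin u → ℕ) (D : Finset (Fin u)) (hprime : ∀ i, (𝔮 i).IsPrime)
    (hinj : Function.Injective 𝔮)
    (hcomap : ∀ i, (𝔮 i).comap (algebraMap (MvPolynomial (Fin m) k) A) =
      Ideal.span {deh (F (c i))})
    (hZ : ∀ i, Ideal.span (Prod.snd '' (Z i : Set (ℕ × A))) = 𝔮 i) (hee : ∀ i, 1 ≤ ee i)
    (hram : ∀ i, ∃ a, a ∉ 𝔮 i ∧
      a * algebraMap (MvPolynomial (Fin m) k) A (deh (F (c i))) ∈ 𝔮 i ^ ee i)
    {d : ℕ} {R : MvPolynomial (Fin (m + 1)) (𝓞 k)} (hR : R.IsHomogeneous d) (hR0 : R ≠ 0)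
    (S' : Finset ℕ) (hS' : ∀ p ∈ S', p.Prime)
    {t : ℕ} {F' G' : Fin t → MvPolynomial (Fin (m + 1)) (𝓞 k)} {κ' ε' : Fin t → ℕ}
    (g1 : ∀ l, (F' l).IsHomogeneous (κ' l)) (g2 : ∀ l, (G' l).IsHomogeneous (ε' l))
    (g3 : ∀ l, Irreducible (cx (F' l))) (g4 : ∀ l, ¬ cx (F' l) ∣ cx (G' l))
    (M Λ : ℕ) {ε : ℝ} (hε : 0 < ε) :
    AA fun Q : ℙ K (Fin (m + 1) → K) =>
      Q.rep 0 ≠ 0 ∧ (∀ j, aeval Q.rep (upK h (F j)) ≠ 0) ∧ aeval Q.rep (upK h R) ≠ 0 ∧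
      ∀ (L : Type) [Field L] [NumberField L] [Algebra K L] (ψ : A →+* L),
        (∀ f : MvPolynomial (Fin m) k, ψ (algebraMap (MvPolynomial (Fin m) k) A f) =
          algebraMap K L (eval₂ (IntermediateField.inclusion h).toRingHom
            (fun i => Q.rep i.succ / Q.rep 0) f)) →
        ∑ i, ((ee i : ℝ) - 1 + if i ∈ D then 1 else 0) *
            dht (upK h (F (c i))) (κ (c i)) (Z i) Q.rep ψ - ε * height Q +
            M * prox K S' (upK h R) d Q.rep +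
            Λ * ((∑ l, idealHeight (upK h (F' l)) (upK h (G' l)) (κ' l) (ε' l) Q.rep) /
              finrank ℚ K) ≤
          (∑ᶠ w : HeightOneSpectrum (𝓞 L),
            if HitD (fun j => deh (F j)) c Z D (IntermediateField.inclusion h).toRingHom
              (fun i => Q.rep i.succ / Q.rep 0) ψ w then
              Real.log (Ideal.absNorm w.asIdeal) else 0) / finrank ℚ L + ldisc L - ldisc K := by
  obtain ⟨G, e, n₀, k0, k1, k2, k3⟩ := conclP hRAM A F κ h1 h2 h3 h4 c 𝔮 Z ee D hprime hinj hcomap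
    hZ hee hram
  obtain ⟨B, hB⟩ : ∃ B : ℝ, B = ∑ i, (ee i : ℝ) := ⟨_, rfl⟩
  have hB0 : 0 ≤ B := by
    rw [hB]
    exact Finset.sum_nonneg fun i _ => Nat.cast_nonneg _
  obtain ⟨N, hN⟩ : ∃ N : ℕ, 1 / ((N : ℝ) + 1) < ε / (B + M + 1) :=
    exists_nat_one_div_lt (by positivity)
  obtain ⟨δ, hδ⟩ : ∃ δ : ℝ, δ = 1 / ((N : ℝ) + 1) := ⟨_, rfl⟩
  have hδ0 : 0 < δ := by rw [hδ]; positivity
  have hδε : δ * (B + M + 1) ≤ ε := by
    rw [← hδ, lt_div_iff₀ (by positivity)] at hN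
    exact hN.le
  -- the components
  have b1 := AA.all (Finset.univ : Finset (Fin q)) fun j _ =>
    aap_good k (finrank ℚ K) hd ((F j, G j), (κ j, e j), n₀, N) K inferInstance h rfl
  -- the ideals
  have b2 := aa_ideal h hd g1 g2 g3 g4 Λ hδ0
  have b3 := Prx.prx Pl1.t_PL1 Pl2.t_PL2 d (upK h R) (hR.map _) (upK_ne h hR0) S' hS' hδ0
  have b5 := Prx.prx (K := K) (m := m) Pl1.t_PL1 Pl2.t_PL2 1 (X 0) (isHomogeneous_X _ _)
    (X_ne_zero _) ∅ (by simp) one_pos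
  refine ((b1.and b2).and (b3.and b5)).mono ?_
  rintro Q ⟨⟨a1, c7⟩, ⟨c3, c4⟩, c5, -⟩
  have c1 : ∀ j, aeval Q.rep (upK h (F j)) ≠ 0 ∧ aeval Q.rep (upK h (G j)) ≠ 0 ∧
      ((κ j : ℝ) - δ) * (finrank ℚ K * hgt Q.rep) ≤
        ∑ v ∈ good (upK h (F j)) (upK h (G j)) (κ j) (e j) (badn K n₀) Q.rep,
          Real.log (Ideal.absNorm v.asIdeal) := by
    intro j
    have a3 := a1 j (Finset.mem_univ j) ⟨h1 j, k1 j, h2 j, k2 j, h5 j, k0⟩
    rw [hδ]
    exact a3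
  have c6 : Q.rep 0 ≠ 0 := by
    rw [aeval_X] at c5
    exact c5
  refine ⟨c6, fun j => (c1 j).1, c3, ?_⟩
  intro L _ _ _ ψ hcomp
  have hfin := k3 M Λ ε δ hδ0.le (by rw [← hB]; exact hδε) K
    (IntermediateField.inclusion h).toRingHom Q.rep
    (prox K S' (upK h R) d Q.rep)
    ((∑ l, idealHeight (upK h (F' l)) (upK h (G' l)) (κ' l) (ε' l) Q.rep) / finrank ℚ K)
    c6 c1 c4 c7 L ψ hcomp
  rw [← hgt_eq]
  exact hfin

end Pool.Agent.D0H60.VDR
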