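import Pool.Agent.D0H60.VDR.Pt7

set_option autoImplicit false
set_option linter.unusedSectionVars false

/-!
# One exceptional set with a rate
-/

namespace Pool.Agent.D0H60.VDR

open NumberField IsDedekindDomain MvPolynomial Module Height
open scoped LinearAlgebra.Projectivization
open Pool.Agent.Results.MP_44a246_nt.BoundedDegreeHyperplanes (height toC fieldOf alpha toC_inj)
open Pool.Agent.N752.HY
open Pool.Agent.N752.HY.Ext
open Pool.Agent.N753.AC (StmRAM)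
open Pool.Agent.N752.CP (good deh)
open Pool.Agent.R366.NF (idealHeight)

/-- one exceptional set for countably many properties, with a rate -/
theorem univ_rate {K : Type} [Field K] [NumberField K] {m : ℕ} (ψ : ℝ → ℝ)
    (hψ : ∀ c : ℝ, 0 < c → ∃ T₀ : ℝ, ∀ T : ℝ, T₀ ≤ T → ψ T ≤ c * T)
    {ι : Type} [Countable ι] [Nonempty ι] (P : ι → ℙ K (Fin (m + 1) → K) → Prop)
    (hP : ∀ i, AA (P i)) :
    ∃ E : Set (ℙ K (Fin (m + 1) → K)),
      (∀ T : ℝ, 0 ≤ T →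
        (({Q | Q ∈ E ∧ Real.log Q.mulHeight ≤ finrank ℚ K * T}).ncard : ℝ) ≤
          Real.exp ((finrank ℚ K : ℝ) * (m + 1) * T - ψ T)) ∧
      ∀ i, ∃ T : ℝ, ∀ Q, Q ∉ E → finrank ℚ K * T < Real.log Q.mulHeight → P i Q := by
  classical
  obtain ⟨f, hf⟩ := exists_surjective_nat ι
  choose c C hc hC hall using fun i : ℕ => hP (f i)
  have hT : ∀ i : ℕ, ∃ T₁ : ℝ, 0 ≤ T₁ ∧ ∀ T : ℝ, T₁ ≤ T →
      C i * Real.exp (((finrank ℚ K : ℝ) * (m + 1) - c i) * T) ≤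
        (1 / 2) ^ (i + 1) * Real.exp ((finrank ℚ K : ℝ) * (m + 1) * T - ψ T) := by
    intro i
    obtain ⟨T₀, hT₀⟩ := hψ (c i / 2) (by have := hc i; positivity)
    obtain ⟨D, hD⟩ : ∃ D : ℝ, D = Real.log (C i + 1) + (i + 1 : ℕ) * Real.log 2 := ⟨_, rfl⟩
    refine ⟨max (max T₀ (2 * D / c i)) 0, le_max_right _ _, fun T hT => ?_⟩
    have h1 : T₀ ≤ T := ((le_max_left _ _).trans (le_max_left _ _)).trans hT
    have h2 : 2 * D / c i ≤ T := ((le_max_right _ _).trans (le_max_left _ _)).trans hT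
    have h3 := hT₀ T h1
    rw [div_le_iff₀ (hc i)] at h2
    have h4 : D + ψ T ≤ c i * T := by linarith
    have hC1 : 0 < C i + 1 := by have := hC i; linarith
    have h5 : C i ≤ Real.exp (Real.log (C i + 1)) := by
      rw [Real.exp_log hC1]
      linarith
    have h6 : ((1 : ℝ) / 2) ^ (i + 1) = Real.exp (-((i + 1 : ℕ) * Real.log 2)) := by
      rw [Real.exp_neg, Real.exp_nat_mul, Real.exp_log two_pos, one_div, inv_pow]
    rw [h6, ← Real.exp_add]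
    calc C i * Real.exp (((finrank ℚ K : ℝ) * (m + 1) - c i) * T) ≤
          Real.exp (Real.log (C i + 1)) *
            Real.exp (((finrank ℚ K : ℝ) * (m + 1) - c i) * T) :=
          mul_le_mul_of_nonneg_right h5 (Real.exp_pos _).le
      _ = Real.exp (Real.log (C i + 1) + ((finrank ℚ K : ℝ) * (m + 1) - c i) * T) :=
          (Real.exp_add _ _).symm
      _ ≤ _ := by
          apply Real.exp_le_exp.2
          rw [hD] at h4
          linarith
  choose T₁ hT₁0 hT₁ using hT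
  refine ⟨{Q | ∃ i, ¬ P (f i) Q ∧ finrank ℚ K * T₁ i < Real.log Q.mulHeight}, ?_, ?_⟩
  · intro T hT
    obtain ⟨S, hS⟩ : ∃ S : Set (ℙ K (Fin (m + 1) → K)),
        S = {Q | (Q ∈ {Q : ℙ K (Fin (m + 1) → K) | ∃ i, ¬ P (f i) Q ∧
          finrank ℚ K * T₁ i < Real.log Q.mulHeight}) ∧
            Real.log Q.mulHeight ≤ finrank ℚ K * T} := ⟨_, rfl⟩
    rw [← hS]
    by_cases hfin : S.Finite
    swap
    · rw [Set.Infinite.ncard hfin, Nat.cast_zero]
      exact (Real.exp_pos _).le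
    have hn0 : (0 : ℝ) < finrank ℚ K := by exact_mod_cast (finrank_pos (R := ℚ) (M := K))
    have hidx : ∀ Q : ℙ K (Fin (m + 1) → K), ∃ i : ℕ, Q ∈ S → (¬ P (f i) Q ∧
        finrank ℚ K * T₁ i < Real.log Q.mulHeight) := by
      intro Q
      by_cases hQ : Q ∈ S
      · rw [hS] at hQ
        obtain ⟨⟨i, hi⟩, -⟩ := hQ
        exact ⟨i, fun _ => hi⟩
      · exact ⟨0, fun h => absurd h hQ⟩
    choose g hg using hidx
    have hcard : ∀ i ∈ hfin.toFinset.image g,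
        ((hfin.toFinset.filter fun Q => g Q = i).card : ℝ) ≤
          (1 / 2) ^ (i + 1) * Real.exp ((finrank ℚ K : ℝ) * (m + 1) * T - ψ T) := by
      intro i hi
      obtain ⟨Q₀, hQ₀, rfl⟩ := Finset.mem_image.1 hi
      have hQ₀' := (Set.Finite.mem_toFinset _).1 hQ₀
      have h1 := (hg Q₀ hQ₀').2
      have h2 : Real.log Q₀.mulHeight ≤ finrank ℚ K * T := by
        rw [hS] at hQ₀'
        exact hQ₀'.2
      have h3 : T₁ (g Q₀) ≤ T := by
        have := h1.trans_le h2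
        exact (lt_of_mul_lt_mul_left this hn0.le).le
      obtain ⟨Z, hZ, hZall⟩ := hall (g Q₀) T hT
      refine le_trans ?_ (hZ.trans (hT₁ (g Q₀) T h3))
      exact_mod_cast Finset.card_le_card (by
        intro Q hQ
        rw [Finset.mem_filter, Set.Finite.mem_toFinset] at hQ
        obtain ⟨hQ1, hQ2⟩ := hQ
        have h4 := hg Q hQ1
        rw [hQ2] at h4
        rw [hS] at hQ1
        by_contra hc'
        exact h4.1 (hZall Q hQ1.2 hc'))
    rw [Set.ncard_eq_toFinset_card S hfin,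
      Finset.card_eq_sum_card_image g hfin.toFinset]
    push_cast
    refine (Finset.sum_le_sum hcard).trans ?_
    rw [← Finset.sum_mul]
    refine mul_le_of_le_one_left (Real.exp_pos _).le ?_
    have hsum : ∀ s : Finset ℕ, ∑ i ∈ s, ((1 : ℝ) / 2) ^ (i + 1) ≤ 1 := by
      intro s
      have h1 : Summable fun i : ℕ => ((1 : ℝ) / 2) ^ (i + 1) :=
        (summable_nat_add_iff 1).2 summable_geometric_two
      have h2 : ∑' i : ℕ, ((1 : ℝ) / 2) ^ (i + 1) = 1 := by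
        have h3 : ∑' i : ℕ, ((1 : ℝ) / 2) ^ (i + 1) = ∑' i : ℕ, (1 / 2) * ((1 : ℝ) / 2) ^ i :=
          tsum_congr fun i => by rw [pow_succ, mul_comm]
        rw [h3, tsum_mul_left, tsum_geometric_two]
        norm_num
      exact (h1.sum_le_tsum s fun i _ => by positivity).trans h2.le
    exact hsum _
  · intro i
    obtain ⟨j, rfl⟩ := hf i
    refine ⟨T₁ j, fun Q hQ hT => ?_⟩
    by_contra hc'
    exact hQ ⟨j, hc', hT⟩

variable {m : ℕ}

/-- the heights relative to ideals are small -/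
def IdP (k : IntermediateField ℚ ℂ) [NumberField k] (m : ℕ)
    (i : (Σ t : ℕ, (Fin t → MvPolynomial (Fin (m + 1)) (𝓞 k)) ×
      (Fin t → MvPolynomial (Fin (m + 1)) (𝓞 k)) × (Fin t → ℕ) × (Fin t → ℕ)) × ℕ × ℕ)
    (Q : ℙ k (Fin (m + 1) → k)) : Prop :=
  (∀ l, (i.1.2.1 l).IsHomogeneous (i.1.2.2.2.1 l)) → (∀ l, (i.1.2.2.1 l).IsHomogeneous
    (i.1.2.2.2.2 l)) → (∀ l, Irreducible (cx (i.1.2.1 l))) →
    (∀ l, ¬ cx (i.1.2.1 l) ∣ cx (i.1.2.2.1 l)) →
    (i.2.1 : ℝ) * ((∑ l, idealHeight (upK le_rfl (i.1.2.1 l)) (upK le_rfl (i.1.2.2.1 l))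
      (i.1.2.2.2.1 l) (i.1.2.2.2.2 l) Q.rep) / finrank ℚ k) ≤
        1 / ((i.2.2 : ℝ) + 1) * hgt Q.rep

open Classical in
/-- **one exceptional set with a rate for all covers** -/
theorem main10 (hRAM : StmRAM) (ψ : ℝ → ℝ)
    (hψ : ∀ c : ℝ, 0 < c → ∃ T₀ : ℝ, ∀ T : ℝ, T₀ ≤ T → ψ T ≤ c * T)
    (k : IntermediateField ℚ ℂ) [NumberField k] (m : ℕ) (hd : 3 ≤ finrank ℚ k * (m + 1)) :
    ∃ E : Set (ℙ k (Fin (m + 1) → k)),
      (∀ T : ℝ, 0 ≤ T →
        (({Q | Q ∈ E ∧ Real.log Q.mulHeight ≤ finrank ℚ k * T}).ncard : ℝ) ≤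
          Real.exp ((finrank ℚ k : ℝ) * (m + 1) * T - ψ T)) ∧
      ∀ (A : Type) [CommRing A] [Algebra (MvPolynomial (Fin m) k) A]
        [Algebra.IsIntegral (MvPolynomial (Fin m) k) A]
        (q : ℕ) (F : Fin q → MvPolynomial (Fin (m + 1)) (𝓞 k)) (κ : Fin q → ℕ),
        (∀ j, (F j).IsHomogeneous (κ j)) →
        (∀ j, Irreducible (map (algebraMap (𝓞 k) k) (F j))) →
        (∀ j, Irreducible (deh (F j))) →
        (∀ i j, i ≠ j →
          ¬ Associated (map (algebraMap (𝓞 k) k) (F i)) (map (algebraMap (𝓞 k) k) (F j))) →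
        (∀ j, κ j ≤ 2 ∨ Lines (cx (F j)) (κ j)) →
        ∀ (u : ℕ) (c : Fin u → Fin q) (𝔮 : Fin u → Ideal A) (Z : Fin u → Finset (ℕ × A))
        (ee : Fin u → ℕ) (D : Finset (Fin u)), (∀ i, (𝔮 i).IsPrime) → Function.Injective 𝔮 →
        (∀ i, (𝔮 i).comap (algebraMap (MvPolynomial (Fin m) k) A) =
          Ideal.span {deh (F (c i))}) →
        (∀ i, Ideal.span (Prod.snd '' (Z i : Set (ℕ × A))) = 𝔮 i) → (∀ i, 1 ≤ ee i) →
        (∀ i, ∃ a, a ∉ 𝔮 i ∧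
          a * algebraMap (MvPolynomial (Fin m) k) A (deh (F (c i))) ∈ 𝔮 i ^ ee i) →
        ∀ (d : ℕ) (R : MvPolynomial (Fin (m + 1)) (𝓞 k)), R.IsHomogeneous d → R ≠ 0 →
        ∀ S' : Finset ℕ, (∀ p ∈ S', p.Prime) →
        ∀ (t : ℕ) (F' G' : Fin t → MvPolynomial (Fin (m + 1)) (𝓞 k)) (κ' ε' : Fin t → ℕ),
        (∀ l, (F' l).IsHomogeneous (κ' l)) → (∀ l, (G' l).IsHomogeneous (ε' l)) →
        (∀ l, Irreducible (cx (F' l))) → (∀ l, ¬ cx (F' l) ∣ cx (G' l)) →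
        ∀ (M Λ : ℕ) (ε : ℝ), 0 < ε → ∃ T : ℝ,
        ∀ Q : ℙ k (Fin (m + 1) → k), Q ∉ E → T < height Q →
          Q.rep 0 ≠ 0 ∧ (∀ j, aeval Q.rep (upK (le_refl k) (F j)) ≠ 0) ∧
          aeval Q.rep (upK (le_refl k) R) ≠ 0 ∧
          ∀ (L : Type) [Field L] [NumberField L] [Algebra k L] (ψ : A →+* L),
            (∀ f : MvPolynomial (Fin m) k, ψ (algebraMap (MvPolynomial (Fin m) k) A f) =
              algebraMap k L (eval₂ (IntermediateField.inclusion (le_refl k)).toRingHom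
                (fun i => Q.rep i.succ / Q.rep 0) f)) →
            ∑ i, ((ee i : ℝ) - 1 + if i ∈ D then 1 else 0) *
                dht (upK (le_refl k) (F (c i))) (κ (c i)) (Z i) Q.rep ψ - ε * height Q +
                M * prox k S' (upK (le_refl k) R) d Q.rep +
                Λ * ((∑ l, idealHeight (upK (le_refl k) (F' l)) (upK (le_refl k) (G' l)) (κ' l)
                  (ε' l) Q.rep) / finrank ℚ k) ≤
              (∑ᶠ w : HeightOneSpectrum (𝓞 L),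
                if HitD (fun j => deh (F j)) c Z D
                  (IntermediateField.inclusion (le_refl k)).toRingHom
                  (fun i => Q.rep i.succ / Q.rep 0) ψ w then
                  Real.log (Ideal.absNorm w.asIdeal) else 0) / finrank ℚ L + ldisc L -
                  ldisc k := by
  have hcount := countable_poly k m
  have hne : Nonempty (Dt k m) := ⟨((0, 0), (0, 0), 0, 0)⟩
  obtain ⟨E, hE, hall⟩ := univ_rate (K := k) (m := m) ψ hψ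
    (ι := Dt k m ⊕ ((MvPolynomial (Fin (m + 1)) (𝓞 k) × ℕ × Finset ℕ × ℕ) ⊕
      ((Σ t : ℕ, (Fin t → MvPolynomial (Fin (m + 1)) (𝓞 k)) ×
      (Fin t → MvPolynomial (Fin (m + 1)) (𝓞 k)) × (Fin t → ℕ) × (Fin t → ℕ)) × ℕ × ℕ)))
    (Sum.elim (fun i => GdP k m i k inferInstance le_rfl)
      (Sum.elim (fun i => PrxP k m i k inferInstance le_rfl) (IdP k m))) (by
    rintro (i | i | i)
    · exact aap_good k (finrank ℚ k) hd i k inferInstance le_rfl rfl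
    · obtain ⟨G, κ, S, N⟩ := i
      by_cases hg : G.IsHomogeneous κ ∧ G ≠ 0 ∧ ∀ p ∈ S, p.Prime
      · obtain ⟨h1, h2, h3⟩ := hg
        have h4 := Prx.prx Pl1.t_PL1 Pl2.t_PL2 κ (upK (le_refl k) G) (h1.map _)
          (upK_ne (le_refl k) h2) S h3 (δ := 1 / ((N : ℝ) + 1)) (by positivity)
        exact h4.mono fun Q hQ _ _ _ => hQ
      · exact AA.triv.mono fun Q _ h1 h2 h3 => absurd ⟨h1, h2, h3⟩ hg
    · obtain ⟨⟨t, F', G', κ', ε'⟩, Λ, N⟩ := i
      by_cases hg : (∀ l, (F' l).IsHomogeneous (κ' l)) ∧ (∀ l, (G' l).IsHomogeneous (ε' l)) ∧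
        (∀ l, Irreducible (cx (F' l))) ∧ ∀ l, ¬ cx (F' l) ∣ cx (G' l)
      · obtain ⟨h1, h2, h3, h4⟩ := hg
        exact (aa_ideal (le_refl k) hd h1 h2 h3 h4 Λ (δ := 1 / ((N : ℝ) + 1))
          (by positivity)).mono fun Q hQ _ _ _ _ => hQ
      · exact AA.triv.mono fun Q _ h1 h2 h3 h4 => absurd ⟨h1, h2, h3, h4⟩ hg)
  refine ⟨E, hE, ?_⟩
  intro A _ _ _ q F κ h1 h2 h3 h4 h5 u c 𝔮 Z ee D hprime hinj hcomap hZ hee hram d R hR hR0 S' hS'
    t F' G' κ' ε' g1 g2 g3 g4 M Λ ε hε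
  obtain ⟨G, e, n₀, k0, k1, k2, k3⟩ := conclP hRAM A F κ h1 h2 h3 h4 c 𝔮 Z ee D hprime hinj hcomap
    hZ hee hram
  obtain ⟨B, hB⟩ : ∃ B : ℝ, B = ∑ i, (ee i : ℝ) := ⟨_, rfl⟩
  have hB0 : 0 ≤ B := by
    rw [hB]
    exact Finset.sum_nonneg fun i _ => Nat.cast_nonneg _
  obtain ⟨N, hN⟩ : ∃ N : ℕ, 1 / ((N : ℝ) + 1) < ε / (B + M + 1) :=
    exists_nat_one_div_lt (by positivity)
  obtain ⟨δ, hδ⟩ : ∃ δ : ℝ, δ = 1 / ((N : ℝ) + 1) := ⟨_, rfl⟩
  have hδ0 : 0 < δ := by rw [hδ]; positivity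
  have hδε : δ * (B + M + 1) ≤ ε := by
    rw [← hδ, lt_div_iff₀ (by positivity)] at hN
    exact hN.le
  have hn0 : (0 : ℝ) < finrank ℚ k := by exact_mod_cast (finrank_pos (R := ℚ) (M := k))
  have hcv : ∀ (T : ℝ) (Q : ℙ k (Fin (m + 1) → k)), T < height Q →
      finrank ℚ k * T < Real.log Q.mulHeight := by
    intro T Q hTQ
    have h6 : height Q = Real.log Q.mulHeight / finrank ℚ k := rfl
    rw [h6, lt_div_iff₀ hn0] at hTQ
    linarith
  choose T₁ hT₁ using fun j => hall (Sum.inl ((F j, G j), (κ j, e j), n₀, N))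
  obtain ⟨T₂, hT₂⟩ := hall (Sum.inr (Sum.inr (⟨t, F', G', κ', ε'⟩, Λ, N)))
  obtain ⟨T₃, hT₃⟩ := hall (Sum.inr (Sum.inl (R, d, S', N)))
  obtain ⟨T₅, hT₅⟩ := hall (Sum.inr (Sum.inl (X 0, 1, ∅, 0)))
  refine ⟨∑ j, |T₁ j| + |T₂| + |T₃| + |T₅|, fun Q hQE hTQ => ?_⟩
  have p2 : 0 ≤ ∑ j, |T₁ j| := Finset.sum_nonneg fun j _ => abs_nonneg _
  have p4 := abs_nonneg T₂
  have p5 := abs_nonneg T₃
  have p6 := abs_nonneg T₅
  have p7 := le_abs_self T₂
  have p8 := le_abs_self T₃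
  have p9 := le_abs_self T₅
  have c1 : ∀ j, aeval Q.rep (upK (le_refl k) (F j)) ≠ 0 ∧
      aeval Q.rep (upK (le_refl k) (G j)) ≠ 0 ∧
      ((κ j : ℝ) - δ) * (finrank ℚ k * hgt Q.rep) ≤
        ∑ v ∈ good (upK (le_refl k) (F j)) (upK (le_refl k) (G j)) (κ j) (e j) (badn k n₀) Q.rep,
          Real.log (Ideal.absNorm v.asIdeal) := by
    intro j
    have a1 := Finset.single_le_sum (f := fun j => |T₁ j|) (fun j _ => abs_nonneg _)
      (Finset.mem_univ j)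
    have a2 := le_abs_self (T₁ j)
    have a3 := hT₁ j Q hQE (hcv _ Q (by linarith)) ⟨h1 j, k1 j, h2 j, k2 j, h5 j, k0⟩
    rw [hδ]
    exact a3
  have c7 := hT₂ Q hQE (hcv _ Q (by linarith)) g1 g2 g3 g4
  obtain ⟨c3, c4⟩ := hT₃ Q hQE (hcv _ Q (by linarith)) hR hR0 hS'
  have c5 := (hT₅ Q hQE (hcv _ Q (by linarith)) (isHomogeneous_X _ _) (X_ne_zero _)
    (by simp)).1
  have c6 : Q.rep 0 ≠ 0 := by
    have e1 : upK (le_refl k) (X 0 : MvPolynomial (Fin (m + 1)) (𝓞 k)) = X 0 := map_X _ _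
    have c5' : aeval Q.rep (upK (le_refl k) (X 0 : MvPolynomial (Fin (m + 1)) (𝓞 k))) ≠ 0 := c5
    rw [e1, aeval_X] at c5'
    exact c5'
  refine ⟨c6, fun j => (c1 j).1, c3, ?_⟩
  intro L _ _ _ ψ hcomp
  have hfin := k3 M Λ ε δ hδ0.le (by rw [← hB]; exact hδε) k
    (IntermediateField.inclusion (le_refl k)).toRingHom Q.rep
    (prox k S' (upK (le_refl k) R) d Q.rep)
    ((∑ l, idealHeight (upK (le_refl k) (F' l)) (upK (le_refl k) (G' l)) (κ' l) (ε' l) Q.rep) /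
      finrank ℚ k)
    c6 c1 (by rw [hδ]; exact c4) (by rw [hδ]; exact c7) L ψ hcomp
  rw [← hgt_eq]
  exact hfin

end Pool.Agent.D0H60.VDR
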