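import Pool.Agent.D0H60.VDR.Pt8

set_option autoImplicit false
set_option linter.unusedSectionVars false

/-!
# One exceptional set for all covers, with a rate for the points over `k`
-/

namespace Pool.Agent.D0H60.VDR

open NumberField IsDedekindDomain MvPolynomial Module Height
open scoped LinearAlgebra.Projectivization
open Pool.Agent.Results.MP_44a246_nt.BoundedDegreeHyperplanes (height toC fieldOf alpha toC_inj)
open Pool.Agent.N752.SU (spanDim Full DensityZero)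
open Pool.Agent.N752.HY
open Pool.Agent.N752.HY.Ext
open Pool.Agent.N753.AC (StmRAM)
open Pool.Agent.N752.CP (good deh)
open Pool.Agent.R366.NF (idealHeight)

lemma full_fin (k : IntermediateField ℚ ℂ) [NumberField k] (m : ℕ) (T : ℝ) :
    (Full k m 1 T).Finite := (cov_one k m).1 T

/-- **one exceptional set for all covers** -/
theorem main11 (hRAM : StmRAM) (Ψ : ℝ → ℝ)
    (hΨ : ∀ c : ℝ, 0 < c → ∃ T₀ : ℝ, ∀ T : ℝ, T₀ ≤ T → Ψ T ≤ c * T) : ∀ η : ℝ, 0 < η → ∃ c₀ : ℝ, 1 ≤ c₀ ∧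
    ∀ (k : IntermediateField ℚ ℂ) [NumberField k] (m r n : ℕ), 1 ≤ m → 1 ≤ r →
      n = r * finrank ℚ k →
      (2 ≤ n → n + 1 ≤ m → 2 * alpha n c₀ η < m) ∧
      ((r = 1 ∧ 3 ≤ n * (m + 1)) ∨ (2 ≤ n ∧ 2 * alpha n c₀ η < m ∧ r ≤ m + 1) →
        ∃ E₀ : Set (ℙ ℂ (Fin (m + 1) → ℂ)), DensityZero (Full k m r) E₀ ∧
          ((r ≤ 2 ∨ (r : ℝ) * (r - 1) * (2 * alpha n c₀ η + 1) + r ≤ m + 1) →
            DensityZero (All k m r) (E₀ ∪ {P | spanDim k P ≠ r})) ∧
          (r = 1 → ∀ T : ℝ, 0 ≤ T → ((E₀ ∩ All k m r T).ncard : ℝ) ≤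
            Real.exp ((finrank ℚ k : ℝ) * (m + 1) * T - Ψ T)) ∧
          ∀ (A : Type) [CommRing A] [Algebra (MvPolynomial (Fin m) k) A]
            [Algebra.IsIntegral (MvPolynomial (Fin m) k) A]
            (q : ℕ) (F : Fin q → MvPolynomial (Fin (m + 1)) (𝓞 k)) (κ : Fin q → ℕ),
            (∀ j, (F j).IsHomogeneous (κ j)) →
            (∀ j, Irreducible (map (algebraMap (𝓞 k) k) (F j))) →
            (∀ j, Irreducible (deh (F j))) →
            (∀ i j, i ≠ j →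
              ¬ Associated (map (algebraMap (𝓞 k) k) (F i)) (map (algebraMap (𝓞 k) k) (F j))) →
            (∀ j, κ j ≤ 2 ∨ Lines (cx (F j)) (κ j)) →
            ∀ (u : ℕ) (c : Fin u → Fin q) (𝔮 : Fin u → Ideal A) (Z : Fin u → Finset (ℕ × A))
            (e : Fin u → ℕ) (D : Finset (Fin u)), (∀ i, (𝔮 i).IsPrime) → Function.Injective 𝔮 →
            (∀ i, (𝔮 i).comap (algebraMap (MvPolynomial (Fin m) k) A) =
              Ideal.span {deh (F (c i))}) →
            (∀ i, Ideal.span (Prod.snd '' (Z i : Set (ℕ × A))) = 𝔮 i) → (∀ i, 1 ≤ e i) →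
            (∀ i, ∃ a, a ∉ 𝔮 i ∧
              a * algebraMap (MvPolynomial (Fin m) k) A (deh (F (c i))) ∈ 𝔮 i ^ e i) →
            ∀ (d : ℕ) (R : MvPolynomial (Fin (m + 1)) (𝓞 k)), R.IsHomogeneous d → R ≠ 0 →
            ∀ S' : Finset ℕ, (∀ p ∈ S', p.Prime) →
            ∀ (t : ℕ) (F' G' : Fin t → MvPolynomial (Fin (m + 1)) (𝓞 k)) (κ' ε' : Fin t → ℕ),
            (∀ l, (F' l).IsHomogeneous (κ' l)) → (∀ l, (G' l).IsHomogeneous (ε' l)) →
            (∀ l, Irreducible (cx (F' l))) → (∀ l, ¬ cx (F' l) ∣ cx (G' l)) →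
            ∀ (M Λ : ℕ) (ε : ℝ), 0 < ε → ∃ T : ℝ,
            ∀ (K : IntermediateField ℚ ℂ) (_ : NumberField K) (h : k ≤ K)
              (Q : ℙ K (Fin (m + 1) → K)), fieldOf k (toC Q) = K →
              finrank ℚ K = r * finrank ℚ k → toC Q ∉ E₀ → T < height Q →
              Q.rep 0 ≠ 0 ∧ (∀ j, aeval Q.rep (upK h (F j)) ≠ 0) ∧ aeval Q.rep (upK h R) ≠ 0 ∧
              ∀ (L : Type) [Field L] [NumberField L] [Algebra K L] (ψ : A →+* L),
                (∀ f : MvPolynomial (Fin m) k, ψ (algebraMap (MvPolynomial (Fin m) k) A f) =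
                  algebraMap K L (eval₂ (IntermediateField.inclusion h).toRingHom
                    (fun i => Q.rep i.succ / Q.rep 0) f)) →
                ∑ i, ((e i : ℝ) - 1 + open Classical in if i ∈ D then 1 else 0) *
                    dht (upK h (F (c i))) (κ (c i)) (Z i) Q.rep ψ - ε * height Q +
                    M * prox K S' (upK h R) d Q.rep +
                    Λ * ((∑ l, idealHeight (upK h (F' l)) (upK h (G' l)) (κ' l) (ε' l) Q.rep) /
                      finrank ℚ K) ≤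
                  (∑ᶠ w : HeightOneSpectrum (𝓞 L), open Classical in
                    if HitD (fun j => deh (F j)) c Z D (IntermediateField.inclusion h).toRingHom
                      (fun i => Q.rep i.succ / Q.rep 0) ψ w then
                      Real.log (Ideal.absNorm w.asIdeal) else 0) / finrank ℚ L + ldisc L -
                      ldisc K) := by
  classical
  intro η hη
  obtain ⟨c₀, hc₀, hmain⟩ := main8 hRAM η hη
  refine ⟨c₀, hc₀, ?_⟩
  intro k ik m r n hm hr hn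
  obtain ⟨h1, h2⟩ := hmain k m r n hm hr hn
  refine ⟨h1, fun hcase => ?_⟩
  obtain ⟨E₀, hE₀, hall, hpts⟩ := h2 hcase
  by_cases hr1 : r = 1
  swap
  · refine ⟨E₀, hE₀, hall, fun h => absurd h hr1, ?_⟩
    intro A _ _ _ q F κ h1 h2 h3 h4 h5 u c 𝔮 Z ee D hprime hinj hcomap hZ hee hram d R hR hR0 S' hS'
      t F' G' κ' ε' g1 g2 g3 g4 M Λ ε hε
    obtain ⟨T, hT⟩ := hpts A q F κ h1 h2 h3 h4 h5 u c 𝔮 Z ee D hprime hinj hcomap hZ hee hram d R
      hR hR0 S' hS' t F' G' κ' ε' g1 g2 g3 g4 M Λ ε hε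
    exact ⟨T, fun K hK h Q hf _ hQ hTQ => hT K hK h Q hf hQ hTQ⟩
  subst hr1
  have hd : 3 ≤ finrank ℚ k * (m + 1) := by
    rw [one_mul] at hn
    rw [← hn]
    rcases hcase with ⟨-, h⟩ | ⟨hn2, hmα, -⟩
    · exact h
    · obtain ⟨hα1, -⟩ := (Pool.Agent.W223.VD.Points.alpha_admissible hη).choose_spec.2 n hn2
      have hm1 : 1 ≤ m := hm
      calc 3 ≤ 2 * (1 + 1) := by norm_num
        _ ≤ n * (m + 1) := Nat.mul_le_mul hn2 (by omega)
  obtain ⟨E, hE, hpts'⟩ := main10 hRAM Ψ hΨ k m hd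
  have hn0 : (0 : ℝ) < finrank ℚ k := by exact_mod_cast (finrank_pos (R := ℚ) (M := k))
  -- the points of degree one
  have hall1 : ∀ (T : ℝ) (P : ℙ ℂ (Fin (m + 1) → ℂ)), P ∈ All k m 1 T →
      ∃ Q : ℙ k (Fin (m + 1) → k), toC Q = P ∧ height Q ≤ T := by
    rintro T P ⟨K, hK, hkK, Q, hf, hfr, hQ, hT⟩
    have e := field_one k hK hkK hfr
    subst e
    have : hK = ik := Subsingleton.elim _ _
    subst this
    exact ⟨Q, hQ, hT⟩
  have hfin0 : ∀ T : ℝ, {Q : ℙ k (Fin (m + 1) → k) | Real.log Q.mulHeight ≤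
      finrank ℚ k * T}.Finite := by
    intro T
    obtain ⟨C', -, h⟩ := Pool.Agent.N752.RD.pts_upper k m
    obtain ⟨h1, -⟩ := h (Real.exp (max T 0)) (Real.one_le_exp (le_max_right _ _))
    refine h1.subset ?_
    intro Q hQ
    rw [Set.mem_ofPred_eq] at hQ
    rw [Set.mem_ofPred_eq, ← Real.exp_nat_mul]
    have hmh : 1 ≤ Q.mulHeight := by
      rw [← Q.mk_rep, Projectivization.mulHeight_mk]
      exact one_le_mulHeight _
    rw [← Real.log_le_iff_le_exp (by linarith)]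
    have h2 := mul_le_mul_of_nonneg_left (le_max_left T 0) hn0.le
    exact hQ.trans h2
  have hh : ∀ (T : ℝ) (Q : ℙ k (Fin (m + 1) → k)), height Q ≤ T →
      Real.log Q.mulHeight ≤ finrank ℚ k * T := by
    intro T Q hQ
    have h6 : height Q = Real.log Q.mulHeight / finrank ℚ k := rfl
    rw [h6, div_le_iff₀ hn0] at hQ
    linarith
  have hfinA : ∀ T : ℝ, (All k m 1 T).Finite := by
    intro T
    refine ((hfin0 T).image toC).subset fun P hP => ?_
    obtain ⟨Q, hQ, hT⟩ := hall1 T P hP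
    exact ⟨Q, hh T Q hT, hQ⟩
  refine ⟨E₀ ∩ toC '' E, ?_, fun hc => ?_, fun _ T hT => ?_, ?_⟩
  · intro ε hε
    obtain ⟨B₀, hB₀⟩ := hE₀ ε hε
    refine ⟨B₀, fun B hB => le_trans ?_ (hB₀ B hB)⟩
    exact_mod_cast Set.ncard_le_ncard
      (Set.inter_subset_inter_left _ Set.inter_subset_left)
      ((full_fin k m B).subset Set.inter_subset_right)
  · intro ε hε
    obtain ⟨B₀, hB₀⟩ := hall hc ε hε
    refine ⟨B₀, fun B hB => le_trans ?_ (hB₀ B hB)⟩
    exact_mod_cast Set.ncard_le_ncard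
      (Set.inter_subset_inter_left _ (Set.union_subset_union_left _ Set.inter_subset_left))
      ((hfinA B).subset Set.inter_subset_right)
  · refine le_trans ?_ (hE T hT)
    have hsub : (E₀ ∩ toC '' E) ∩ All k m 1 T ⊆
        toC '' {Q | Q ∈ E ∧ Real.log Q.mulHeight ≤ finrank ℚ k * T} := by
      rintro P ⟨⟨-, Q, hQ, rfl⟩, hP⟩
      obtain ⟨Q', hQ', hT'⟩ := hall1 T _ hP
      have e := toC_inj hQ'
      subst e
      exact ⟨Q', ⟨hQ, hh T Q' hT'⟩, rfl⟩
    have hfinE : ({Q | Q ∈ E ∧ Real.log Q.mulHeight ≤ finrank ℚ k * T}).Finite :=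
      (hfin0 T).subset fun Q hQ => hQ.2
    exact_mod_cast (Set.ncard_le_ncard hsub (hfinE.image _)).trans (Set.ncard_image_le hfinE)
  · intro A _ _ _ q F κ h1 h2 h3 h4 h5 u c 𝔮 Z ee D hprime hinj hcomap hZ hee hram d R hR hR0 S' hS'
      t F' G' κ' ε' g1 g2 g3 g4 M Λ ε hε
    obtain ⟨T, hT⟩ := hpts A q F κ h1 h2 h3 h4 h5 u c 𝔮 Z ee D hprime hinj hcomap hZ hee hram d R
      hR hR0 S' hS' t F' G' κ' ε' g1 g2 g3 g4 M Λ ε hε
    obtain ⟨T', hT'⟩ := hpts' A q F κ h1 h2 h3 h4 h5 u c 𝔮 Z ee D hprime hinj hcomap hZ hee hram d R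
      hR hR0 S' hS' t F' G' κ' ε' g1 g2 g3 g4 M Λ ε hε
    refine ⟨max T T', fun K hK h Q hf hfr hQ hTQ => ?_⟩
    by_cases hQE : toC Q ∈ E₀
    swap
    · exact hT K hK h Q hf hQE ((le_max_left _ _).trans_lt hTQ)
    have e := field_one k hK h hfr
    subst e
    have : hK = ik := Subsingleton.elim _ _
    subst this
    exact hT' Q (fun hQ' => hQ ⟨hQE, Q, hQ', rfl⟩) ((le_max_right _ _).trans_lt hTQ)

end Pool.Agent.D0H60.VDR
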